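import Pool.Agent.H791R3.GI.Stubs

set_option autoImplicit false
set_option linter.unusedSectionVars false
set_option linter.unusedSimpArgs false

namespace Pool.Agent.H791R3.GI.ADJ

open Pool.Agent.H791R3.GI Matrix Cub

variable {R : Type} [CommRing R] [StarRing R] {a : ℤ} {y : R}

theorem C_inj {r r' : R} (h : (C r : Cub R a) = C r') : r = r' := by
  have := congrArg Cub.x h
  simpa using this

theorem mul_adj (s : Cyc R a y) : s * adj s = cen (Cyc.nrd s) := by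
  ext1 <;> simp only [Cyc.mul_u, Cyc.mul_v, Cyc.mul_w, adj, cen, Cyc.nrd, map_sub, map_mul,
    map_add, map_pow, C_nm, C_tr, sig_sig_sig, sig_C] <;> ring

theorem adj_mul (s : Cyc R a y) : adj s * s = cen (Cyc.nrd s) := by
  ext1 <;> simp only [Cyc.mul_u, Cyc.mul_v, Cyc.mul_w, adj, cen, Cyc.nrd, map_sub, map_mul,
    map_add, map_pow, C_nm, C_tr, sig_sig_sig, sig_C] <;> ring

theorem cen_mul (r : R) (s : Cyc R a y) : cen r * s = s * cen r := by
  ext1 <;> simp only [Cyc.mul_u, Cyc.mul_v, Cyc.mul_w, cen, map_zero, sig_C] <;> ring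

theorem cen_cen (r r' : R) : (cen r * cen r' : Cyc R a y) = cen (r * r') := by
  ext1 <;> simp only [Cyc.mul_u, Cyc.mul_v, Cyc.mul_w, cen, map_zero, sig_C, map_mul] <;> ring

theorem cen_nat (n : ℕ) : (cen (n : R) : Cyc R a y) = n := by
  ext1
  · simp only [cen, Cyc.natCast_u, map_natCast]
  · simp only [cen, Cyc.natCast_v]
  · simp only [cen, Cyc.natCast_w]

theorem nrd_mul (s t : Cyc R a y) : Cyc.nrd (s * t) = Cyc.nrd s * Cyc.nrd t := by
  apply C_inj (a := a)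
  rw [map_mul, ← Cyc.det_Phi, ← Cyc.det_Phi, ← Cyc.det_Phi, map_mul, Matrix.det_mul]

theorem nrd_star (s : Cyc R a y) : Cyc.nrd (star s) = star (Cyc.nrd s) := by
  apply C_inj (a := a)
  rw [← star_C, ← Cyc.det_Phi, ← Cyc.det_Phi, Cyc.Phi_star, Matrix.det_conjTranspose]

theorem nrd_nat (n : ℕ) : Cyc.nrd (n : Cyc R a y) = n ^ 3 := by
  apply C_inj (a := a)
  rw [← Cyc.det_Phi, map_natCast, map_pow, map_natCast]
  have : ((n : ℕ) : Matrix (Fin 3) (Fin 3) (Cub R a)) = (n : Cub R a) • (1 : Matrix (Fin 3) (Fin 3) (Cub R a)) := by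
    rw [← Matrix.diagonal_natCast, Matrix.smul_one_eq_diagonal]
  rw [this, Matrix.det_smul, Matrix.det_one, Fintype.card_fin, mul_one]

end Pool.Agent.H791R3.GI.ADJ

namespace Pool.Agent.H791R3.GI

theorem ADJ_proof : St_ADJ := by
  intro R _ _ a y
  exact ⟨fun s => ⟨ADJ.mul_adj s, ADJ.adj_mul s⟩, ADJ.cen_mul, ADJ.cen_cen, ADJ.cen_nat,
    ADJ.nrd_mul, ADJ.nrd_star, ADJ.nrd_nat⟩

end Pool.Agent.H791R3.GI
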