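import Pool.Agent.H791R3.GI.Stubs

/-! BND: polynomial bounds -/

set_option autoImplicit false

namespace Pool.Agent.H791R3.GI

open Matrix Cub

namespace TaskBND

/-- weight of an element of `ℤ[√-m]` -/
def wz {m : ℕ} (z : Zm m) : ℕ := z.re.natAbs + m * z.im.natAbs

lemma wz_add {m : ℕ} (z z' : Zm m) : wz (z + z') ≤ wz z + wz z' := by
  unfold wz
  rw [Zsqrtd.re_add, Zsqrtd.im_add]
  have h1 := Int.natAbs_add_le z.re z'.re
  have h2 := Int.natAbs_add_le z.im z'.im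
  have h3 := Nat.mul_le_mul_left m h2
  rw [Nat.mul_add] at h3
  omega

lemma wz_neg {m : ℕ} (z : Zm m) : wz (-z) = wz z := by
  unfold wz
  rw [Zsqrtd.re_neg, Zsqrtd.im_neg, Int.natAbs_neg, Int.natAbs_neg]

lemma wz_sub {m : ℕ} (z z' : Zm m) : wz (z - z') ≤ wz z + wz z' := by
  rw [sub_eq_add_neg]
  refine (wz_add _ _).trans ?_
  rw [wz_neg]

lemma wz_star {m : ℕ} (z : Zm m) : wz (star z) = wz z := by
  unfold wz
  rw [Zsqrtd.re_star, Zsqrtd.im_star, Int.natAbs_neg]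

lemma wz_mul {m : ℕ} (z z' : Zm m) : wz (z * z') ≤ wz z * wz z' := by
  unfold wz
  rw [Zsqrtd.re_mul, Zsqrtd.im_mul]
  have h1 : (z.re * z'.re + -(m : ℤ) * z.im * z'.im).natAbs ≤
      z.re.natAbs * z'.re.natAbs + m * (z.im.natAbs * z'.im.natAbs) := by
    refine (Int.natAbs_add_le _ _).trans ?_
    rw [Int.natAbs_mul, Int.natAbs_mul, Int.natAbs_mul, Int.natAbs_neg, Int.natAbs_natCast,
      mul_assoc]
  have h2 : (z.re * z'.im + z.im * z'.re).natAbs ≤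
      z.re.natAbs * z'.im.natAbs + z.im.natAbs * z'.re.natAbs := by
    refine (Int.natAbs_add_le _ _).trans ?_
    rw [Int.natAbs_mul, Int.natAbs_mul]
  have h3 : m ≤ m * m := Nat.le_mul_self m
  have h4 : m * (z.im.natAbs * z'.im.natAbs) ≤ m * m * (z.im.natAbs * z'.im.natAbs) :=
    Nat.mul_le_mul_right _ h3
  have h5 := Nat.mul_le_mul_left m h2
  calc _ ≤ z.re.natAbs * z'.re.natAbs + m * (z.im.natAbs * z'.im.natAbs) +
        m * (z.re.natAbs * z'.im.natAbs + z.im.natAbs * z'.re.natAbs) := add_le_add h1 h5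
    _ ≤ z.re.natAbs * z'.re.natAbs + m * m * (z.im.natAbs * z'.im.natAbs) +
        m * (z.re.natAbs * z'.im.natAbs + z.im.natAbs * z'.re.natAbs) := by omega
    _ = _ := by ring

lemma wz_int {m : ℕ} (n : ℤ) : wz ((n : ℤ) : Zm m) = n.natAbs := by
  unfold wz
  simp

lemma wz_int_mul {m : ℕ} (n : ℤ) (z : Zm m) : wz ((n : Zm m) * z) ≤ n.natAbs * wz z := by
  refine (wz_mul _ _).trans ?_
  rw [wz_int]

/-- weight of an element of `S` -/
def wc {m : ℕ} {a : ℤ} (s : Cub (Zm m) a) : ℕ := wz s.x + wz s.y + wz s.z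

section
variable {m : ℕ} {a : ℤ}

lemma wc_add (s t : Cub (Zm m) a) : wc (s + t) ≤ wc s + wc t := by
  unfold wc
  have h1 := wz_add s.x t.x
  have h2 := wz_add s.y t.y
  have h3 := wz_add s.z t.z
  rw [add_x, add_y, add_z]
  omega

lemma wc_star (s : Cub (Zm m) a) : wc (star s) = wc s := by
  unfold wc
  rw [star_x, star_y, star_z, wz_star, wz_star, wz_star]

lemma wc_C_mul (r : Zm m) (s : Cub (Zm m) a) : wc (C r * s) ≤ wz r * wc s := by
  unfold wc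
  have e1 : (C r * s).x = r * s.x := by simp
  have e2 : (C r * s).y = r * s.y := by simp
  have e3 : (C r * s).z = r * s.z := by simp
  rw [e1, e2, e3]
  have h1 := wz_mul r s.x
  have h2 := wz_mul r s.y
  have h3 := wz_mul r s.z
  calc _ ≤ wz r * wz s.x + wz r * wz s.y + wz r * wz s.z := by omega
    _ = _ := by ring

/-- the constant `D` dominates the structure constants -/
structure Dom (a : ℤ) (D : ℕ) : Prop where
  d1 : 1 ≤ D
  d2 : 1 + (a + 3).natAbs + a.natAbs ≤ D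
  d3 : a.natAbs + (a ^ 2 + 3 * a + 1).natAbs + (a ^ 2 + a + 3).natAbs ≤ D
  d4 : 3 + (a + 1).natAbs ≤ D
  d5 : (2 - a).natAbs + (a ^ 2 + a + 1).natAbs + a.natAbs ≤ D

lemma wc_mul {D : ℕ} (hD : Dom a D) (s t : Cub (Zm m) a) : wc (s * t) ≤ D * wc s * wc t := by
  have e1 := hD.d1
  have e2 := hD.d2
  have e3 := hD.d3
  unfold wc
  set x1 := wz s.x with hx1
  set x2 := wz s.y with hx2
  set x3 := wz s.z with hx3
  set y1 := wz t.x with hy1
  set y2 := wz t.y with hy2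
  set y3 := wz t.z with hy3
  have hyz : wz (s.y * t.z + s.z * t.y) ≤ x2 * y3 + x3 * y2 :=
    (wz_add _ _).trans (add_le_add (wz_mul _ _) (wz_mul _ _))
  have hzz : wz (s.z * t.z) ≤ x3 * y3 := wz_mul _ _
  have hx : wz (s * t).x ≤ x1 * y1 + (x2 * y3 + x3 * y2) + a.natAbs * (x3 * y3) := by
    rw [mul_x]
    refine (wz_add _ _).trans (add_le_add ((wz_add _ _).trans (add_le_add (wz_mul _ _) hyz)) ?_)
    exact (wz_int_mul a _).trans (Nat.mul_le_mul_left _ hzz)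
  have c1 : ((a : Zm m) + 3) = ((a + 3 : ℤ) : Zm m) := by push_cast; ring
  have c2 : ((a : Zm m) ^ 2 + 3 * a + 1) = ((a ^ 2 + 3 * a + 1 : ℤ) : Zm m) := by push_cast; ring
  have c3 : ((a : Zm m) ^ 2 + a + 3) = ((a ^ 2 + a + 3 : ℤ) : Zm m) := by push_cast; ring
  have hy : wz (s * t).y ≤ x1 * y2 + x2 * y1 + (a + 3).natAbs * (x2 * y3 + x3 * y2) +
      (a ^ 2 + 3 * a + 1).natAbs * (x3 * y3) := by
    rw [mul_y, c1, c2]
    refine (wz_add _ _).trans (add_le_add ((wz_add _ _).trans (add_le_add ((wz_add _ _).trans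
      (add_le_add (wz_mul _ _) (wz_mul _ _))) ?_)) ?_)
    · exact (wz_int_mul _ _).trans (Nat.mul_le_mul_left _ hyz)
    · exact (wz_int_mul _ _).trans (Nat.mul_le_mul_left _ hzz)
  have hz : wz (s * t).z ≤ x1 * y3 + x2 * y2 + x3 * y1 + a.natAbs * (x2 * y3 + x3 * y2) +
      (a ^ 2 + a + 3).natAbs * (x3 * y3) := by
    rw [mul_z, c3]
    refine (wz_add _ _).trans (add_le_add ((wz_add _ _).trans (add_le_add ((wz_add _ _).trans
      (add_le_add ((wz_add _ _).trans (add_le_add (wz_mul _ _) (wz_mul _ _))) (wz_mul _ _))) ?_)) ?_)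
    · exact (wz_int_mul _ _).trans (Nat.mul_le_mul_left _ hyz)
    · exact (wz_int_mul _ _).trans (Nat.mul_le_mul_left _ hzz)
  have m1 : (1 + (a + 3).natAbs + a.natAbs) * (x2 * y3 + x3 * y2) ≤ D * (x2 * y3 + x3 * y2) :=
    Nat.mul_le_mul_right _ e2
  have m2 : (a.natAbs + (a ^ 2 + 3 * a + 1).natAbs + (a ^ 2 + a + 3).natAbs) * (x3 * y3) ≤
      D * (x3 * y3) := Nat.mul_le_mul_right _ e3
  have m3 : 1 * (x1 * y1 + x1 * y2 + x2 * y1 + x1 * y3 + x2 * y2 + x3 * y1) ≤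
      D * (x1 * y1 + x1 * y2 + x2 * y1 + x1 * y3 + x2 * y2 + x3 * y1) := Nat.mul_le_mul_right _ e1
  calc wz (s * t).x + wz (s * t).y + wz (s * t).z ≤
        (x1 * y1 + (x2 * y3 + x3 * y2) + a.natAbs * (x3 * y3)) +
        (x1 * y2 + x2 * y1 + (a + 3).natAbs * (x2 * y3 + x3 * y2) +
          (a ^ 2 + 3 * a + 1).natAbs * (x3 * y3)) +
        (x1 * y3 + x2 * y2 + x3 * y1 + a.natAbs * (x2 * y3 + x3 * y2) +
          (a ^ 2 + a + 3).natAbs * (x3 * y3)) := add_le_add (add_le_add hx hy) hz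
    _ = 1 * (x1 * y1 + x1 * y2 + x2 * y1 + x1 * y3 + x2 * y2 + x3 * y1) +
        (1 + (a + 3).natAbs + a.natAbs) * (x2 * y3 + x3 * y2) +
        (a.natAbs + (a ^ 2 + 3 * a + 1).natAbs + (a ^ 2 + a + 3).natAbs) * (x3 * y3) := by ring
    _ ≤ D * (x1 * y1 + x1 * y2 + x2 * y1 + x1 * y3 + x2 * y2 + x3 * y1) +
        D * (x2 * y3 + x3 * y2) + D * (x3 * y3) := add_le_add (add_le_add m3 m1) m2
    _ = D * (x1 + x2 + x3) * (y1 + y2 + y3) := by ring

lemma wc_sig {D : ℕ} (hD : Dom a D) (s : Cub (Zm m) a) : wc (sig s) ≤ D * wc s := by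
  have e1 := hD.d1
  have e2 := hD.d4
  have e3 := hD.d5
  unfold wc
  set x1 := wz s.x with hx1
  set x2 := wz s.y with hx2
  set x3 := wz s.z with hx3
  have c0 : ((2 : Zm m)) = ((2 : ℤ) : Zm m) := by push_cast; ring
  have c1 : ((2 : Zm m) - a) = ((2 - a : ℤ) : Zm m) := by push_cast; ring
  have c2 : ((a : Zm m) + 1) = ((a + 1 : ℤ) : Zm m) := by push_cast; ring
  have c3 : ((a : Zm m) ^ 2 + a + 1) = ((a ^ 2 + a + 1 : ℤ) : Zm m) := by push_cast; ring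
  have hx : wz (sig s).x ≤ x1 + 2 * x2 + (2 - a).natAbs * x3 := by
    rw [sig_x, c1, c0]
    refine (wz_add _ _).trans (add_le_add ((wz_sub _ _).trans (add_le_add le_rfl ?_)) ?_)
    · exact (wz_int_mul _ _)
    · exact (wz_int_mul _ _)
  have hy : wz (sig s).y ≤ (a + 1).natAbs * x2 + (a ^ 2 + a + 1).natAbs * x3 := by
    rw [sig_y, c2, c3]
    refine (wz_sub _ _).trans (add_le_add ?_ ?_)
    · rw [wz_neg]
      exact (wz_int_mul _ _)
    · exact (wz_int_mul _ _)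
  have hz : wz (sig s).z ≤ x2 + a.natAbs * x3 := by
    rw [sig_z]
    exact (wz_add _ _).trans (add_le_add le_rfl (wz_int_mul _ _))
  have m1 : 1 * x1 ≤ D * x1 := Nat.mul_le_mul_right _ e1
  have m2 : (3 + (a + 1).natAbs) * x2 ≤ D * x2 := Nat.mul_le_mul_right _ e2
  have m3 : ((2 - a).natAbs + (a ^ 2 + a + 1).natAbs + a.natAbs) * x3 ≤ D * x3 :=
    Nat.mul_le_mul_right _ e3
  calc wz (sig s).x + wz (sig s).y + wz (sig s).z ≤ (x1 + 2 * x2 + (2 - a).natAbs * x3) +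
        ((a + 1).natAbs * x2 + (a ^ 2 + a + 1).natAbs * x3) + (x2 + a.natAbs * x3) :=
        add_le_add (add_le_add hx hy) hz
    _ = 1 * x1 + (3 + (a + 1).natAbs) * x2 +
        ((2 - a).natAbs + (a ^ 2 + a + 1).natAbs + a.natAbs) * x3 := by ring
    _ ≤ D * x1 + D * x2 + D * x3 := add_le_add (add_le_add m1 m2) m3
    _ = _ := by ring

lemma wc_sig2 {D : ℕ} (hD : Dom a D) (s : Cub (Zm m) a) : wc (sig (sig s)) ≤ D ^ 2 * wc s := by
  calc wc (sig (sig s)) ≤ D * wc (sig s) := wc_sig hD _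
    _ ≤ D * (D * wc s) := Nat.mul_le_mul_left _ (wc_sig hD _)
    _ = _ := by ring

lemma wz_yy : wz (yy m) = 1 + m := by
  unfold wz yy
  simp

/-- weight of an element of the order -/
def wO (s : Ord m a) : ℕ := wc s.u + wc s.v + wc s.w

lemma wO_star {D : ℕ} (hD : Dom a D) (s : Ord m a) : wO (star s) ≤ D ^ 2 * wO s := by
  unfold wO
  rw [Cyc.star_u, Cyc.star_v, Cyc.star_w, wc_star]
  have h1 := wc_sig hD (star s.w)
  have h2 := wc_sig2 hD (star s.v)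
  rw [wc_star] at h1 h2
  have e1 : 1 ≤ D ^ 2 := Nat.one_le_pow _ _ hD.d1
  have e2 : D ≤ D ^ 2 := by
    rw [pow_two]
    exact Nat.le_mul_self D
  have h3 : 1 * wc s.u ≤ D ^ 2 * wc s.u := Nat.mul_le_mul_right _ e1
  have h4 : D * wc s.w ≤ D ^ 2 * wc s.w := Nat.mul_le_mul_right _ e2
  calc _ ≤ D ^ 2 * wc s.u + D ^ 2 * wc s.w + D ^ 2 * wc s.v := by omega
    _ = _ := by ring

lemma wO_mul {D : ℕ} (hD : Dom a D) (s t : Ord m a) :
    wO (s * t) ≤ D ^ 3 * (1 + m) ^ 2 * wO s * wO t := by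
  unfold wO
  set U := wc s.u with hU
  set V := wc s.v with hV
  set W := wc s.w with hW
  set U' := wc t.u with hU'
  set V' := wc t.v with hV'
  set W' := wc t.w with hW'
  set n := 1 + m with hn
  have hn1 : 1 ≤ n := by omega
  have hD1 := hD.d1
  have hd3 : D ≤ D ^ 3 * n ^ 2 := by
    calc D = D * 1 := by ring
      _ ≤ D * (D ^ 2 * n ^ 2) := Nat.mul_le_mul_left _ (Nat.one_le_iff_ne_zero.2 (by positivity))
      _ = _ := by ring
  have t1 : ∀ x y : Cub (Zm m) a, wc (x * y) ≤ D ^ 3 * n ^ 2 * (wc x * wc y) := by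
    intro x y
    calc wc (x * y) ≤ D * (wc x * wc y) := by rw [← mul_assoc]; exact wc_mul hD x y
      _ ≤ _ := Nat.mul_le_mul_right _ hd3
  have hd2 : D ^ 2 ≤ D ^ 3 := Nat.pow_le_pow_right hD1 (by norm_num)
  have t2 : ∀ x y : Cub (Zm m) a, wc (x * sig y) ≤ D ^ 3 * (wc x * wc y) := by
    intro x y
    calc wc (x * sig y) ≤ D * wc x * wc (sig y) := wc_mul hD x _
      _ ≤ D * wc x * (D * wc y) := Nat.mul_le_mul_left _ (wc_sig hD y)
      _ = D ^ 2 * (wc x * wc y) := by ring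
      _ ≤ _ := Nat.mul_le_mul_right _ hd2
  have t3 : ∀ x y : Cub (Zm m) a, wc (x * sig (sig y)) ≤ D ^ 3 * (wc x * wc y) := by
    intro x y
    calc wc (x * sig (sig y)) ≤ D * wc x * wc (sig (sig y)) := wc_mul hD x _
      _ ≤ D * wc x * (D ^ 2 * wc y) := Nat.mul_le_mul_left _ (wc_sig2 hD y)
      _ = _ := by ring
  have hn2 : 1 ≤ n ^ 2 := Nat.one_le_pow _ _ hn1
  have hn3 : n ≤ n ^ 2 := by
    rw [pow_two]
    exact Nat.le_mul_self n
  have t2' : ∀ x y : Cub (Zm m) a, wc (x * sig y) ≤ D ^ 3 * n ^ 2 * (wc x * wc y) := by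
    intro x y
    refine (t2 x y).trans (Nat.mul_le_mul_right _ ?_)
    calc D ^ 3 = D ^ 3 * 1 := by ring
      _ ≤ _ := Nat.mul_le_mul_left _ hn2
  have t3' : ∀ x y : Cub (Zm m) a, wc (x * sig (sig y)) ≤ D ^ 3 * n ^ 2 * (wc x * wc y) := by
    intro x y
    refine (t3 x y).trans (Nat.mul_le_mul_right _ ?_)
    calc D ^ 3 = D ^ 3 * 1 := by ring
      _ ≤ _ := Nat.mul_le_mul_left _ hn2
  have hyy : wz (yy m * star (yy m)) ≤ n ^ 2 := by
    refine (wz_mul _ _).trans ?_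
    rw [wz_star, wz_yy, pow_two]
  have hu : wc (s * t).u ≤ D ^ 3 * n ^ 2 * (U * U' + V * W' + W * V') := by
    rw [Cyc.mul_u]
    calc _ ≤ wc (s.u * t.u) + wc (C (yy m * star (yy m)) * (s.v * sig t.w + s.w * sig (sig t.v))) :=
          wc_add _ _
      _ ≤ D ^ 3 * n ^ 2 * (U * U') + n ^ 2 * (D ^ 3 * (V * W') + D ^ 3 * (W * V')) := by
          refine add_le_add (t1 _ _) ((wc_C_mul _ _).trans (Nat.mul_le_mul hyy ?_))
          exact (wc_add _ _).trans (add_le_add (t2 _ _) (t3 _ _))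
      _ = _ := by ring
  have hv : wc (s * t).v ≤ D ^ 3 * n ^ 2 * (U * V' + V * U' + W * W') := by
    rw [Cyc.mul_v]
    calc _ ≤ (wc (s.u * t.v) + wc (s.v * sig t.u)) + wc (C (yy m) * (s.w * sig (sig t.w))) :=
          (wc_add _ _).trans (add_le_add (wc_add _ _) le_rfl)
      _ ≤ (D ^ 3 * n ^ 2 * (U * V') + D ^ 3 * n ^ 2 * (V * U')) + n ^ 2 * (D ^ 3 * (W * W')) := by
          refine add_le_add (add_le_add (t1 _ _) (t2' _ _)) ((wc_C_mul _ _).trans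
            (Nat.mul_le_mul ?_ (t3 _ _)))
          rw [wz_yy]
          exact hn3
      _ = _ := by ring
  have hw : wc (s * t).w ≤ D ^ 3 * n ^ 2 * (U * W' + W * U' + V * V') := by
    rw [Cyc.mul_w]
    calc _ ≤ (wc (s.u * t.w) + wc (s.w * sig (sig t.u))) + wc (C (star (yy m)) * (s.v * sig t.v)) :=
          (wc_add _ _).trans (add_le_add (wc_add _ _) le_rfl)
      _ ≤ (D ^ 3 * n ^ 2 * (U * W') + D ^ 3 * n ^ 2 * (W * U')) + n ^ 2 * (D ^ 3 * (V * V')) := by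
          refine add_le_add (add_le_add (t1 _ _) (t3' _ _)) ((wc_C_mul _ _).trans
            (Nat.mul_le_mul ?_ (t2 _ _)))
          rw [wz_star, wz_yy]
          exact hn3
      _ = _ := by ring
  calc _ ≤ D ^ 3 * n ^ 2 * (U * U' + V * W' + W * V') + D ^ 3 * n ^ 2 * (U * V' + V * U' + W * W') +
        D ^ 3 * n ^ 2 * (U * W' + W * U' + V * V') := add_le_add (add_le_add hu hv) hw
    _ = _ := by ring

lemma wc_nm {D : ℕ} (hD : Dom a D) (s : Cub (Zm m) a) : wz (nm s) ≤ D ^ 5 * wc s ^ 3 := by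
  unfold nm
  have h0 : wz (s * sig s * sig (sig s)).x ≤ wc (s * sig s * sig (sig s)) := by
    unfold wc; omega
  refine h0.trans ?_
  calc _ ≤ D * wc (s * sig s) * wc (sig (sig s)) := wc_mul hD _ _
    _ ≤ D * (D * wc s * (D * wc s)) * (D ^ 2 * wc s) :=
        Nat.mul_le_mul (Nat.mul_le_mul_left _ ((wc_mul hD _ _).trans
          (Nat.mul_le_mul_left _ (wc_sig hD _)))) (wc_sig2 hD _)
    _ = _ := by ring

lemma wc_tr {D : ℕ} (hD : Dom a D) (s : Cub (Zm m) a) : wz (tr s) ≤ 3 * D ^ 2 * wc s := by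
  unfold tr
  have h0 : wz (s + sig s + sig (sig s)).x ≤ wc (s + sig s + sig (sig s)) := by
    unfold wc; omega
  refine h0.trans ?_
  have e1 : 1 ≤ D ^ 2 := Nat.one_le_pow _ _ hD.d1
  have e2 : D ≤ D ^ 2 := by
    rw [pow_two]
    exact Nat.le_mul_self D
  have h1 : 1 * wc s ≤ D ^ 2 * wc s := Nat.mul_le_mul_right _ e1
  have h2 : D * wc s ≤ D ^ 2 * wc s := Nat.mul_le_mul_right _ e2
  have h3 := wc_add (s + sig s) (sig (sig s))
  have h4 := wc_add s (sig s)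
  have h5 := wc_sig hD s
  have h6 := wc_sig2 hD s
  calc _ ≤ D ^ 2 * wc s + D ^ 2 * wc s + D ^ 2 * wc s := by omega
    _ = _ := by ring

lemma wO_nrd {D : ℕ} (hD : Dom a D) (s : Ord m a) :
    wz (Cyc.nrd s) ≤ 3 * (1 + m) ^ 3 * D ^ 7 * wO s ^ 3 := by
  unfold wO Cyc.nrd
  set U := wc s.u with hU
  set V := wc s.v with hV
  set W := wc s.w with hW
  set n := 1 + m with hn
  have hn1 : 1 ≤ n := by omega
  have hD1 := hD.d1
  have hy : wz (yy m) = n := wz_yy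
  have hsy : wz (star (yy m)) = n := by rw [wz_star]; exact wz_yy
  have k1 : wz (nm s.u) ≤ 3 * n ^ 3 * D ^ 7 * U ^ 3 := by
    refine (wc_nm hD s.u).trans (Nat.mul_le_mul_right _ ?_)
    calc D ^ 5 = D ^ 5 * 1 := by ring
      _ ≤ D ^ 5 * (3 * n ^ 3 * D ^ 2) :=
          Nat.mul_le_mul_left _ (Nat.one_le_iff_ne_zero.2 (by positivity))
      _ = _ := by ring
  have k2 : wz (yy m * star (yy m) ^ 2 * nm s.v) ≤ 3 * n ^ 3 * D ^ 7 * V ^ 3 := by
    calc _ ≤ wz (yy m * star (yy m) ^ 2) * wz (nm s.v) := wz_mul _ _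
      _ ≤ (n * (n * n)) * (D ^ 5 * V ^ 3) := by
          refine Nat.mul_le_mul ((wz_mul _ _).trans ?_) (wc_nm hD s.v)
          rw [pow_two]
          refine Nat.mul_le_mul hy.le ((wz_mul _ _).trans (Nat.mul_le_mul hsy.le hsy.le))
      _ = n ^ 3 * D ^ 5 * V ^ 3 * 1 := by ring
      _ ≤ n ^ 3 * D ^ 5 * V ^ 3 * (3 * D ^ 2) :=
          Nat.mul_le_mul_left _ (Nat.one_le_iff_ne_zero.2 (by positivity))
      _ = _ := by ring
  have k3 : wz (yy m ^ 2 * star (yy m) * nm s.w) ≤ 3 * n ^ 3 * D ^ 7 * W ^ 3 := by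
    calc _ ≤ wz (yy m ^ 2 * star (yy m)) * wz (nm s.w) := wz_mul _ _
      _ ≤ (n * n * n) * (D ^ 5 * W ^ 3) := by
          refine Nat.mul_le_mul ((wz_mul _ _).trans ?_) (wc_nm hD s.w)
          rw [pow_two]
          exact Nat.mul_le_mul ((wz_mul _ _).trans (Nat.mul_le_mul hy.le hy.le)) hsy.le
      _ = n ^ 3 * D ^ 5 * W ^ 3 * 1 := by ring
      _ ≤ n ^ 3 * D ^ 5 * W ^ 3 * (3 * D ^ 2) :=
          Nat.mul_le_mul_left _ (Nat.one_le_iff_ne_zero.2 (by positivity))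
      _ = _ := by ring
  have k4 : wz (yy m * star (yy m) * tr (s.u * sig s.v * sig (sig s.w))) ≤
      3 * n ^ 3 * D ^ 7 * (U * V * W) := by
    calc _ ≤ wz (yy m * star (yy m)) * wz (tr (s.u * sig s.v * sig (sig s.w))) := wz_mul _ _
      _ ≤ (n * n) * (3 * D ^ 2 * (D * (D * U * (D * V)) * (D ^ 2 * W))) := by
          refine Nat.mul_le_mul ((wz_mul _ _).trans (Nat.mul_le_mul hy.le hsy.le))
            ((wc_tr hD _).trans (Nat.mul_le_mul_left _ ((wc_mul hD _ _).trans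
              (Nat.mul_le_mul (Nat.mul_le_mul_left _ ((wc_mul hD _ _).trans
                (Nat.mul_le_mul_left _ (wc_sig hD _)))) (wc_sig2 hD _)))))
      _ = 3 * n ^ 2 * D ^ 7 * (U * V * W) * 1 := by ring
      _ ≤ 3 * n ^ 2 * D ^ 7 * (U * V * W) * n := Nat.mul_le_mul_left _ hn1
      _ = _ := by ring
  calc _ ≤ ((wz (nm s.u) + wz (yy m * star (yy m) ^ 2 * nm s.v)) +
        wz (yy m ^ 2 * star (yy m) * nm s.w)) +
        wz (yy m * star (yy m) * tr (s.u * sig s.v * sig (sig s.w))) :=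
        (wz_sub _ _).trans (add_le_add ((wz_add _ _).trans (add_le_add (wz_add _ _) le_rfl)) le_rfl)
    _ ≤ ((3 * n ^ 3 * D ^ 7 * U ^ 3 + 3 * n ^ 3 * D ^ 7 * V ^ 3) + 3 * n ^ 3 * D ^ 7 * W ^ 3) +
        3 * n ^ 3 * D ^ 7 * (U * V * W) := add_le_add (add_le_add (add_le_add k1 k2) k3) k4
    _ = 3 * n ^ 3 * D ^ 7 * (U ^ 3 + V ^ 3 + W ^ 3 + U * V * W) := by ring
    _ ≤ 3 * n ^ 3 * D ^ 7 * (U + V + W) ^ 3 := by
        apply Nat.mul_le_mul_left
        have : (U + V + W) ^ 3 = (U ^ 3 + V ^ 3 + W ^ 3 + U * V * W) +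
          (3 * U ^ 2 * V + 3 * U * V ^ 2 + 3 * U ^ 2 * W + 3 * U * W ^ 2 + 3 * V ^ 2 * W +
            3 * V * W ^ 2 + 5 * (U * V * W)) := by ring
        omega

lemma norm_le (z : Zm m) : (Zsqrtd.norm z).natAbs ≤ wz z ^ 2 := by
  have e : Zsqrtd.norm z = ((z.re.natAbs ^ 2 + m * z.im.natAbs ^ 2 : ℕ) : ℤ) := by
    unfold Zsqrtd.norm
    push_cast
    rw [sq_abs, sq_abs]
    ring
  rw [e, Int.natAbs_natCast]
  unfold wz
  have h3 : m ≤ m * m := Nat.le_mul_self m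
  have h4 : m * z.im.natAbs ^ 2 ≤ m * m * z.im.natAbs ^ 2 := Nat.mul_le_mul_right _ h3
  calc _ ≤ z.re.natAbs ^ 2 + m * m * z.im.natAbs ^ 2 := by omega
    _ ≤ z.re.natAbs ^ 2 + m * m * z.im.natAbs ^ 2 + 2 * (z.re.natAbs * (m * z.im.natAbs)) :=
        Nat.le_add_right _ _
    _ = _ := by ring

lemma wO_le_of_cle {s : Ord m a} {Q : ℕ} (h : cle s Q) : wO s ≤ 9 * (1 + m) * Q := by
  have hn : ∀ (i j k), (co s i j k).natAbs ≤ Q := by
    intro i j k
    have := h i j k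
    rw [Int.abs_eq_natAbs] at this
    exact_mod_cast this
  have key : ∀ z : Zm m, z.re.natAbs ≤ Q → z.im.natAbs ≤ Q → wz z ≤ (1 + m) * Q := by
    intro z h1 h2
    unfold wz
    have := Nat.mul_le_mul_left m h2
    rw [add_mul, one_mul]
    omega
  have a1 := key s.u.x (hn 0 0 0) (hn 0 0 1)
  have a2 := key s.u.y (hn 0 1 0) (hn 0 1 1)
  have a3 := key s.u.z (hn 0 2 0) (hn 0 2 1)
  have b1 := key s.v.x (hn 1 0 0) (hn 1 0 1)
  have b2 := key s.v.y (hn 1 1 0) (hn 1 1 1)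
  have b3 := key s.v.z (hn 1 2 0) (hn 1 2 1)
  have c1 := key s.w.x (hn 2 0 0) (hn 2 0 1)
  have c2 := key s.w.y (hn 2 1 0) (hn 2 1 1)
  have c3 := key s.w.z (hn 2 2 0) (hn 2 2 1)
  unfold wO wc
  calc _ ≤ 9 * ((1 + m) * Q) := by omega
    _ = _ := by ring

lemma cle_of_wO (hm : 1 ≤ m) {s : Ord m a} {Q : ℕ} (h : wO s ≤ Q) : cle s Q := by
  have key : ∀ z : Zm m, wz z ≤ Q → |z.re| ≤ (Q : ℤ) ∧ |z.im| ≤ (Q : ℤ) := by
    intro z hz
    unfold wz at hz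
    have h1 : z.im.natAbs ≤ m * z.im.natAbs := Nat.le_mul_of_pos_left _ hm
    rw [Int.abs_eq_natAbs, Int.abs_eq_natAbs]
    constructor
    · have : z.re.natAbs ≤ Q := by omega
      exact_mod_cast this
    · have : z.im.natAbs ≤ Q := by omega
      exact_mod_cast this
  unfold wO wc at h
  have a1 := key s.u.x (by omega)
  have a2 := key s.u.y (by omega)
  have a3 := key s.u.z (by omega)
  have b1 := key s.v.x (by omega)
  have b2 := key s.v.y (by omega)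
  have b3 := key s.v.z (by omega)
  have c1 := key s.w.x (by omega)
  have c2 := key s.w.y (by omega)
  have c3 := key s.w.z (by omega)
  intro i j k
  fin_cases i <;> fin_cases j <;> fin_cases k
  exacts [a1.1, a1.2, a2.1, a2.2, a3.1, a3.2, b1.1, b1.2, b2.1, b2.2, b3.1, b3.2,
    c1.1, c1.2, c2.1, c2.2, c3.1, c3.2]

end

lemma dom_par {p m : ℕ} {a : ℤ} (h : Par p m a) : Dom a (10 * p ^ 2) := by
  have h5 : (5 : ℤ) ≤ p := by exact_mod_cast h.five
  have ha := h.ha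
  have ha0 : 1 ≤ a := by omega
  have hap : a ≤ p := by omega
  have hp2 : (p : ℤ) * 5 ≤ (p : ℤ) ^ 2 := by nlinarith
  have haa : a ^ 2 ≤ (p : ℤ) ^ 2 := by nlinarith
  have haa0 : 0 ≤ a ^ 2 := sq_nonneg a
  constructor
  · have : (1 : ℤ) ≤ 10 * (p : ℤ) ^ 2 := by nlinarith
    exact_mod_cast this
  · zify
    rw [abs_of_nonneg (by omega), abs_of_nonneg (by omega)]
    nlinarith
  · zify
    rw [abs_of_nonneg (by omega), abs_of_nonneg (by nlinarith), abs_of_nonneg (by nlinarith)]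
    nlinarith
  · zify
    rw [abs_of_nonneg (by omega)]
    nlinarith
  · zify
    rw [abs_of_nonneg (by omega : 0 ≤ a), abs_of_nonneg (by nlinarith : 0 ≤ a ^ 2 + a + 1)]
    have : |2 - a| ≤ 2 + p := by
      rw [abs_le]
      constructor <;> omega
    nlinarith

lemma lift_pow {p K c e : ℕ} (hp : 1 ≤ p) (hc : c ≤ K) (he : e ≤ K) : c * p ^ e ≤ K * p ^ K :=
  Nat.mul_le_mul hc (Nat.pow_le_pow_right hp he)

end TaskBND

open TaskBND in
/-- BND: polynomial bounds -/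
theorem bnd : St_BND := by
  obtain ⟨K, hK1, hK2, hK3⟩ : ∃ K : ℕ, 81 * 10 ^ 5 * 16 ^ 4 ≤ K ∧ 9 ^ 7 * 16 ^ 12 * 10 ^ 14 ≤ K ∧
      40 ≤ K := ⟨81 * 10 ^ 5 * 16 ^ 4 + 9 ^ 7 * 16 ^ 12 * 10 ^ 14 + 40, by omega, by omega, by omega⟩
  refine ⟨K, ?_⟩
  intro p m a h
  have hp5 := h.five
  have hp1 : 1 ≤ p := by omega
  have hD := dom_par h
  have hm7 := h.mod
  have hm1 : 1 ≤ m := by omega
  have hn : 1 + m ≤ 16 * p := by have := h.lt; omega
  set D := 10 * p ^ 2 with hDd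
  set n := 1 + m with hnn
  constructor
  · intro s Q hs
    apply cle_of_wO hm1
    have h1 := wO_le_of_cle hs
    calc wO (s * star s) ≤ D ^ 3 * n ^ 2 * wO s * wO (star s) := wO_mul hD _ _
      _ ≤ D ^ 3 * n ^ 2 * (9 * n * Q) * (D ^ 2 * (9 * n * Q)) := by
          refine Nat.mul_le_mul (Nat.mul_le_mul_left _ h1) ((wO_star hD s).trans
            (Nat.mul_le_mul_left _ h1))
      _ = 81 * D ^ 5 * n ^ 4 * Q ^ 2 := by ring
      _ ≤ 81 * D ^ 5 * (16 * p) ^ 4 * Q ^ 2 := by gcongr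
      _ = (81 * 10 ^ 5 * 16 ^ 4) * p ^ 14 * Q ^ 2 := by rw [hDd]; ring
      _ ≤ K * p ^ K * Q ^ 2 := Nat.mul_le_mul_right _ (lift_pow hp1 hK1 (by omega))
  · intro s Q hs
    have h1 := wO_le_of_cle hs
    calc (Zsqrtd.norm (Cyc.nrd s)).natAbs ≤ wz (Cyc.nrd s) ^ 2 := norm_le _
      _ ≤ (3 * n ^ 3 * D ^ 7 * wO s ^ 3) ^ 2 := Nat.pow_le_pow_left (wO_nrd hD s) 2
      _ ≤ (3 * n ^ 3 * D ^ 7 * (9 * n * Q) ^ 3) ^ 2 :=
          Nat.pow_le_pow_left (Nat.mul_le_mul_left _ (Nat.pow_le_pow_left h1 3)) 2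
      _ = 9 ^ 7 * n ^ 12 * D ^ 14 * Q ^ 6 := by ring
      _ ≤ 9 ^ 7 * (16 * p) ^ 12 * D ^ 14 * Q ^ 6 := by gcongr
      _ = (9 ^ 7 * 16 ^ 12 * 10 ^ 14) * p ^ 40 * Q ^ 6 := by rw [hDd]; ring
      _ ≤ K * p ^ K * Q ^ 6 := Nat.mul_le_mul_right _ (lift_pow hp1 hK2 hK3)

end Pool.Agent.H791R3.GI
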