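import Pool.Agent.H791R3.GI.Stubs

/-!
# The number of elements of given norm modulo `2 ^ i` (task CNT)
-/

set_option autoImplicit false

namespace Pool.Agent.H791R3.GI

namespace CNT

open Cub

section
variable {R : Type*} [CommRing R] {a : ℤ}

theorem C_inj {r s : R} (h : (C r : Cub R a) = C s) : r = s := congrArg Cub.x h

theorem nm_mul (s t : Cub R a) : nm (s * t) = nm s * nm t := by
  apply C_inj (a := a)
  rw [C_nm, map_mul C, C_nm, C_nm, map_mul, map_mul]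
  ring

theorem nm_one : nm (1 : Cub R a) = 1 := by
  apply C_inj (a := a)
  rw [C_nm, map_one, map_one, map_one]
  ring

theorem nm_C (t : R) : nm (C t : Cub R a) = t ^ 3 := by
  apply C_inj (a := a)
  rw [C_nm, sig_C, sig_C, map_pow]
  ring

theorem tr_C_mul (r : R) (s : Cub R a) : tr (C r * s) = r * tr s := by
  apply C_inj (a := a)
  rw [C_tr, map_mul C, C_tr, map_mul sig, map_mul sig, sig_C, sig_C]
  ring

/-- The norm as a homomorphism. -/
def nmH (R : Type*) [CommRing R] (a : ℤ) : Cub R a →* R where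
  toFun := nm
  map_one' := nm_one
  map_mul' := nm_mul

theorem isUnit_of_nm {u : Cub R a} (h : IsUnit (nm u)) : IsUnit u := by
  have h1 : IsUnit (C (nm u) : Cub R a) := h.map C
  rw [C_nm, mul_assoc] at h1
  exact isUnit_of_mul_isUnit_left h1

/-- The norm form. -/
def FF (α β κ : R) (x : Cub R a × Cub R a × Cub R a) : R :=
  nm x.1 + α * nm x.2.1 + β * nm x.2.2 - κ * tr (x.1 * sig x.2.1 * sig (sig x.2.2))

theorem FF_mul (α β κ : R) (u z w : Cub R a) :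
    FF α β κ (u, u * z, u * w) = nm u * FF α β κ (1, z, w) := by
  unfold FF
  simp only
  rw [nm_mul, nm_mul, nm_one]
  have h : u * sig (u * z) * sig (sig (u * w)) = C (nm u) * (1 * sig z * sig (sig w)) := by
    rw [C_nm, map_mul, map_mul, map_mul]
    ring
  rw [h, tr_C_mul]
  ring

/-- Coordinates. -/
def eqv (R : Type*) (a : ℤ) : Cub R a ≃ R × R × R where
  toFun s := (s.x, s.y, s.z)
  invFun t := ⟨t.1, t.2.1, t.2.2⟩
  left_inv _ := rfl
  right_inv _ := rfl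

end

end CNT

open CNT Cub in
theorem CNT_proof : St_CNT := by
  intro i a α β κ ε hi hα hβ hκ hε
  have : NeZero (2 ^ i) := ⟨by positivity⟩
  have hcardR : Nat.card (ZMod (2 ^ i)) = 2 ^ i := by rw [Nat.card_zmod]
  have hfin : Finite (Cub (ZMod (2 ^ i)) a) := Finite.of_equiv _ (CNT.eqv (ZMod (2 ^ i)) a).symm
  have hcardW : Nat.card (Cub (ZMod (2 ^ i)) a) = (2 ^ i) ^ 3 := by
    rw [Nat.card_congr (CNT.eqv (ZMod (2 ^ i)) a), Nat.card_prod, Nat.card_prod, hcardR]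
    ring
  have hnil : IsNilpotent (2 : (ZMod (2 ^ i))) := by
    refine ⟨i, ?_⟩
    have : ((2 ^ i : ℕ) : (ZMod (2 ^ i))) = 0 := ZMod.natCast_self _
    push_cast at this
    exact this
  have heven : ∀ r : (ZMod (2 ^ i)), 2 ∣ r → IsNilpotent r := by
    rintro r ⟨s, rfl⟩
    exact (Commute.all _ _).isNilpotent_mul_right hnil
  have hunit : ∀ r s : (ZMod (2 ^ i)), IsUnit r → 2 ∣ r - s → IsUnit s := by
    intro r s hr h
    have h1 := (heven _ (dvd_neg.2 h)).isUnit_add_left_of_commute hr (Commute.all _ _)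
    rwa [neg_sub, add_sub_cancel] at h1
  -- the unit group norm
  set N : (Cub (ZMod (2 ^ i)) a)ˣ →* (ZMod (2 ^ i))ˣ := Units.map (nmH (ZMod (2 ^ i)) a) with hN
  have hcardU : Nat.card (ZMod (2 ^ i))ˣ = 2 ^ (i - 1) := by
    rw [Nat.card_eq_fintype_card, ZMod.card_units_eq_totient,
      Nat.totient_prime_pow Nat.prime_two (by omega)]
    norm_num
  have hsurj : Function.Surjective N := by
    intro r
    have hco : (Nat.card (ZMod (2 ^ i))ˣ).Coprime 3 := by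
      rw [hcardU]
      exact Nat.Coprime.pow_left _ (by norm_num)
    obtain ⟨s, hs⟩ := (powCoprime hco).surjective r
    refine ⟨Units.map (C : (ZMod (2 ^ i)) →+* Cub (ZMod (2 ^ i)) a).toMonoidHom s, ?_⟩
    ext
    change nm (C (s : (ZMod (2 ^ i))) : Cub (ZMod (2 ^ i)) a) = r
    rw [nm_C]
    have h1 := congrArg Units.val hs
    simpa [powCoprime] using h1
  have hcardK : Nat.card N.ker * 2 ^ (i - 1) ≤ (2 ^ i) ^ 3 := by
    rw [← hcardU, ← hcardW]
    have h1 : Nat.card (Cub (ZMod (2 ^ i)) a)ˣ = Nat.card N.ker * Nat.card (ZMod (2 ^ i))ˣ := by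
      rw [Subgroup.card_eq_card_quotient_mul_card_subgroup N.ker, mul_comm,
        Nat.card_congr (QuotientGroup.quotientKerEquivOfSurjective N hsurj).toEquiv]
    rw [← h1]
    exact Nat.card_le_card_of_injective _ Units.val_injective
  have hcardK2 : Nat.card N.ker ≤ 2 * (2 ^ i) ^ 2 := by
    have h1 : (2 ^ i) ^ 3 = 2 * (2 ^ i) ^ 2 * 2 ^ (i - 1) := by
      obtain ⟨j, rfl⟩ : ∃ j, i = j + 1 := ⟨i - 1, by omega⟩
      simp only [Nat.add_sub_cancel]
      ring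
    rw [h1] at hcardK
    exact Nat.le_of_mul_le_mul_right hcardK (by positivity)
  -- a section
  choose s hs using hsurj
  have hu : ∀ x : {x : Cub (ZMod (2 ^ i)) a × Cub (ZMod (2 ^ i)) a × Cub (ZMod (2 ^ i)) a // FF α β κ x = ε}, IsUnit x.1.1 := by
    rintro ⟨x, hx⟩
    apply isUnit_of_nm
    refine hunit ε _ hε ?_
    change 2 ∣ ε - nm x.1
    rw [← hx]
    have h1 : FF α β κ x - nm x.1 =
        α * nm x.2.1 + β * nm x.2.2 - κ * tr (x.1 * sig x.2.1 * sig (sig x.2.2)) := by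
      unfold FF
      ring
    rw [h1]
    exact dvd_sub (dvd_add (hα.mul_right _) (hβ.mul_right _)) (hκ.mul_right _)
  let f : {x : Cub (ZMod (2 ^ i)) a × Cub (ZMod (2 ^ i)) a × Cub (ZMod (2 ^ i)) a // FF α β κ x = ε} →
      (Cub (ZMod (2 ^ i)) a × Cub (ZMod (2 ^ i)) a) × N.ker := fun x =>
    ((((hu x).unit⁻¹ : (Cub (ZMod (2 ^ i)) a)ˣ) * x.1.2.1, ((hu x).unit⁻¹ : (Cub (ZMod (2 ^ i)) a)ˣ) * x.1.2.2),
      ⟨(hu x).unit * (s (N (hu x).unit))⁻¹, by
        rw [MonoidHom.mem_ker, map_mul, map_inv, hs, mul_inv_cancel]⟩)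
  have hf : Function.Injective f := by
    intro x y hxy
    have h1 := congrArg Prod.fst hxy
    have h2 := congrArg (fun t => (t.2 : (Cub (ZMod (2 ^ i)) a)ˣ)) hxy
    simp only [f, Prod.mk.injEq] at h1 h2
    obtain ⟨h3, h4⟩ := h1
    set ux := (hu x).unit with hux
    set uy := (hu y).unit with huy
    have ex : x.1 = ((ux : Cub (ZMod (2 ^ i)) a), (ux : Cub (ZMod (2 ^ i)) a) * ((ux⁻¹ : (Cub (ZMod (2 ^ i)) a)ˣ) * x.1.2.1),
        (ux : Cub (ZMod (2 ^ i)) a) * ((ux⁻¹ : (Cub (ZMod (2 ^ i)) a)ˣ) * x.1.2.2)) := by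
      rw [← mul_assoc, ← mul_assoc, Units.mul_inv, one_mul, one_mul]
      rfl
    have ey : y.1 = ((uy : Cub (ZMod (2 ^ i)) a), (uy : Cub (ZMod (2 ^ i)) a) * ((uy⁻¹ : (Cub (ZMod (2 ^ i)) a)ˣ) * y.1.2.1),
        (uy : Cub (ZMod (2 ^ i)) a) * ((uy⁻¹ : (Cub (ZMod (2 ^ i)) a)ˣ) * y.1.2.2)) := by
      rw [← mul_assoc, ← mul_assoc, Units.mul_inv, one_mul, one_mul]
      rfl
    have hx := x.2
    have hy := y.2
    rw [ex, FF_mul] at hx
    rw [ey, FF_mul, ← h3, ← h4] at hy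
    have hc : IsUnit (FF α β κ (1, ((ux⁻¹ : (Cub (ZMod (2 ^ i)) a)ˣ) : Cub (ZMod (2 ^ i)) a) * x.1.2.1,
        ((ux⁻¹ : (Cub (ZMod (2 ^ i)) a)ˣ) : Cub (ZMod (2 ^ i)) a) * x.1.2.2)) := by
      have : IsUnit (nm (ux : Cub (ZMod (2 ^ i)) a) * FF α β κ (1, ((ux⁻¹ : (Cub (ZMod (2 ^ i)) a)ˣ) : Cub (ZMod (2 ^ i)) a) * x.1.2.1,
        ((ux⁻¹ : (Cub (ZMod (2 ^ i)) a)ˣ) : Cub (ZMod (2 ^ i)) a) * x.1.2.2)) := by
        rw [hx]
        exact hε
      exact isUnit_of_mul_isUnit_right this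
    have hnm : nm (ux : Cub (ZMod (2 ^ i)) a) = nm (uy : Cub (ZMod (2 ^ i)) a) := hc.mul_right_cancel (hx.trans hy.symm)
    have hNN : N ux = N uy := Units.ext hnm
    have huu : ux = uy := by
      rw [hNN] at h2
      exact mul_right_cancel h2
    apply Subtype.ext
    rw [ex, ey, ← h3, ← h4, huu]
  have hfinal := Nat.card_le_card_of_injective f hf
  rw [Nat.card_prod, Nat.card_prod, hcardW] at hfinal
  refine hfinal.trans ?_
  calc (2 ^ i) ^ 3 * (2 ^ i) ^ 3 * Nat.card N.ker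
      ≤ (2 ^ i) ^ 3 * (2 ^ i) ^ 3 * (2 * (2 ^ i) ^ 2) := Nat.mul_le_mul_left _ hcardK2
    _ = 2 * (2 ^ i) ^ 8 := by ring

end Pool.Agent.H791R3.GI
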