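import Mathlib

/-!
# The cubic rings `R[θ]`, `θ³ = aθ² + (a+3)θ + 1` (Shanks)

`Cub R a` is the free rank-three `R`-algebra with basis `1, θ, θ²`.
It has the automorphism `σ(θ) = θ² - (a+1)θ - 2 = -1/(1+θ)` of order three.
-/

set_option autoImplicit false

namespace Pool.Agent.H791R3.GI

/-- `x + yθ + zθ²`. -/
@[ext] structure Cub (R : Type*) (a : ℤ) where
  x : R
  y : R
  z : R

namespace Cub

variable {R : Type*} [CommRing R] {a : ℤ}

instance : Zero (Cub R a) := ⟨⟨0, 0, 0⟩⟩
instance : One (Cub R a) := ⟨⟨1, 0, 0⟩⟩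
instance : Add (Cub R a) := ⟨fun s t => ⟨s.x + t.x, s.y + t.y, s.z + t.z⟩⟩
instance : Neg (Cub R a) := ⟨fun s => ⟨-s.x, -s.y, -s.z⟩⟩
instance : Sub (Cub R a) := ⟨fun s t => ⟨s.x - t.x, s.y - t.y, s.z - t.z⟩⟩
instance : SMul ℕ (Cub R a) := ⟨fun n s => ⟨n • s.x, n • s.y, n • s.z⟩⟩
instance : SMul ℤ (Cub R a) := ⟨fun n s => ⟨n • s.x, n • s.y, n • s.z⟩⟩
instance : NatCast (Cub R a) := ⟨fun n => ⟨n, 0, 0⟩⟩
instance : IntCast (Cub R a) := ⟨fun n => ⟨n, 0, 0⟩⟩
instance : Mul (Cub R a) := ⟨fun s t =>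
  ⟨s.x * t.x + (s.y * t.z + s.z * t.y) + a * (s.z * t.z),
   s.x * t.y + s.y * t.x + (a + 3) * (s.y * t.z + s.z * t.y) + (a ^ 2 + 3 * a + 1) * (s.z * t.z),
   s.x * t.z + s.y * t.y + s.z * t.x + a * (s.y * t.z + s.z * t.y) +
    (a ^ 2 + a + 3) * (s.z * t.z)⟩⟩

@[simp] theorem zero_x : (0 : Cub R a).x = 0 := rfl
@[simp] theorem zero_y : (0 : Cub R a).y = 0 := rfl
@[simp] theorem zero_z : (0 : Cub R a).z = 0 := rfl
@[simp] theorem one_x : (1 : Cub R a).x = 1 := rfl
@[simp] theorem one_y : (1 : Cub R a).y = 0 := rfl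
@[simp] theorem one_z : (1 : Cub R a).z = 0 := rfl
@[simp] theorem add_x (s t : Cub R a) : (s + t).x = s.x + t.x := rfl
@[simp] theorem add_y (s t : Cub R a) : (s + t).y = s.y + t.y := rfl
@[simp] theorem add_z (s t : Cub R a) : (s + t).z = s.z + t.z := rfl
@[simp] theorem neg_x (s : Cub R a) : (-s).x = -s.x := rfl
@[simp] theorem neg_y (s : Cub R a) : (-s).y = -s.y := rfl
@[simp] theorem neg_z (s : Cub R a) : (-s).z = -s.z := rfl
@[simp] theorem sub_x (s t : Cub R a) : (s - t).x = s.x - t.x := rfl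
@[simp] theorem sub_y (s t : Cub R a) : (s - t).y = s.y - t.y := rfl
@[simp] theorem sub_z (s t : Cub R a) : (s - t).z = s.z - t.z := rfl
@[simp] theorem natCast_x (n : ℕ) : (n : Cub R a).x = n := rfl
@[simp] theorem natCast_y (n : ℕ) : (n : Cub R a).y = 0 := rfl
@[simp] theorem natCast_z (n : ℕ) : (n : Cub R a).z = 0 := rfl
@[simp] theorem intCast_x (n : ℤ) : (n : Cub R a).x = n := rfl
@[simp] theorem intCast_y (n : ℤ) : (n : Cub R a).y = 0 := rfl
@[simp] theorem intCast_z (n : ℤ) : (n : Cub R a).z = 0 := rfl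
@[simp] theorem nsmul_x (n : ℕ) (s : Cub R a) : (n • s).x = n • s.x := rfl
@[simp] theorem nsmul_y (n : ℕ) (s : Cub R a) : (n • s).y = n • s.y := rfl
@[simp] theorem nsmul_z (n : ℕ) (s : Cub R a) : (n • s).z = n • s.z := rfl
@[simp] theorem zsmul_x (n : ℤ) (s : Cub R a) : (n • s).x = n • s.x := rfl
@[simp] theorem zsmul_y (n : ℤ) (s : Cub R a) : (n • s).y = n • s.y := rfl
@[simp] theorem zsmul_z (n : ℤ) (s : Cub R a) : (n • s).z = n • s.z := rfl
@[simp] theorem mul_x (s t : Cub R a) :
    (s * t).x = s.x * t.x + (s.y * t.z + s.z * t.y) + a * (s.z * t.z) := rfl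
@[simp] theorem mul_y (s t : Cub R a) :
    (s * t).y = s.x * t.y + s.y * t.x + (a + 3) * (s.y * t.z + s.z * t.y) +
      (a ^ 2 + 3 * a + 1) * (s.z * t.z) := rfl
@[simp] theorem mul_z (s t : Cub R a) :
    (s * t).z = s.x * t.z + s.y * t.y + s.z * t.x + a * (s.y * t.z + s.z * t.y) +
      (a ^ 2 + a + 3) * (s.z * t.z) := rfl

instance : CommRing (Cub R a) where
  add_assoc s t u := by ext <;> simp [add_assoc]
  zero_add s := by ext <;> simp
  add_zero s := by ext <;> simp
  add_comm s t := by ext <;> simp [add_comm]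
  neg_add_cancel s := by ext <;> simp
  sub_eq_add_neg s t := by ext <;> simp [sub_eq_add_neg]
  nsmul n s := n • s
  nsmul_zero s := by ext <;> simp
  nsmul_succ n s := by ext <;> simp <;> ring
  zsmul n s := n • s
  zsmul_zero' s := by ext <;> simp
  zsmul_succ' n s := by ext <;> simp <;> ring
  zsmul_neg' n s := by ext <;> simp [Int.negSucc_eq] <;> ring
  left_distrib s t u := by ext <;> simp <;> ring
  right_distrib s t u := by ext <;> simp <;> ring
  zero_mul s := by ext <;> simp
  mul_zero s := by ext <;> simp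
  mul_assoc s t u := by ext <;> simp <;> ring
  one_mul s := by ext <;> simp
  mul_one s := by ext <;> simp
  mul_comm s t := by ext <;> simp <;> ring
  natCast_zero := by ext <;> simp
  natCast_succ n := by ext <;> simp
  intCast_ofNat n := by ext <;> simp
  intCast_negSucc n := by ext <;> simp [Int.negSucc_eq] <;> ring

/-- The constants. -/
def C : R →+* Cub R a where
  toFun r := ⟨r, 0, 0⟩
  map_one' := rfl
  map_zero' := rfl
  map_add' r s := by ext <;> simp
  map_mul' r s := by ext <;> simp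

@[simp] theorem C_x (r : R) : (C r : Cub R a).x = r := rfl
@[simp] theorem C_y (r : R) : (C r : Cub R a).y = 0 := rfl
@[simp] theorem C_z (r : R) : (C r : Cub R a).z = 0 := rfl

/-- The generator. -/
def θ : Cub R a := ⟨0, 1, 0⟩

@[simp] theorem θ_x : (θ : Cub R a).x = 0 := rfl
@[simp] theorem θ_y : (θ : Cub R a).y = 1 := rfl
@[simp] theorem θ_z : (θ : Cub R a).z = 0 := rfl

/-- The automorphism `θ ↦ θ² - (a+1)θ - 2` (of order three). -/
def sig : Cub R a →+* Cub R a where
  toFun s := ⟨s.x - 2 * s.y + (2 - a) * s.z, -((a + 1) * s.y) - (a ^ 2 + a + 1) * s.z,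
    s.y + a * s.z⟩
  map_one' := by ext <;> simp
  map_zero' := by ext <;> simp
  map_add' s t := by ext <;> simp <;> ring
  map_mul' s t := by ext <;> simp <;> ring

@[simp] theorem sig_x (s : Cub R a) : (sig s).x = s.x - 2 * s.y + (2 - a) * s.z := rfl
@[simp] theorem sig_y (s : Cub R a) :
    (sig s).y = -((a + 1) * s.y) - (a ^ 2 + a + 1) * s.z := rfl
@[simp] theorem sig_z (s : Cub R a) : (sig s).z = s.y + a * s.z := rfl

@[simp] theorem sig_sig_sig (s : Cub R a) : sig (sig (sig s)) = s := by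
  ext <;> simp <;> ring

@[simp] theorem sig_C (r : R) : sig (C r : Cub R a) = C r := by
  ext <;> simp

/-- The norm to `R`. -/
def nm (s : Cub R a) : R := (s * sig s * sig (sig s)).x

theorem C_nm (s : Cub R a) : (C (nm s) : Cub R a) = s * sig s * sig (sig s) := by
  ext
  · simp only [nm, C_x]
  · simp only [C_y, mul_x, mul_y, mul_z, sig_y, sig_x, sig_z]
    ring
  · simp only [C_z, mul_x, mul_y, mul_z, sig_y, sig_x, sig_z]
    ring

/-- The trace to `R`. -/
def tr (s : Cub R a) : R := (s + sig s + sig (sig s)).x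

theorem C_tr (s : Cub R a) : (C (tr s) : Cub R a) = s + sig s + sig (sig s) := by
  ext
  · simp only [tr, C_x]
  · simp only [C_y, add_y, sig_y, sig_z]
    ring
  · simp only [C_z, add_z, sig_y, sig_z]
    ring

/-- Functoriality. -/
def map {R' : Type*} [CommRing R'] (φ : R →+* R') : Cub R a →+* Cub R' a where
  toFun s := ⟨φ s.x, φ s.y, φ s.z⟩
  map_one' := by ext <;> simp
  map_zero' := by ext <;> simp
  map_add' s t := by ext <;> simp
  map_mul' s t := by ext <;> simp [map_ofNat]

section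
variable {R' : Type*} [CommRing R'] (φ : R →+* R')
@[simp] theorem map_x (s : Cub R a) : (map φ s).x = φ s.x := rfl
@[simp] theorem map_y (s : Cub R a) : (map φ s).y = φ s.y := rfl
@[simp] theorem map_z (s : Cub R a) : (map φ s).z = φ s.z := rfl
theorem map_sig (s : Cub R a) : map φ (sig s) = sig (map φ s) := by
  ext <;> simp [map_ofNat]
@[simp] theorem map_C (r : R) : map φ (C r : Cub R a) = C (φ r) := by
  ext <;> simp
theorem nm_map (s : Cub R a) : nm (map φ s) = φ (nm s) := by
  rw [nm, ← map_sig, ← map_sig, ← _root_.map_mul, ← _root_.map_mul]; rfl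
theorem tr_map (s : Cub R a) : tr (map φ s) = φ (tr s) := by
  rw [tr, ← map_sig, ← map_sig, ← _root_.map_add, ← _root_.map_add]; rfl
end

/-- `t` is a root of `X³ - aX² - (a+3)X - 1`. -/
def IsRt (a : ℤ) {B : Type*} [CommRing B] (t : B) : Prop :=
  t ^ 3 = a * t ^ 2 + (a + 3) * t + 1

/-- the action of `σ` on roots -/
def sg (a : ℤ) {B : Type*} [CommRing B] (t : B) : B := t ^ 2 - (a + 1) * t - 2

theorem IsRt.sg {B : Type*} [CommRing B] {t : B} (h : IsRt a t) : IsRt a (sg a t) := by
  unfold IsRt Cub.sg at *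
  linear_combination (t ^ 3 - (2 * a + 3) * t ^ 2 + (a ^ 2 + 3 * a) * t + (2 * a + 3)) * h

/-- Evaluation at a root. -/
def ev {B : Type*} [CommRing B] (φ : R →+* B) (t : B) (h : IsRt a t) : Cub R a →+* B where
  toFun s := φ s.x + φ s.y * t + φ s.z * t ^ 2
  map_one' := by simp
  map_zero' := by simp
  map_add' s u := by simp; ring
  map_mul' s u := by
    unfold IsRt at h
    simp [map_ofNat]
    linear_combination (-(φ s.y * φ u.z + φ s.z * φ u.y) - φ s.z * φ u.z * (t + a)) * h

theorem ev_apply {B : Type*} [CommRing B] (φ : R →+* B) (t : B) (h : IsRt a t) (s : Cub R a) :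
    ev φ t h s = φ s.x + φ s.y * t + φ s.z * t ^ 2 := rfl

@[simp] theorem ev_C {B : Type*} [CommRing B] (φ : R →+* B) (t : B) (h : IsRt a t) (r : R) :
    ev φ t h (C r) = φ r := by simp [ev_apply]

theorem ev_sig {B : Type*} [CommRing B] (φ : R →+* B) (t : B) (h : IsRt a t) (s : Cub R a) :
    ev φ t h (sig s) = ev φ (sg a t) h.sg s := by
  have h' := h
  unfold IsRt at h'
  simp [ev_apply, sg, map_ofNat]
  linear_combination (-(φ s.z) * (t - (a + 2))) * h'

/-- Componentwise star. -/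
instance [StarRing R] : StarRing (Cub R a) where
  star s := ⟨star s.x, star s.y, star s.z⟩
  star_involutive s := by ext <;> simp
  star_mul s t := by ext <;> simp <;> ring
  star_add s t := by ext <;> simp

section
variable [StarRing R]
@[simp] theorem star_x (s : Cub R a) : (star s).x = star s.x := rfl
@[simp] theorem star_y (s : Cub R a) : (star s).y = star s.y := rfl
@[simp] theorem star_z (s : Cub R a) : (star s).z = star s.z := rfl
theorem star_sig (s : Cub R a) : star (sig s) = sig (star s) := by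
  ext <;> simp
@[simp] theorem star_C (r : R) : star (C r : Cub R a) = C (star r) := by
  ext <;> simp
end

end Cub

end Pool.Agent.H791R3.GI
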