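import Mathlib
import Pool.Agent.H791R3.GI.Cub

/-!
# Definitions for the girth project (unitary groups of cubic division algebras)
-/

set_option autoImplicit false
set_option linter.unusedSectionVars false
set_option linter.unusedSimpArgs false

namespace Pool.Agent.H791R3.GI

open Matrix

/-! ## The cyclic order `S ⊕ S P₁ ⊕ S P₂`, `S = R[θ]`, `P₁ = ȳΠ`, `P₂ = ȳΠ²`, `Π³ = y/ȳ` -/

/-- `u + v P₁ + w P₂` with `P₁² = ȳ P₂`, `P₂² = y P₁`, `P₁P₂ = P₂P₁ = yȳ`, `P₁ s = σ(s) P₁`. -/
@[ext] structure Cyc (R : Type*) (a : ℤ) (y : R) where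
  u : Cub R a
  v : Cub R a
  w : Cub R a

namespace Cyc
open Cub
variable {R : Type*} [CommRing R] [StarRing R] {a : ℤ} {y : R}

instance : Zero (Cyc R a y) := ⟨⟨0, 0, 0⟩⟩
instance : One (Cyc R a y) := ⟨⟨1, 0, 0⟩⟩
instance : Add (Cyc R a y) := ⟨fun s t => ⟨s.u + t.u, s.v + t.v, s.w + t.w⟩⟩
instance : Neg (Cyc R a y) := ⟨fun s => ⟨-s.u, -s.v, -s.w⟩⟩
instance : Sub (Cyc R a y) := ⟨fun s t => ⟨s.u - t.u, s.v - t.v, s.w - t.w⟩⟩
instance : SMul ℕ (Cyc R a y) := ⟨fun n s => ⟨n • s.u, n • s.v, n • s.w⟩⟩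
instance : SMul ℤ (Cyc R a y) := ⟨fun n s => ⟨n • s.u, n • s.v, n • s.w⟩⟩
instance : NatCast (Cyc R a y) := ⟨fun n => ⟨n, 0, 0⟩⟩
instance : IntCast (Cyc R a y) := ⟨fun n => ⟨n, 0, 0⟩⟩
instance : Mul (Cyc R a y) := ⟨fun s t =>
  ⟨s.u * t.u + C (y * star y) * (s.v * sig t.w + s.w * sig (sig t.v)),
   s.u * t.v + s.v * sig t.u + C y * (s.w * sig (sig t.w)),
   s.u * t.w + s.w * sig (sig t.u) + C (star y) * (s.v * sig t.v)⟩⟩

@[simp] theorem zero_u : (0 : Cyc R a y).u = 0 := rfl
@[simp] theorem zero_v : (0 : Cyc R a y).v = 0 := rfl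
@[simp] theorem zero_w : (0 : Cyc R a y).w = 0 := rfl
@[simp] theorem one_u : (1 : Cyc R a y).u = 1 := rfl
@[simp] theorem one_v : (1 : Cyc R a y).v = 0 := rfl
@[simp] theorem one_w : (1 : Cyc R a y).w = 0 := rfl
@[simp] theorem add_u (s t : Cyc R a y) : (s + t).u = s.u + t.u := rfl
@[simp] theorem add_v (s t : Cyc R a y) : (s + t).v = s.v + t.v := rfl
@[simp] theorem add_w (s t : Cyc R a y) : (s + t).w = s.w + t.w := rfl
@[simp] theorem neg_u (s : Cyc R a y) : (-s).u = -s.u := rfl
@[simp] theorem neg_v (s : Cyc R a y) : (-s).v = -s.v := rfl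
@[simp] theorem neg_w (s : Cyc R a y) : (-s).w = -s.w := rfl
@[simp] theorem sub_u (s t : Cyc R a y) : (s - t).u = s.u - t.u := rfl
@[simp] theorem sub_v (s t : Cyc R a y) : (s - t).v = s.v - t.v := rfl
@[simp] theorem sub_w (s t : Cyc R a y) : (s - t).w = s.w - t.w := rfl
@[simp] theorem natCast_u (n : ℕ) : (n : Cyc R a y).u = n := rfl
@[simp] theorem natCast_v (n : ℕ) : (n : Cyc R a y).v = 0 := rfl
@[simp] theorem natCast_w (n : ℕ) : (n : Cyc R a y).w = 0 := rfl
@[simp] theorem intCast_u (n : ℤ) : (n : Cyc R a y).u = n := rfl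
@[simp] theorem intCast_v (n : ℤ) : (n : Cyc R a y).v = 0 := rfl
@[simp] theorem intCast_w (n : ℤ) : (n : Cyc R a y).w = 0 := rfl
@[simp] theorem nsmul_u (n : ℕ) (s : Cyc R a y) : (n • s).u = n • s.u := rfl
@[simp] theorem nsmul_v (n : ℕ) (s : Cyc R a y) : (n • s).v = n • s.v := rfl
@[simp] theorem nsmul_w (n : ℕ) (s : Cyc R a y) : (n • s).w = n • s.w := rfl
@[simp] theorem zsmul_u (n : ℤ) (s : Cyc R a y) : (n • s).u = n • s.u := rfl
@[simp] theorem zsmul_v (n : ℤ) (s : Cyc R a y) : (n • s).v = n • s.v := rfl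
@[simp] theorem zsmul_w (n : ℤ) (s : Cyc R a y) : (n • s).w = n • s.w := rfl
@[simp] theorem mul_u (s t : Cyc R a y) : (s * t).u =
    s.u * t.u + C (y * star y) * (s.v * sig t.w + s.w * sig (sig t.v)) := rfl
@[simp] theorem mul_v (s t : Cyc R a y) : (s * t).v =
    s.u * t.v + s.v * sig t.u + C y * (s.w * sig (sig t.w)) := rfl
@[simp] theorem mul_w (s t : Cyc R a y) : (s * t).w =
    s.u * t.w + s.w * sig (sig t.u) + C (star y) * (s.v * sig t.v) := rfl

theorem mul_assoc' (s t r : Cyc R a y) : s * t * r = s * (t * r) := by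
  have h1 : (C (y * star y) : Cub R a) = C y * C (star y) := map_mul _ _ _
  ext1 <;> simp only [mul_u, mul_v, mul_w, map_add, map_mul, sig_sig_sig, sig_C] <;> ring

instance : Ring (Cyc R a y) where
  add_assoc s t u := by ext1 <;> simp only [add_u, add_v, add_w, add_assoc]
  zero_add s := by ext1 <;> simp only [add_u, add_v, add_w, zero_u, zero_v, zero_w, zero_add]
  add_zero s := by ext1 <;> simp only [add_u, add_v, add_w, zero_u, zero_v, zero_w, add_zero]
  add_comm s t := by ext1 <;> simp only [add_u, add_v, add_w, add_comm]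
  neg_add_cancel s := by
    ext1 <;> simp only [add_u, add_v, add_w, neg_u, neg_v, neg_w, zero_u, zero_v, zero_w,
      neg_add_cancel]
  sub_eq_add_neg s t := by
    ext1 <;> simp only [add_u, add_v, add_w, neg_u, neg_v, neg_w, sub_u, sub_v, sub_w,
      sub_eq_add_neg]
  nsmul n s := n • s
  nsmul_zero s := by
    ext1 <;> simp only [nsmul_u, nsmul_v, nsmul_w, zero_u, zero_v, zero_w, zero_smul]
  nsmul_succ n s := by
    ext1 <;> simp only [nsmul_u, nsmul_v, nsmul_w, add_u, add_v, add_w, add_smul, one_smul]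
  zsmul n s := n • s
  zsmul_zero' s := by
    ext1 <;> simp only [zsmul_u, zsmul_v, zsmul_w, zero_u, zero_v, zero_w, zero_smul]
  zsmul_succ' n s := by
    ext1 <;> simp only [zsmul_u, zsmul_v, zsmul_w, add_u, add_v, add_w, Nat.cast_succ,
      add_smul, one_smul]
  zsmul_neg' n s := by
    ext1 <;> simp only [zsmul_u, zsmul_v, zsmul_w, neg_u, neg_v, neg_w, Int.negSucc_eq,
      neg_smul, Nat.cast_succ]
  left_distrib s t r := by
    ext1 <;> simp only [mul_u, mul_v, mul_w, add_u, add_v, add_w, map_add] <;> ring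
  right_distrib s t r := by
    ext1 <;> simp only [mul_u, mul_v, mul_w, add_u, add_v, add_w] <;> ring
  zero_mul s := by
    ext1 <;> simp only [mul_u, mul_v, mul_w, zero_u, zero_v, zero_w, zero_mul, mul_zero, add_zero]
  mul_zero s := by
    ext1 <;> simp only [mul_u, mul_v, mul_w, zero_u, zero_v, zero_w, map_zero, zero_mul, mul_zero,
      add_zero]
  mul_assoc := mul_assoc'
  one_mul s := by
    ext1 <;> simp only [mul_u, mul_v, mul_w, one_u, one_v, one_w, zero_mul, mul_zero,
      add_zero, one_mul]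
  mul_one s := by
    ext1 <;> simp only [mul_u, mul_v, mul_w, one_u, one_v, one_w, map_zero, map_one, zero_mul,
      mul_zero, add_zero, mul_one, zero_add]
  natCast_zero := by
    ext1 <;> simp only [natCast_u, natCast_v, natCast_w, zero_u, zero_v, zero_w, Nat.cast_zero]
  natCast_succ n := by
    ext1 <;> simp only [natCast_u, natCast_v, natCast_w, add_u, add_v, add_w, one_u, one_v,
      one_w, Nat.cast_succ, add_zero]
  intCast_ofNat n := by
    ext1 <;> simp only [natCast_u, natCast_v, natCast_w, intCast_u, intCast_v, intCast_w,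
      Int.cast_natCast]
  intCast_negSucc n := by
    ext1 <;> simp only [natCast_u, natCast_v, natCast_w, intCast_u, intCast_v, intCast_w, neg_u,
      neg_v, neg_w, Int.cast_negSucc, neg_zero]

/-- the involution `x ↦ x*` -/
instance : StarRing (Cyc R a y) where
  star s := ⟨star s.u, sig (star s.w), sig (sig (star s.v))⟩
  star_involutive s := by
    ext1 <;> simp only [star_sig, star_star, sig_sig_sig]
  star_mul s t := by
    ext1 <;> simp only [mul_u, mul_v, mul_w, star_add, star_mul, star_sig, star_C, map_add, map_mul,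
      sig_C, sig_sig_sig, star_star] <;> ring
  star_add s t := by
    ext1 <;> simp only [add_u, add_v, add_w, star_add, map_add]

@[simp] theorem star_u (s : Cyc R a y) : (star s).u = star s.u := rfl
@[simp] theorem star_v (s : Cyc R a y) : (star s).v = sig (star s.w) := rfl
@[simp] theorem star_w (s : Cyc R a y) : (star s).w = sig (sig (star s.v)) := rfl

/-- the matrix of `u + vP₁ + wP₂` -/
def Phi : Cyc R a y →+* Matrix (Fin 3) (Fin 3) (Cub R a) where
  toFun s := !![s.u, s.v * C (star y), s.w * C (star y);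
    sig s.w * C y, sig s.u, sig s.v * C (star y);
    sig (sig s.v) * C y, sig (sig s.w) * C y, sig (sig s.u)]
  map_one' := by
    ext1 i j
    fin_cases i <;> fin_cases j <;> simp
  map_zero' := by
    ext1 i j
    fin_cases i <;> fin_cases j <;> simp
  map_add' s t := by
    ext1 i j
    fin_cases i <;> fin_cases j <;> simp [add_mul]
  map_mul' s t := by
    ext1 i j
    fin_cases i <;> fin_cases j <;>
      simp only [Matrix.mul_apply, Fin.sum_univ_three, mul_u, mul_v, mul_w, map_add, map_mul,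
        sig_sig_sig, sig_C, Matrix.of_apply, Matrix.cons_val', Matrix.cons_val_zero,
        Matrix.cons_val_one, Matrix.cons_val_two, Fin.zero_eta, Fin.mk_one, Fin.reduceFinMk,
        Matrix.empty_val', Matrix.cons_val_fin_one, Matrix.cons_val, Matrix.tail_cons,
        Matrix.head_cons, Matrix.head_fin_const, Fin.isValue] <;> ring

theorem Phi_apply (s : Cyc R a y) : Phi s = !![s.u, s.v * C (star y), s.w * C (star y);
    sig s.w * C y, sig s.u, sig s.v * C (star y);
    sig (sig s.v) * C y, sig (sig s.w) * C y, sig (sig s.u)] := rfl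

theorem Phi_star (s : Cyc R a y) : Phi (star s) = (Phi s)ᴴ := by
  ext1 i j
  fin_cases i <;> fin_cases j <;>
    simp [Phi_apply, Matrix.conjTranspose_apply, star_sig, mul_comm]

/-- the reduced norm -/
def nrd (s : Cyc R a y) : R :=
  nm s.u + y * star y ^ 2 * nm s.v + y ^ 2 * star y * nm s.w
    - y * star y * tr (s.u * sig s.v * sig (sig s.w))

theorem det_Phi (s : Cyc R a y) : (Phi s).det = C (nrd s) := by
  rw [Phi_apply, Matrix.det_fin_three]
  simp only [nrd, map_add, map_sub, map_mul, map_pow, C_nm, C_tr, sig_sig_sig]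
  simp only [Matrix.of_apply, Matrix.cons_val', Matrix.cons_val_zero,
        Matrix.cons_val_one, Matrix.cons_val_two, Matrix.empty_val', Matrix.cons_val_fin_one,
        Matrix.cons_val, Matrix.tail_cons, Matrix.head_cons, Matrix.head_fin_const, Fin.isValue]
  ring

end Cyc

end Pool.Agent.H791R3.GI
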