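import Mathlib
import Pool.Agent.H791R3.GI.Cub
import Pool.Agent.H791R3.GI.CycAlg

/-!
# Definitions for the girth project (unitary groups of cubic division algebras)
-/

set_option autoImplicit false

namespace Pool.Agent.H791R3.GI

open Matrix

/-! ## The global order -/

/-- the ring `ℤ[√-m]` -/
abbrev Zm (m : ℕ) := ℤ√(-(m : ℤ))

/-- `y = 1 + √-m` -/
def yy (m : ℕ) : Zm m := ⟨1, 1⟩

/-- the order `O` of the cyclic algebra (free of rank 18 over `ℤ`) -/
abbrev Ord (m : ℕ) (a : ℤ) := Cyc (Zm m) a (yy m)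

/-- coordinates of an element of `S = ℤ[√-m][θ]` -/
def sco {m : ℕ} {a : ℤ} (s : Cub (Zm m) a) : Fin 3 → Fin 2 → ℤ :=
  ![![s.x.re, s.x.im], ![s.y.re, s.y.im], ![s.z.re, s.z.im]]

/-- the 18 integer coordinates of an element of `O` -/
def co {m : ℕ} {a : ℤ} (s : Ord m a) : Fin 3 → Fin 3 → Fin 2 → ℤ :=
  ![sco s.u, sco s.v, sco s.w]

/-- the element with given coordinates -/
def ofco (m : ℕ) (a : ℤ) (c : Fin 3 → Fin 3 → Fin 2 → ℤ) : Ord m a :=
  ⟨⟨⟨c 0 0 0, c 0 0 1⟩, ⟨c 0 1 0, c 0 1 1⟩, ⟨c 0 2 0, c 0 2 1⟩⟩,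
   ⟨⟨c 1 0 0, c 1 0 1⟩, ⟨c 1 1 0, c 1 1 1⟩, ⟨c 1 2 0, c 1 2 1⟩⟩,
   ⟨⟨c 2 0 0, c 2 0 1⟩, ⟨c 2 1 0, c 2 1 1⟩, ⟨c 2 2 0, c 2 2 1⟩⟩⟩

/-- all coordinates are at most `Q` in absolute value -/
def cle {m : ℕ} {a : ℤ} (s : Ord m a) (Q : ℕ) : Prop := ∀ i j k, |co s i j k| ≤ (Q : ℤ)

/-- the adjugate: `s * adj s = adj s * s = nrd s` -/
def adj {R : Type*} [CommRing R] [StarRing R] {a : ℤ} {y : R} (s : Cyc R a y) : Cyc R a y :=
  ⟨Cub.sig s.u * Cub.sig (Cub.sig s.u)
      - Cub.C (y * star y) * (Cub.sig s.v * Cub.sig (Cub.sig s.w)),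
   Cub.C y * (s.w * Cub.sig (Cub.sig s.w)) - s.v * Cub.sig (Cub.sig s.u),
   Cub.C (star y) * (s.v * Cub.sig s.v) - s.w * Cub.sig s.u⟩

/-- central elements coming from `R` -/
def cen {R : Type*} [CommRing R] {a : ℤ} {y : R} (r : R) : Cyc R a y := ⟨Cub.C r, 0, 0⟩

/-! ## Local data -/

/-- the antidiagonal form -/
def J (R : Type*) [CommRing R] : Matrix (Fin 3) (Fin 3) R := !![0, 0, 1; 0, -1, 0; 1, 0, 0]

theorem J_mul_J (R : Type*) [CommRing R] : J R * J R = 1 := by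
  ext i j
  fin_cases i <;> fin_cases j <;> simp [J, Matrix.mul_apply, Fin.sum_univ_three]

theorem J_conjTranspose (R : Type*) [CommRing R] [StarRing R] : (J R)ᴴ = J R := by
  ext i j
  fin_cases i <;> fin_cases j <;> simp [J, Matrix.conjTranspose_apply]

/-- `A` is a discrete valuation ring with involution, fraction field `E`, uniformiser `ϖ` with
`ϖ* = -ϖ`, residue field of `p` elements on which the involution is trivial, `p ~ ϖ²`. -/
structure LD (p : ℕ) (A E : Type) [CommRing A] [IsDomain A] [IsDiscreteValuationRing A]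
    [StarRing A] [Field E] [StarRing E] [Algebra A E] [IsFractionRing A E] where
  ϖ : A
  irr : Irreducible ϖ
  star_ϖ : star ϖ = -ϖ
  star_sub : ∀ x : A, ϖ ∣ star x - x
  two : IsUnit (2 : A)
  prime : p.Prime
  card_res : Nat.card (A ⧸ Ideal.span {ϖ}) = p
  assoc_p : Associated (p : A) (ϖ ^ 2)
  star_map : ∀ x : A, algebraMap A E (star x) = star (algebraMap A E x)

/-- the unitary group of the form `J` over `E` -/
def UJ (E : Type) [Field E] [StarRing E] : Subgroup (GL (Fin 3) E) where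
  carrier := {g | (g : Matrix (Fin 3) (Fin 3) E) * J E * (g : Matrix (Fin 3) (Fin 3) E)ᴴ = J E}
  one_mem' := by simp
  mul_mem' := by
    intro g h hg hh
    simp only [Set.mem_ofPred_eq, Units.val_mul, conjTranspose_mul] at *
    calc (g : Matrix (Fin 3) (Fin 3) E) * h * J E * ((h : Matrix (Fin 3) (Fin 3) E)ᴴ
          * (g : Matrix (Fin 3) (Fin 3) E)ᴴ)
        = g * (h * J E * (h : Matrix (Fin 3) (Fin 3) E)ᴴ) * (g : Matrix (Fin 3) (Fin 3) E)ᴴ := by
          simp only [Matrix.mul_assoc]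
      _ = _ := by rw [hh, hg]
  inv_mem' := by
    intro g hg
    simp only [Set.mem_ofPred_eq] at *
    have h1 : ((g⁻¹ : GL (Fin 3) E) : Matrix (Fin 3) (Fin 3) E) * g = 1 := by
      rw [← Units.val_mul]; simp
    have h2 : (g : Matrix (Fin 3) (Fin 3) E)ᴴ
        * ((g⁻¹ : GL (Fin 3) E) : Matrix (Fin 3) (Fin 3) E)ᴴ = 1 := by
      rw [← conjTranspose_mul, h1, conjTranspose_one]
    calc ((g⁻¹ : GL (Fin 3) E) : Matrix (Fin 3) (Fin 3) E) * J E
          * ((g⁻¹ : GL (Fin 3) E) : Matrix (Fin 3) (Fin 3) E)ᴴ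
        = ((g⁻¹ : GL (Fin 3) E) : Matrix (Fin 3) (Fin 3) E) * (g * J E
          * (g : Matrix (Fin 3) (Fin 3) E)ᴴ)
          * ((g⁻¹ : GL (Fin 3) E) : Matrix (Fin 3) (Fin 3) E)ᴴ := by rw [hg]
      _ = (((g⁻¹ : GL (Fin 3) E) : Matrix (Fin 3) (Fin 3) E) * g) * J E
          * ((g : Matrix (Fin 3) (Fin 3) E)ᴴ
          * ((g⁻¹ : GL (Fin 3) E) : Matrix (Fin 3) (Fin 3) E)ᴴ) := by
          simp only [Matrix.mul_assoc]
      _ = J E := by rw [h1, h2, Matrix.one_mul, Matrix.mul_one]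

/-- the matrix of an element of the unitary group -/
def mt {E : Type} [Field E] [StarRing E] (g : UJ E) : Matrix (Fin 3) (Fin 3) E :=
  ((g : GL (Fin 3) E) : Matrix (Fin 3) (Fin 3) E)

section
variable {E : Type} [Field E] [StarRing E]

@[simp] theorem mt_one : mt (1 : UJ E) = 1 := rfl
@[simp] theorem mt_mul (g h : UJ E) : mt (g * h) = mt g * mt h := rfl
theorem mt_J (g : UJ E) : mt g * J E * (mt g)ᴴ = J E := g.2
theorem mt_mul_inv (g : UJ E) : mt g * mt g⁻¹ = 1 := by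
  rw [← mt_mul]; simp
theorem mt_inv_mul (g : UJ E) : mt g⁻¹ * mt g = 1 := by
  rw [← mt_mul]; simp
theorem mt_injective : Function.Injective (mt (E := E)) := by
  intro g h hgh
  exact Subtype.ext (Units.ext hgh)
theorem mt_inv (g : UJ E) : mt g⁻¹ = J E * (mt g)ᴴ * J E := by
  have h : mt g * (J E * (mt g)ᴴ * J E) = 1 := by
    calc mt g * (J E * (mt g)ᴴ * J E) = (mt g * J E * (mt g)ᴴ) * J E := by
          simp only [Matrix.mul_assoc]
      _ = 1 := by rw [mt_J, J_mul_J]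
  calc mt g⁻¹ = mt g⁻¹ * (mt g * (J E * (mt g)ᴴ * J E)) := by rw [h, Matrix.mul_one]
    _ = _ := by rw [← Matrix.mul_assoc, mt_inv_mul, Matrix.one_mul]
end

section
variable {p : ℕ} {A E : Type} [CommRing A] [IsDomain A] [IsDiscreteValuationRing A]
    [StarRing A] [Field E] [StarRing E] [Algebra A E] [IsFractionRing A E]

/-- the entries of `ϖ^r g` are in `A` -/
def Intg (L : LD p A E) (r : ℕ) (g : Matrix (Fin 3) (Fin 3) E) : Prop :=
  ∃ M : Matrix (Fin 3) (Fin 3) A, (algebraMap A E L.ϖ) ^ r • g = M.map (algebraMap A E)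

theorem Intg.zero_iff {L : LD p A E} {g : Matrix (Fin 3) (Fin 3) E} :
    Intg L 0 g ↔ ∃ M : Matrix (Fin 3) (Fin 3) A, g = M.map (algebraMap A E) := by
  simp [Intg]

theorem Intg.mul {L : LD p A E} {r s : ℕ} {g h : Matrix (Fin 3) (Fin 3) E} (hg : Intg L r g)
    (hh : Intg L s h) : Intg L (r + s) (g * h) := by
  obtain ⟨M, hM⟩ := hg
  obtain ⟨N, hN⟩ := hh
  refine ⟨M * N, ?_⟩
  rw [Matrix.map_mul, ← hM, ← hN, pow_add, smul_mul_smul_comm]

theorem Intg.one {L : LD p A E} : Intg L 0 (1 : Matrix (Fin 3) (Fin 3) E) :=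
  ⟨1, by simp⟩

/-- `diag(1,1,ϖ)` -/
noncomputable def T (L : LD p A E) : Matrix (Fin 3) (Fin 3) E :=
  Matrix.diagonal ![1, 1, algebraMap A E L.ϖ]
/-- `diag(1,1,ϖ⁻¹)` -/
noncomputable def T' (L : LD p A E) : Matrix (Fin 3) (Fin 3) E :=
  Matrix.diagonal ![1, 1, (algebraMap A E L.ϖ)⁻¹]

theorem ϖ_ne (L : LD p A E) : algebraMap A E L.ϖ ≠ 0 := by
  rw [Ne, IsFractionRing.to_map_eq_zero_iff]
  exact L.irr.ne_zero

theorem T_mul_T' (L : LD p A E) : T L * T' L = 1 := by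
  rw [T, T', Matrix.diagonal_mul_diagonal]
  rw [show (1 : Matrix (Fin 3) (Fin 3) E) = Matrix.diagonal (fun _ => 1) from
    Matrix.diagonal_one.symm]
  congr 1
  ext i
  fin_cases i <;> simp [ϖ_ne L]

theorem T'_mul_T (L : LD p A E) : T' L * T L = 1 := by
  rw [T, T', Matrix.diagonal_mul_diagonal]
  rw [show (1 : Matrix (Fin 3) (Fin 3) E) = Matrix.diagonal (fun _ => 1) from
    Matrix.diagonal_one.symm]
  congr 1
  ext i
  fin_cases i <;> simp [ϖ_ne L]

/-- stabiliser of the vertex `A³` -/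
def KA (L : LD p A E) : Subgroup (UJ E) where
  carrier := {g | Intg L 0 (mt g) ∧ Intg L 0 (mt g⁻¹)}
  one_mem' := ⟨by simpa using Intg.one, by simpa using Intg.one⟩
  mul_mem' := by
    rintro g h ⟨h1, h2⟩ ⟨h3, h4⟩
    refine ⟨?_, ?_⟩
    · rw [mt_mul]; exact h1.mul h3
    · rw [_root_.mul_inv_rev, mt_mul]; exact h4.mul h2
  inv_mem' := by
    rintro g ⟨h1, h2⟩
    exact ⟨h2, by simpa using h1⟩

/-- stabiliser of the vertex `A³ diag(1,1,ϖ)` -/
def KB (L : LD p A E) : Subgroup (UJ E) where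
  carrier := {g | Intg L 0 (T L * mt g * T' L) ∧ Intg L 0 (T L * mt g⁻¹ * T' L)}
  one_mem' := by
    have : Intg L 0 (T L * mt (1 : UJ E) * T' L) := by
      rw [mt_one, Matrix.mul_one, T_mul_T']; exact Intg.one
    exact ⟨this, by simpa using this⟩
  mul_mem' := by
    have key : ∀ g h : UJ E, T L * mt (g * h) * T' L = (T L * mt g * T' L) * (T L * mt h * T' L) := by
      intro g h
      calc T L * mt (g * h) * T' L = T L * mt g * (T' L * T L) * mt h * T' L := by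
            rw [T'_mul_T, mt_mul]; simp only [Matrix.mul_assoc, Matrix.one_mul]
        _ = _ := by simp only [Matrix.mul_assoc]
    rintro g h ⟨h1, h2⟩ ⟨h3, h4⟩
    refine ⟨?_, ?_⟩
    · rw [key]; exact h1.mul h3
    · rw [_root_.mul_inv_rev, key]; exact h4.mul h2
  inv_mem' := by
    rintro g ⟨h1, h2⟩
    exact ⟨h2, by simpa using h1⟩

end

/-! ## reduced words in an abstract group with two subgroups -/

/-- `a₀ b₁ a₁ b₂ ⋯ a_{r-1} b_r` with `a₀ ∈ KA`, `aᵢ ∈ KA ∖ KB`, `bᵢ ∈ KB ∖ KA` -/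
inductive Word {G : Type*} [Group G] (KA KB : Subgroup G) : ℕ → G → Prop
  | base (a b : G) : a ∈ KA → b ∈ KB → b ∉ KA → Word KA KB 1 (a * b)
  | step (r : ℕ) (x a b : G) : Word KA KB r x → a ∈ KA → a ∉ KB → b ∈ KB → b ∉ KA →
      Word KA KB (r + 1) (x * a * b)

/-! ## Global data at `p` -/

/-- local data at `p` together with the embedding of the order `O` -/
structure GD (p m : ℕ) (a : ℤ) (A E : Type) [CommRing A] [IsDomain A] [IsDiscreteValuationRing A]
    [StarRing A] [Field E] [StarRing E] [Algebra A E] [IsFractionRing A E] extends LD p A E where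
  /-- `√-m ↦ ϖ` -/
  ι : Zm m →+* A
  ι_omega : ι ⟨0, 1⟩ = ϖ
  ι_star : ∀ x, ι (star x) = star (ι x)
  /-- a root of `X³ - aX² - (a+3)X - 1`, congruent to `1` -/
  t : A
  t_star : star t = t
  t_one : ϖ ∣ t - 1
  ht : Cub.IsRt a t
  /-- a matrix with `C Cᵀ = J` -/
  Cm : Matrix (Fin 3) (Fin 3) A
  Cm_star : Cmᴴ = Cmᵀ
  hC : Cm * Cmᵀ = J A

/-- the parameters: `p ≥ 5` prime, `2a+3 = p`, `p ∣ m`, `p² ∤ m`, `m ≡ 7 mod 16`, `m < 16 p` -/
structure Par (p m : ℕ) (a : ℤ) : Prop where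
  prime : p.Prime
  five : 5 ≤ p
  ha : 2 * a + 3 = p
  dvd : p ∣ m
  ndvd : ¬ p ^ 2 ∣ m
  mod : m % 16 = 7
  lt : m < 16 * p

section
variable {p m : ℕ} {a : ℤ} {A E : Type} [CommRing A] [IsDomain A] [IsDiscreteValuationRing A]
    [StarRing A] [Field E] [StarRing E] [Algebra A E] [IsFractionRing A E]

theorem Cm_inv (G : GD p m a A E) : G.Cmᵀ * J A * G.Cm = 1 := by
  have h : G.Cm * (G.Cmᵀ * J A) = 1 := by
    rw [← Matrix.mul_assoc, G.hC, J_mul_J]
  exact mul_eq_one_comm.mp h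

/-- the embedding of `O` in `M₃(A)`, unitary for `J` -/
noncomputable def rho (G : GD p m a A E) : Ord m a →+* Matrix (Fin 3) (Fin 3) A where
  toFun x := G.Cm * (Cyc.Phi x).map (Cub.ev G.ι G.t G.ht) * (G.Cmᵀ * J A)
  map_one' := by
    rw [map_one, Matrix.map_one _ (map_zero _) (map_one _), Matrix.mul_one, ← Matrix.mul_assoc,
      G.hC, J_mul_J]
  map_zero' := by
    rw [map_zero, Matrix.map_zero _ (map_zero _), Matrix.mul_zero, Matrix.zero_mul]
  map_add' x z := by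
    rw [map_add, Matrix.map_add _ (map_add _), Matrix.mul_add, Matrix.add_mul]
  map_mul' x z := by
    rw [map_mul, Matrix.map_mul]
    calc G.Cm * ((Cyc.Phi x).map (Cub.ev G.ι G.t G.ht) * (Cyc.Phi z).map (Cub.ev G.ι G.t G.ht))
          * (G.Cmᵀ * J A)
        = G.Cm * (Cyc.Phi x).map (Cub.ev G.ι G.t G.ht) * (G.Cmᵀ * J A * G.Cm)
          * (Cyc.Phi z).map (Cub.ev G.ι G.t G.ht) * (G.Cmᵀ * J A) := by
          rw [Cm_inv]; simp only [Matrix.mul_assoc, Matrix.one_mul]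
      _ = _ := by simp only [Matrix.mul_assoc]

/-- `ρ` with values in `M₃(E)` -/
noncomputable def rhoE (G : GD p m a A E) (x : Ord m a) : Matrix (Fin 3) (Fin 3) E :=
  (rho G x).map (algebraMap A E)

theorem rho_star (G : GD p m a A E) (x : Ord m a) :
    rho G (star x) = J A * (rho G x)ᴴ * J A := by
  have h1 : ((Cyc.Phi x).map (Cub.ev G.ι G.t G.ht))ᴴ
      = (Cyc.Phi (star x)).map (Cub.ev G.ι G.t G.ht) := by
    rw [Cyc.Phi_star]
    ext i j
    simp only [Matrix.conjTranspose_apply, Matrix.map_apply, Cub.ev_apply, Cub.star_x, Cub.star_y,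
      Cub.star_z, G.ι_star, star_add, star_mul', star_pow, G.t_star]
  have h2 : (G.Cmᵀ)ᴴ = G.Cm := by
    rw [← G.Cm_star, conjTranspose_conjTranspose]
  simp only [rho, RingHom.coe_mk, MonoidHom.coe_mk, OneHom.coe_mk]
  rw [conjTranspose_mul, conjTranspose_mul, conjTranspose_mul, h1, h2, J_conjTranspose, G.Cm_star]
  calc G.Cm * (Cyc.Phi (star x)).map (Cub.ev G.ι G.t G.ht) * (G.Cmᵀ * J A)
      = (J A * J A) * G.Cm * (Cyc.Phi (star x)).map (Cub.ev G.ι G.t G.ht) * (G.Cmᵀ * J A) := by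
        rw [J_mul_J, Matrix.one_mul]
    _ = _ := by simp only [Matrix.mul_assoc]

theorem rhoE_add (G : GD p m a A E) (x z : Ord m a) :
    rhoE G (x + z) = rhoE G x + rhoE G z := by
  simp only [rhoE, map_add]
  ext i j
  simp

theorem rhoE_mul (G : GD p m a A E) (x z : Ord m a) :
    rhoE G (x * z) = rhoE G x * rhoE G z := by
  simp only [rhoE, map_mul, Matrix.map_mul]

theorem rhoE_zero (G : GD p m a A E) : rhoE G 0 = 0 := by
  simp only [rhoE, map_zero]
  ext i j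
  simp

theorem rhoE_natCast_mul (G : GD p m a A E) (n : ℕ) (x : Ord m a) :
    rhoE G ((n : Ord m a) * x) = (n : E) • rhoE G x := by
  rw [← nsmul_eq_mul]
  ext i j
  change algebraMap A E (rho G (n • x) i j) = (n : E) • algebraMap A E (rho G x i j)
  rw [map_nsmul, Matrix.smul_apply, map_nsmul, nsmul_eq_mul, smul_eq_mul]

theorem rhoE_star (G : GD p m a A E) (x : Ord m a) :
    rhoE G (star x) = J E * (rhoE G x)ᴴ * J E := by
  have hJ : (J A).map (algebraMap A E) = J E := by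
    ext i j
    fin_cases i <;> fin_cases j <;> simp [J]
  have hs : ((rho G x)ᴴ).map (algebraMap A E) = ((rho G x).map (algebraMap A E))ᴴ := by
    ext i j
    simp [Matrix.conjTranspose_apply, G.star_map]
  simp only [rhoE, rho_star, Matrix.map_mul, hJ, hs]

/-- `Γ(N)`: those `γ` with `p^k (γ - 1) = N ρ(x)` for some `k` and `x ∈ O` -/
def Gam (G : GD p m a A E) (N : ℕ) : Subgroup (UJ E) where
  carrier := {g | ∃ (k : ℕ) (x : Ord m a), (p : E) ^ k • (mt g - 1) = (N : E) • rhoE G x}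
  one_mem' := ⟨0, 0, by rw [rhoE_zero]; simp⟩
  mul_mem' := by
    rintro g h ⟨k, x, hx⟩ ⟨l, z, hz⟩
    refine ⟨k + l, ((p ^ l : ℕ) : Ord m a) * x + ((p ^ k : ℕ) : Ord m a) * z
      + (N : Ord m a) * (x * z), ?_⟩
    rw [rhoE_add, rhoE_add, rhoE_natCast_mul, rhoE_natCast_mul, rhoE_natCast_mul, rhoE_mul]
    have e : mt (g * h) - 1 = (mt g - 1) + (mt h - 1) + (mt g - 1) * (mt h - 1) := by
      rw [mt_mul]; noncomm_ring
    rw [e, smul_add, smul_add, smul_add, smul_add]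
    congr 1
    · congr 1
      · rw [pow_add, mul_comm, mul_smul, hx, smul_comm]; push_cast; rfl
      · rw [pow_add, mul_smul, hz, smul_comm]; push_cast; rfl
    · rw [pow_add, ← smul_mul_smul_comm, hx, hz, smul_mul_smul_comm, smul_smul]
  inv_mem' := by
    rintro g ⟨k, x, hx⟩
    refine ⟨k, star x, ?_⟩
    have e : mt g⁻¹ - 1 = J E * (mt g - 1)ᴴ * J E := by
      rw [mt_inv, conjTranspose_sub, conjTranspose_one, Matrix.mul_sub, Matrix.sub_mul,
        Matrix.mul_one, J_mul_J]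
    have e2 : (p : E) ^ k • (mt g - 1)ᴴ = (N : E) • (rhoE G x)ᴴ := by
      have := congrArg Matrix.conjTranspose hx
      rw [conjTranspose_smul, conjTranspose_smul] at this
      simpa using this
    rw [e, rhoE_star]
    calc (p : E) ^ k • (J E * (mt g - 1)ᴴ * J E) = J E * ((p : E) ^ k • (mt g - 1)ᴴ) * J E := by
          rw [Matrix.mul_smul, Matrix.smul_mul]
      _ = _ := by rw [e2, Matrix.mul_smul, Matrix.smul_mul]

end

/-! ## The function `n(g, δ)` -/

/-- `n(g, δ)`: the least order of a (nonempty) finite graph of minimum degree at least `δ` and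
girth at least `g` -/
noncomputable def nOrd (g δ : ℕ) : ℕ :=
  sInf {n : ℕ | 0 < n ∧ ∃ X : SimpleGraph (Fin n),
    (∀ v, δ ≤ (X.neighborSet v).ncard) ∧ (g : ℕ∞) ≤ X.egirth}

end Pool.Agent.H791R3.GI
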