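import Mathlib
import Pool.Agent.H791R3.GI.Defs

/-!
# Statements of the modules (each is proved in its own file `Pool.Agent.H791R3.GI.<ID>` as
`theorem <id> : St_<ID>`)
-/

set_option autoImplicit false

namespace Pool.Agent.H791R3.GI

open Matrix Cub

/-- CO: coordinates -/
def St_CO : Prop := ∀ (m : ℕ) (a : ℤ),
  (∀ s : Ord m a, ofco m a (co s) = s) ∧ (∀ c, co (ofco m a c) = c) ∧
  (∀ s t : Ord m a, co (s + t) = co s + co t) ∧ (∀ s t : Ord m a, co (s - t) = co s - co t) ∧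
  (∀ (n : ℕ) (s : Ord m a) (i j k), co ((n : Ord m a) * s) i j k = n * co s i j k)

/-- ADJ: adjugate and norm -/
def St_ADJ : Prop := ∀ (R : Type) [CommRing R] [StarRing R] (a : ℤ) (y : R),
  (∀ s : Cyc R a y, s * adj s = cen (Cyc.nrd s) ∧ adj s * s = cen (Cyc.nrd s)) ∧
  (∀ (r : R) (s : Cyc R a y), cen r * s = s * cen r) ∧
  (∀ r r' : R, (cen r * cen r' : Cyc R a y) = cen (r * r')) ∧
  (∀ n : ℕ, (cen (n : R) : Cyc R a y) = n) ∧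
  (∀ s t : Cyc R a y, Cyc.nrd (s * t) = Cyc.nrd s * Cyc.nrd t) ∧
  (∀ s : Cyc R a y, Cyc.nrd (star s) = star (Cyc.nrd s)) ∧
  (∀ n : ℕ, Cyc.nrd (n : Cyc R a y) = n ^ 3)

/-- SQ2: a 2-adic square root of `-m` -/
def St_SQ2 : Prop := ∀ m : ℕ, m % 16 = 7 → ∃ s : ℤ_[2], s ^ 2 = -(m : ℤ_[2])

/-- DIV: `O` is a division order -/
def St_DIV : Prop := ∀ (m : ℕ) (a : ℤ), m % 16 = 7 → ∀ s : Ord m a, s ≠ 0 → Cyc.nrd s ≠ 0

/-- SATZ -/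
def St_SATZ : Prop := ∀ (p m : ℕ) (a : ℤ) (A E : Type) [CommRing A] [IsDomain A]
  [IsDiscreteValuationRing A] [StarRing A] [Field E] [StarRing E] [Algebra A E]
  [IsFractionRing A E] (G : GD p m a A E), Par p m a → ∀ (x : Zm m) (e : ℕ),
  G.ϖ ^ e ∣ G.ι x → ((p : Zm m) ^ (e / 2)) ∣ x

/-- SAT: `p`-saturation -/
def St_SAT : Prop := ∀ (p m : ℕ) (a : ℤ) (A E : Type) [CommRing A] [IsDomain A]
  [IsDiscreteValuationRing A] [StarRing A] [Field E] [StarRing E] [Algebra A E]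
  [IsFractionRing A E] (G : GD p m a A E), Par p m a →
  (∀ s : Ord m a, (∀ i j, (p : A) ∣ rho G s i j) → ∃ z : Ord m a, s = (p : Ord m a) * z) ∧
  (∀ s : Ord m a, rho G s = 0 → s = 0) ∧ (∀ s : Ord m a, (rho G s).det = G.ι (Cyc.nrd s))

/-- IDX: index of `M₃(A) h` -/
def St_IDX : Prop := ∀ (p : ℕ) (A E : Type) [CommRing A] [IsDomain A]
  [IsDiscreteValuationRing A] [StarRing A] [Field E] [StarRing E] [Algebra A E]
  [IsFractionRing A E] (L : LD p A E) (h : Matrix (Fin 3) (Fin 3) A) (e : ℕ),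
  Associated h.det (L.ϖ ^ e) →
  (AddMonoidHom.mulRight h : Matrix (Fin 3) (Fin 3) A →+ Matrix (Fin 3) (Fin 3) A).range.index
    = p ^ (3 * e)

/-- CRD: size of `A/n` -/
def St_CRD : Prop := ∀ (p : ℕ) (A E : Type) [CommRing A] [IsDomain A]
  [IsDiscreteValuationRing A] [StarRing A] [Field E] [StarRing E] [Algebra A E]
  [IsFractionRing A E] (_L : LD p A E) (n : ℕ), 0 < n →
  Finite (A ⧸ Ideal.span {(n : A)}) ∧ Nat.card (A ⧸ Ideal.span {(n : A)}) ≤ n ^ 2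

/-- PIG: the pigeonhole principle -/
def St_PIG : Prop := ∀ (p m : ℕ) (a : ℤ) (A E : Type) [CommRing A] [IsDomain A]
  [IsDiscreteValuationRing A] [StarRing A] [Field E] [StarRing E] [Algebra A E]
  [IsFractionRing A E] (G : GD p m a A E), Par p m a → ∀ (g : UJ E) (t : ℕ), 0 < t →
  ∃ j : ℕ, t ∣ j ∧ ∃ x : Ord m a, x ≠ 0 ∧ cle x (p ^ j) ∧
    ∃ w : Matrix (Fin 3) (Fin 3) A, rhoE G x * mt g = (p : E) ^ j • w.map (algebraMap A E)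

/-- BND: polynomial bounds -/
def St_BND : Prop := ∃ K : ℕ, ∀ (p m : ℕ) (a : ℤ), Par p m a →
  (∀ (s : Ord m a) (Q : ℕ), cle s Q → cle (s * star s) (K * p ^ K * Q ^ 2)) ∧
  (∀ (s : Ord m a) (Q : ℕ), cle s Q → (Zsqrtd.norm (Cyc.nrd s)).natAbs ≤ K * p ^ K * Q ^ 6)

/-- FIN1: two elements with the same invariants -/
def St_FIN1 : Prop := ∀ (p m : ℕ) (a : ℤ) (A E : Type) [CommRing A] [IsDomain A]
  [IsDiscreteValuationRing A] [StarRing A] [Field E] [StarRing E] [Algebra A E]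
  [IsFractionRing A E] (G : GD p m a A E), Par p m a →
  ∀ (g g' : UJ E) (j j' k : ℕ) (x x' s s' z : Ord m a) (w w' v : Matrix (Fin 3) (Fin 3) A)
    (M : ℕ), 0 < M → s * s' = (M : Ord m a) → s' * s = (M : Ord m a) →
    rhoE G x * mt g = (p : E) ^ j • w.map (algebraMap A E) →
    rhoE G x' * mt g' = (p : E) ^ j' • w'.map (algebraMap A E) →
    x * star x = ((p ^ (2 * j) : ℕ) : Ord m a) * s →
    x' * star x' = ((p ^ (2 * j') : ℕ) : Ord m a) * s →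
    w' - w = ((p * M : ℕ) : A) • v →
    ((p ^ k : ℕ) : Ord m a) * (((p ^ j : ℕ) : Ord m a) * x' - ((p ^ j' : ℕ) : Ord m a) * x)
      = (M : Ord m a) * z →
    ∃ γ ∈ Gam G 1, ∃ κ ∈ KA G.toLD ⊓ KB G.toLD, g' = γ * g * κ

/-- FIN: polynomially many double cosets -/
def St_FIN : Prop := ∃ K : ℕ, ∀ (p m : ℕ) (a : ℤ) (A E : Type) [CommRing A] [IsDomain A]
  [IsDiscreteValuationRing A] [StarRing A] [Field E] [StarRing E] [Algebra A E]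
  [IsFractionRing A E] (G : GD p m a A E), Par p m a →
  ∃ inv : UJ E → Fin (K * p ^ K), ∀ g g', inv g = inv g' →
    ∃ γ ∈ Gam G 1, ∃ κ ∈ KA G.toLD ⊓ KB G.toLD, g' = γ * g * κ

/-- CNT: number of elements of norm `ε` modulo `2^i` -/
def St_CNT : Prop := ∀ (i : ℕ) (a : ℤ) (α β κ ε : ZMod (2 ^ i)), 1 ≤ i → 2 ∣ α → 2 ∣ β → 2 ∣ κ →
  IsUnit ε → Nat.card {x : Cub (ZMod (2 ^ i)) a × Cub (ZMod (2 ^ i)) a × Cub (ZMod (2 ^ i)) a //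
    nm x.1 + α * nm x.2.1 + β * nm x.2.2 - κ * tr (x.1 * sig x.2.1 * sig (sig x.2.2)) = ε}
    ≤ 2 * (2 ^ i) ^ 8

/-- NPM: `γ ∈ Γ`, `p^k γ = ρ(x)`: then `x x* = p^{2k}` and `nrd x = ± p^{3k}` -/
def St_NPM : Prop := ∀ (p m : ℕ) (a : ℤ) (A E : Type) [CommRing A] [IsDomain A]
  [IsDiscreteValuationRing A] [StarRing A] [Field E] [StarRing E] [Algebra A E]
  [IsFractionRing A E] (G : GD p m a A E), Par p m a → ∀ (γ : UJ E) (k : ℕ) (x : Ord m a),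
  (p : E) ^ k • mt γ = rhoE G x →
  x * star x = ((p ^ (2 * k) : ℕ) : Ord m a) ∧ star x * x = ((p ^ (2 * k) : ℕ) : Ord m a) ∧
  (Cyc.nrd x = (p : Zm m) ^ (3 * k) ∨ Cyc.nrd x = -(p : Zm m) ^ (3 * k))

/-- IXG: the index of `Γ(2^i)` in `Γ` is at most `2^(8i+18)` -/
def St_IXG : Prop := ∀ (p m : ℕ) (a : ℤ) (A E : Type) [CommRing A] [IsDomain A]
  [IsDiscreteValuationRing A] [StarRing A] [Field E] [StarRing E] [Algebra A E]
  [IsFractionRing A E] (G : GD p m a A E), Par p m a → ∀ i : ℕ,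
  ∃ cls : UJ E → Fin (2 ^ (8 * i + 18)), ∀ γ ∈ Gam G 1, ∀ γ' ∈ Gam G 1, cls γ = cls γ' →
    γ' * γ⁻¹ ∈ Gam G (2 ^ i)

/-- DSP: displacement of the elements of `Γ(N)` -/
def St_DSP : Prop := ∀ (p m : ℕ) (a : ℤ) (A E : Type) [CommRing A] [IsDomain A]
  [IsDiscreteValuationRing A] [StarRing A] [Field E] [StarRing E] [Algebra A E]
  [IsFractionRing A E] (G : GD p m a A E), Par p m a → ∀ N : ℕ, 0 < N → Nat.Coprime N p →
  ∀ γ ∈ Gam G N, γ ≠ 1 → ∀ (g : UJ E) (r : ℕ), Intg G.toLD r (mt (g⁻¹ * γ * g)) →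
  N ^ 3 ≤ 8 * p ^ ((r + 1) / 2)

/-- LW: levels of reduced words -/
def St_LW : Prop := ∀ (p : ℕ) (A E : Type) [CommRing A] [IsDomain A]
  [IsDiscreteValuationRing A] [StarRing A] [Field E] [StarRing E] [Algebra A E]
  [IsFractionRing A E] (L : LD p A E),
  (∀ k ∈ KA L, Intg L 0 (mt k)) ∧ (∀ k ∈ KB L, Intg L 1 (mt k)) ∧
  (∀ (r : ℕ) (x k : UJ E), Word (KA L) (KB L) r x → k ∈ KA L →
    Intg L r (mt (x * k)) ∧ x * k ≠ 1)

/-- LA: `p+1` cosets of `KA ∩ KB` in `KA` -/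
def St_LA : Prop := ∀ (p : ℕ) (A E : Type) [CommRing A] [IsDomain A]
  [IsDiscreteValuationRing A] [StarRing A] [Field E] [StarRing E] [Algebra A E]
  [IsFractionRing A E] (L : LD p A E),
  ∃ f : Fin (p + 1) → UJ E, (∀ i, f i ∈ KA L) ∧ ∀ i j, i ≠ j → (f i)⁻¹ * f j ∉ KB L

/-- LB: `p+1` cosets of `KA ∩ KB` in `KB` -/
def St_LB : Prop := ∀ (p : ℕ) (A E : Type) [CommRing A] [IsDomain A]
  [IsDiscreteValuationRing A] [StarRing A] [Field E] [StarRing E] [Algebra A E]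
  [IsFractionRing A E] (L : LD p A E),
  ∃ f : Fin (p + 1) → UJ E, (∀ i, f i ∈ KB L) ∧ ∀ i j, i ≠ j → (f i)⁻¹ * f j ∉ KA L

/-- INS: existence of the data at `p` -/
def St_INS : Prop := ∀ (p m : ℕ) (a : ℤ), Par p m a →
  ∃ (A E : Type) (_ : CommRing A) (_ : IsDomain A) (_ : IsDiscreteValuationRing A)
    (_ : StarRing A) (_ : Field E) (_ : StarRing E) (_ : Algebra A E) (_ : IsFractionRing A E),
    Nonempty (GD p m a A E)

/-- PAR: existence of the parameters -/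
def St_PAR : Prop := ∀ p : ℕ, p.Prime → 5 ≤ p → ∃ (m : ℕ) (a : ℤ), Par p m a

/-- GRA: the quotient graph -/
def St_GRA : Prop := ∀ (G : Type) [Group G] (KA KB Γ : Subgroup G) (Lv : ℕ → G → Prop)
  (d R V : ℕ), 2 ≤ R →
  (∃ f : Fin d → G, (∀ i, f i ∈ KA) ∧ ∀ i j, i ≠ j → (f i)⁻¹ * f j ∉ KB) →
  (∃ f : Fin d → G, (∀ i, f i ∈ KB) ∧ ∀ i j, i ≠ j → (f i)⁻¹ * f j ∉ KA) →
  (∀ k ∈ KA, Lv 0 k) → (∀ k ∈ KB, Lv 1 k) →
  (∀ (r : ℕ) (x k : G), Word KA KB r x → k ∈ KA → Lv r (x * k) ∧ x * k ≠ 1) →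
  (∀ γ ∈ Γ, ∀ (g : G) (r : ℕ), r < R → Lv r (g⁻¹ * γ * g) → γ = 1) →
  (∃ inv : G → Fin V, ∀ g g', inv g = inv g' → ∃ γ ∈ Γ, ∃ κ ∈ KA ⊓ KB, g' = γ * g * κ) →
  ∃ n : ℕ, 0 < n ∧ n ≤ 2 * V ∧ ∃ X : SimpleGraph (Fin n),
    (∀ v, d ≤ (X.neighborSet v).ncard) ∧ ((2 * R : ℕ) : ℕ∞) ≤ X.egirth

/-- MAIN -/
def St_MAIN : Prop := ∃ K : ℕ, ∀ p : ℕ, p.Prime → 5 ≤ p → ∀ g : ℕ,
  (nOrd g (p + 1) : ℝ) ≤ K * (p : ℝ) ^ K * (p : ℝ) ^ ((2 / 3 : ℝ) * g)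

end Pool.Agent.H791R3.GI
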