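import Mathlib
import Pool.Agent.H791R3.GI.Stubs

/-!
# Coordinates of the order
-/

set_option autoImplicit false

namespace Pool.Agent.H791R3.GI

namespace CO

theorem nsmul_re {m : ℕ} (n : ℕ) (x : Zm m) : (n • x).re = n * x.re := by
  rw [nsmul_eq_mul, Zsqrtd.re_mul]
  simp

theorem nsmul_im {m : ℕ} (n : ℕ) (x : Zm m) : (n • x).im = n * x.im := by
  rw [nsmul_eq_mul, Zsqrtd.im_mul]
  simp

theorem sco_add {m : ℕ} {a : ℤ} (s t : Cub (Zm m) a) : sco (s + t) = sco s + sco t := by
  funext i j
  fin_cases i <;> fin_cases j <;> rfl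

theorem sco_sub {m : ℕ} {a : ℤ} (s t : Cub (Zm m) a) : sco (s - t) = sco s - sco t := by
  funext i j
  fin_cases i <;> fin_cases j <;> rfl

theorem sco_nsmul {m : ℕ} {a : ℤ} (n : ℕ) (s : Cub (Zm m) a) (i : Fin 3) (j : Fin 2) :
    sco (n • s) i j = n * sco s i j := by
  fin_cases i <;> fin_cases j
  · exact nsmul_re n s.x
  · exact nsmul_im n s.x
  · exact nsmul_re n s.y
  · exact nsmul_im n s.y
  · exact nsmul_re n s.z
  · exact nsmul_im n s.z

end CO

open CO in
theorem CO_proof : St_CO := by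
  intro m a
  refine ⟨fun s => rfl, fun c => ?_, fun s t => ?_, fun s t => ?_, fun n s i j k => ?_⟩
  · funext i j k
    fin_cases i <;> fin_cases j <;> fin_cases k <;> rfl
  · funext i
    fin_cases i
    · exact sco_add s.u t.u
    · exact sco_add s.v t.v
    · exact sco_add s.w t.w
  · funext i
    fin_cases i
    · exact sco_sub s.u t.u
    · exact sco_sub s.v t.v
    · exact sco_sub s.w t.w
  · rw [← nsmul_eq_mul]
    fin_cases i
    · exact sco_nsmul n s.u j k
    · exact sco_nsmul n s.v j k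
    · exact sco_nsmul n s.w j k

end Pool.Agent.H791R3.GI
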