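import Mathlib
import Pool.Agent.H791R3.GI.Stubs

/-!
# CRD: size of `A/n`
-/

set_option autoImplicit false

namespace Pool.Agent.H791R3.GI

theorem CRD_proof : St_CRD := by
  intro p A E _ _ _ _ _ _ _ _ L n hn
  have hp : p.Prime := L.prime
  -- `n = p^k n'`
  obtain ⟨k, n', hn', hnn⟩ := Nat.exists_eq_pow_mul_and_not_dvd hn.ne' p hp.ne_one
  have hpd : L.ϖ ∣ (p : A) := by
    obtain ⟨u, hu⟩ := L.assoc_p.symm
    rw [← hu, pow_two, mul_assoc]
    exact Dvd.intro _ rfl
  have hunit : IsUnit (n' : A) := by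
    by_contra hnu
    have hd : L.ϖ ∣ (n' : A) := by
      have h1 : (n' : A) ∈ IsLocalRing.maximalIdeal A :=
        (IsLocalRing.mem_maximalIdeal _).mpr hnu
      rw [(IsDiscreteValuationRing.irreducible_iff_uniformizer L.ϖ).mp L.irr] at h1
      exact Ideal.mem_span_singleton.mp h1
    have hc : IsCoprime (p : ℤ) (n' : ℤ) := by
      rw [Nat.isCoprime_iff_coprime]
      exact (Nat.Prime.coprime_iff_not_dvd hp).mpr hn'
    obtain ⟨a, b, hab⟩ := hc
    have hab' : (a : A) * (p : A) + (b : A) * (n' : A) = 1 := by exact_mod_cast congrArg (Int.cast : ℤ → A) hab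
    have : L.ϖ ∣ 1 := by
      rw [← hab']
      exact dvd_add (hpd.mul_left _) (hd.mul_left _)
    exact L.irr.not_isUnit (isUnit_of_dvd_one this)
  have hspan : Ideal.span {(n : A)} = Ideal.span {L.ϖ} ^ (2 * k) := by
    rw [Ideal.span_singleton_pow]
    rw [Ideal.span_singleton_eq_span_singleton]
    rw [hnn]
    push_cast
    refine (associated_mul_unit_left _ _ hunit).trans ?_
    rw [pow_mul]
    exact L.assoc_p.pow_pow
  have hprime : (Ideal.span {L.ϖ}).IsPrime := by
    rw [Ideal.span_singleton_prime L.irr.ne_zero]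
    exact L.irr.prime
  have hne : Ideal.span {L.ϖ} ≠ ⊥ := by
    rw [Ne, Ideal.span_singleton_eq_bot]
    exact L.irr.ne_zero
  have hcard : Nat.card (A ⧸ Ideal.span {(n : A)}) = p ^ (2 * k) := by
    rw [hspan]
    have := cardQuot_pow_of_prime hne (i := 2 * k)
    rw [Submodule.cardQuot_apply, Submodule.cardQuot_apply, L.card_res] at this
    exact this
  refine ⟨?_, ?_⟩
  · apply Nat.finite_of_card_ne_zero
    rw [hcard]
    exact pow_ne_zero _ hp.ne_zero
  · rw [hcard, mul_comm 2 k, pow_mul]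
    apply Nat.pow_le_pow_left
    apply Nat.le_of_dvd hn
    exact ⟨n', hnn⟩

end Pool.Agent.H791R3.GI
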