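import Pool.Agent.H791R3.GI.Stubs

/-!
# `O` has no elements of reduced norm `0`

Local argument at `2`: the reduced norm form is anisotropic over `ℤ₂`.
-/

set_option autoImplicit false
set_option linter.unusedSimpArgs false

namespace Pool.Agent.H791R3.GI
namespace DIV

open Cub

variable {a : ℤ}

theorem nm_two (x : Cub ℤ_[2] a) : nm (2 * x) = 8 * nm x := by
  have h : (2 : Cub ℤ_[2] a) = C 2 := by
    rw [map_ofNat]
  rw [h, nm, nm, map_mul, map_mul, sig_C, sig_C]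
  simp only [mul_x, mul_y, mul_z, C_x, C_y, C_z, sig_x, sig_y, sig_z]
  ring

theorem tr_two (x : Cub ℤ_[2] a) : tr (2 * x) = 2 * tr x := by
  have h : (2 : Cub ℤ_[2] a) = C 2 := by
    rw [map_ofNat]
  rw [h, tr, tr, map_mul, map_mul, sig_C, sig_C]
  simp only [mul_x, mul_y, mul_z, C_x, C_y, C_z, sig_x, sig_y, sig_z, add_x, add_y, add_z]
  ring

/-- the norm form modulo `2` -/
def NF (α x y z : ZMod 2) : ZMod 2 :=
  let s1x := x - 2 * y + (2 - α) * z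
  let s1y := -((α + 1) * y) - (α ^ 2 + α + 1) * z
  let s1z := y + α * z
  let s2x := s1x - 2 * s1y + (2 - α) * s1z
  let s2y := -((α + 1) * s1y) - (α ^ 2 + α + 1) * s1z
  let s2z := s1y + α * s1z
  let px := x * s1x + (y * s1z + z * s1y) + α * (z * s1z)
  let py := x * s1y + y * s1x + (α + 3) * (y * s1z + z * s1y) + (α ^ 2 + 3 * α + 1) * (z * s1z)
  let pz := x * s1z + y * s1y + z * s1x + α * (y * s1z + z * s1y) + (α ^ 2 + α + 3) * (z * s1z)
  px * s2x + (py * s2z + pz * s2y) + α * (pz * s2z)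

theorem nm_ZMod (x : Cub (ZMod 2) a) : nm x = NF (a : ZMod 2) x.x x.y x.z := by
  simp only [nm, NF, mul_x, mul_y, mul_z, sig_x, sig_y, sig_z]

theorem NF_ne : ∀ α x y z : ZMod 2, NF α x y z = 0 → x = 0 ∧ y = 0 ∧ z = 0 := by
  decide

theorem dvd_iff (x : ℤ_[2]) : (2 : ℤ_[2]) ∣ x ↔ PadicInt.toZMod x = 0 := by
  rw [← RingHom.mem_ker, PadicInt.ker_toZMod, PadicInt.maximalIdeal_eq_span_p,
    Ideal.mem_span_singleton]
  norm_num

theorem even_of (x : Cub ℤ_[2] a) (h : (2 : ℤ_[2]) ∣ nm x) : ∃ x', x = 2 * x' := by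
  have h1 : nm (map (PadicInt.toZMod (p := 2)) x) = 0 := by
    rw [nm_map]; exact (dvd_iff _).1 h
  rw [nm_ZMod] at h1
  obtain ⟨hx, hy, hz⟩ := NF_ne _ _ _ _ h1
  simp only [map_x, map_y, map_z] at hx hy hz
  obtain ⟨x1, hx1⟩ := (dvd_iff _).2 hx
  obtain ⟨x2, hx2⟩ := (dvd_iff _).2 hy
  obtain ⟨x3, hx3⟩ := (dvd_iff _).2 hz
  refine ⟨⟨x1, x2, x3⟩, ?_⟩
  have h2 : (2 : Cub ℤ_[2] a) = C 2 := by
    rw [map_ofNat]
  rw [h2]
  ext
  · simp [hx1]
  · simp [hx2]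
  · simp [hx3]

theorem prime2 : Prime (2 : ℤ_[2]) := by
  have := PadicInt.prime_p (p := 2)
  simpa using this

theorem two_ne : (2 : ℤ_[2]) ≠ 0 := prime2.ne_zero

/-- the form -/
noncomputable def FF (Y Y' : ℤ_[2]) (u v w : Cub ℤ_[2] a) : ℤ_[2] :=
  nm u + Y * Y' ^ 2 * nm v + Y ^ 2 * Y' * nm w - Y * Y' * tr (u * sig v * sig (sig w))

theorem sig_two (x : Cub ℤ_[2] a) : sig (2 * x) = 2 * sig x := by
  rw [map_mul, map_ofNat]

/-- the core of the descent, one orientation. `t1, t2, ...` are the traces. -/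
theorem core (p q : ℤ_[2]) (hp : ¬ (2 : ℤ_[2]) ∣ p) (hq : ¬ (2 : ℤ_[2]) ∣ q)
    (u v w : Cub ℤ_[2] a) (T : Cub ℤ_[2] a → Cub ℤ_[2] a → Cub ℤ_[2] a → ℤ_[2])
    (hT1 : ∀ u v w, T (2 * u) v w = 2 * T u v w) (hT3 : ∀ u v w, T u v (2 * w) = 2 * T u v w)
    (h : nm u + 32 * (p * q ^ 2) * nm v + 16 * (p ^ 2 * q) * nm w - 8 * (p * q) * T u v w = 0) :
    (∃ u', u = 2 * u') ∧ (∃ v', v = 2 * v') ∧ (∃ w', w = 2 * w') := by
  have c2 := two_ne
  have d1 : (2 : ℤ_[2]) ∣ nm u :=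
    ⟨-(16 * (p * q ^ 2) * nm v + 8 * (p ^ 2 * q) * nm w - 4 * (p * q) * T u v w), by
      linear_combination h⟩
  obtain ⟨u1, rfl⟩ := even_of u d1
  rw [nm_two, hT1] at h
  have h1 : nm u1 + 4 * (p * q ^ 2) * nm v + 2 * (p ^ 2 * q) * nm w - 2 * (p * q) * T u1 v w = 0 := by
    have : (2 : ℤ_[2]) * (2 * (2 * (nm u1 + 4 * (p * q ^ 2) * nm v + 2 * (p ^ 2 * q) * nm w
        - 2 * (p * q) * T u1 v w))) = 0 := by linear_combination h
    simpa [c2] using this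
  have d2 : (2 : ℤ_[2]) ∣ nm u1 :=
    ⟨-(2 * (p * q ^ 2) * nm v + (p ^ 2 * q) * nm w - (p * q) * T u1 v w), by
      linear_combination h1⟩
  obtain ⟨u2, rfl⟩ := even_of u1 d2
  rw [nm_two, hT1] at h1
  have h2 : 4 * nm u2 + 2 * (p * q ^ 2) * nm v + (p ^ 2 * q) * nm w - 2 * (p * q) * T u2 v w = 0 := by
    have : (2 : ℤ_[2]) * (4 * nm u2 + 2 * (p * q ^ 2) * nm v + (p ^ 2 * q) * nm w
        - 2 * (p * q) * T u2 v w) = 0 := by linear_combination h1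
    simpa [c2] using this
  have d3 : (2 : ℤ_[2]) ∣ (p ^ 2 * q) * nm w :=
    ⟨-(2 * nm u2 + (p * q ^ 2) * nm v - (p * q) * T u2 v w), by linear_combination h2⟩
  have hpq : ¬ (2 : ℤ_[2]) ∣ p ^ 2 * q := by
    intro hd
    rcases prime2.dvd_or_dvd hd with hd | hd
    · exact hp (prime2.dvd_of_dvd_pow hd)
    · exact hq hd
  have hpq' : ¬ (2 : ℤ_[2]) ∣ p * q ^ 2 := by
    intro hd
    rcases prime2.dvd_or_dvd hd with hd | hd
    · exact hp hd
    · exact hq (prime2.dvd_of_dvd_pow hd)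
  obtain ⟨w1, rfl⟩ := even_of w ((prime2.dvd_or_dvd d3).resolve_left hpq)
  rw [nm_two, hT3] at h2
  have h3 : 2 * nm u2 + (p * q ^ 2) * nm v + 4 * (p ^ 2 * q) * nm w1 - 2 * (p * q) * T u2 v w1 = 0 := by
    have : (2 : ℤ_[2]) * (2 * nm u2 + (p * q ^ 2) * nm v + 4 * (p ^ 2 * q) * nm w1
        - 2 * (p * q) * T u2 v w1) = 0 := by linear_combination h2
    simpa [c2] using this
  have d4 : (2 : ℤ_[2]) ∣ (p * q ^ 2) * nm v :=
    ⟨-(nm u2 + 2 * (p ^ 2 * q) * nm w1 - (p * q) * T u2 v w1), by linear_combination h3⟩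
  obtain ⟨v1, rfl⟩ := even_of v ((prime2.dvd_or_dvd d4).resolve_left hpq')
  exact ⟨⟨_, rfl⟩, ⟨_, rfl⟩, ⟨_, rfl⟩⟩

theorem FF_two (Y Y' : ℤ_[2]) (u v w : Cub ℤ_[2] a) :
    FF Y Y' (2 * u) (2 * v) (2 * w) = 8 * FF Y Y' u v w := by
  have e : 2 * u * sig (2 * v) * sig (sig (2 * w)) =
      2 * (2 * (2 * (u * sig v * sig (sig w)))) := by
    rw [sig_two, sig_two, sig_two]; ring
  unfold FF
  rw [nm_two, nm_two, nm_two, e, tr_two, tr_two, tr_two]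
  ring

/-- shape of the pair `(1 + s, 1 - s)` -/
theorem shape (s c : ℤ_[2]) (hc : ¬ (2 : ℤ_[2]) ∣ c) (h : (1 + s) * (1 - s) = 8 * c) :
    ∃ p q : ℤ_[2], ¬ (2 : ℤ_[2]) ∣ p ∧ ¬ (2 : ℤ_[2]) ∣ q ∧
      ((1 + s = 2 * p ∧ 1 - s = 4 * q) ∨ (1 + s = 4 * q ∧ 1 - s = 2 * p)) := by
  have c2 := two_ne
  have key : ∀ Y Y' : ℤ_[2], Y + Y' = 2 → Y * Y' = 8 * c → ∃ Y1 Y1', Y = 2 * Y1 ∧ Y' = 2 * Y1' ∧
      Y1 + Y1' = 1 ∧ Y1 * Y1' = 2 * c := by
    intro Y Y' h1 h2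
    have : (2 : ℤ_[2]) ∣ Y * Y' := ⟨4 * c, by linear_combination h2⟩
    have hY : (2 : ℤ_[2]) ∣ Y := by
      rcases prime2.dvd_or_dvd this with hd | ⟨r, hr⟩
      · exact hd
      · exact ⟨1 - r, by linear_combination h1 - hr⟩
    obtain ⟨Y1, rfl⟩ := hY
    refine ⟨Y1, 1 - Y1, rfl, by linear_combination h1, by ring, ?_⟩
    have : (2 : ℤ_[2]) * (2 * (Y1 * (1 - Y1) - 2 * c)) = 0 := by
      have e : Y' = 2 * (1 - Y1) := by linear_combination h1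
      rw [e] at h2
      linear_combination h2
    have h5 : Y1 * (1 - Y1) - 2 * c = 0 := by simpa [c2] using this
    linear_combination h5
  obtain ⟨Y1, Y1', e1, e2, e3, e4⟩ := key (1 + s) (1 - s) (by ring) h
  have odd_other : ∀ x y : ℤ_[2], x + y = 1 → (2 : ℤ_[2]) ∣ x → ¬ (2 : ℤ_[2]) ∣ y := by
    intro x y hxy hx hy
    have : (2 : ℤ_[2]) ∣ 1 := hxy ▸ dvd_add hx hy
    exact prime2.not_isUnit (isUnit_of_dvd_one this)
  rcases prime2.dvd_or_dvd (⟨c, e4⟩ : (2 : ℤ_[2]) ∣ Y1 * Y1') with hd | hd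
  · -- `Y1` even
    have ho := odd_other _ _ e3 hd
    obtain ⟨q, hq⟩ := hd
    refine ⟨Y1', q, ho, ?_, Or.inr ⟨by rw [e1, hq]; ring, e2⟩⟩
    intro hq2
    apply hc
    have : (2 : ℤ_[2]) * (q * Y1' - c) = 0 := by rw [hq] at e4; linear_combination e4
    have h5 : q * Y1' - c = 0 := by simpa [c2] using this
    have h6 : c = q * Y1' := by linear_combination -h5
    rw [h6]; exact Dvd.dvd.mul_right hq2 _
  · have ho := odd_other _ _ (by rw [add_comm]; exact e3) hd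
    obtain ⟨q, hq⟩ := hd
    refine ⟨Y1, q, ho, ?_, Or.inl ⟨e1, by rw [e2, hq]; ring⟩⟩
    intro hq2
    apply hc
    have : (2 : ℤ_[2]) * (q * Y1 - c) = 0 := by rw [hq] at e4; linear_combination e4
    have h5 : q * Y1 - c = 0 := by simpa [c2] using this
    have h6 : c = q * Y1 := by linear_combination -h5
    rw [h6]; exact Dvd.dvd.mul_right hq2 _

theorem step (s c : ℤ_[2]) (hc : ¬ (2 : ℤ_[2]) ∣ c) (h : (1 + s) * (1 - s) = 8 * c)
    (u v w : Cub ℤ_[2] a) (hF : FF (1 + s) (1 - s) u v w = 0) :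
    ∃ u' v' w', u = 2 * u' ∧ v = 2 * v' ∧ w = 2 * w' ∧ FF (1 + s) (1 - s) u' v' w' = 0 := by
  have main : (∃ u', u = 2 * u') ∧ (∃ v', v = 2 * v') ∧ (∃ w', w = 2 * w') := by
    obtain ⟨p, q, hp, hq, hh⟩ := shape s c hc h
    rcases hh with ⟨h1, h2⟩ | ⟨h1, h2⟩
    · refine core p q hp hq u v w (fun u v w => tr (u * sig v * sig (sig w))) ?_ ?_ ?_
      · intro u v w
        show tr (2 * u * sig v * sig (sig w)) = _
        rw [mul_assoc, mul_assoc, tr_two, ← mul_assoc]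
      · intro u v w
        show tr (u * sig v * sig (sig (2 * w))) = _
        rw [sig_two, sig_two, mul_left_comm, tr_two]
      · unfold FF at hF
        rw [h1, h2] at hF
        linear_combination hF
    · have := core p q hp hq u w v (fun u w v => tr (u * sig v * sig (sig w))) ?_ ?_ ?_
      · exact ⟨this.1, this.2.2, this.2.1⟩
      · intro u v w
        show tr (2 * u * sig w * sig (sig v)) = _
        rw [mul_assoc, mul_assoc, tr_two, ← mul_assoc]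
      · intro u v w
        show tr (u * sig (2 * w) * sig (sig v)) = _
        rw [sig_two, mul_left_comm, mul_assoc, tr_two]
      · unfold FF at hF
        rw [h1, h2] at hF
        linear_combination hF
  obtain ⟨⟨u', rfl⟩, ⟨v', rfl⟩, ⟨w', rfl⟩⟩ := main
  refine ⟨u', v', w', rfl, rfl, rfl, ?_⟩
  rw [FF_two] at hF
  have : (2 : ℤ_[2]) * (2 * (2 * FF (1 + s) (1 - s) u' v' w')) = 0 := by linear_combination hF
  simpa [two_ne] using this

theorem pow_dvd (s c : ℤ_[2]) (hc : ¬ (2 : ℤ_[2]) ∣ c) (h : (1 + s) * (1 - s) = 8 * c) (n : ℕ) :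
    ∀ u v w : Cub ℤ_[2] a, FF (1 + s) (1 - s) u v w = 0 →
      (∃ u', u = 2 ^ n * u') ∧ (∃ v', v = 2 ^ n * v') ∧ (∃ w', w = 2 ^ n * w') := by
  induction n with
  | zero => intro u v w _; exact ⟨⟨u, by simp⟩, ⟨v, by simp⟩, ⟨w, by simp⟩⟩
  | succ n ih =>
    intro u v w hF
    obtain ⟨u', v', w', rfl, rfl, rfl, hF'⟩ := step s c hc h u v w hF
    obtain ⟨⟨u1, rfl⟩, ⟨v1, rfl⟩, ⟨w1, rfl⟩⟩ := ih u' v' w' hF'
    exact ⟨⟨u1, by ring⟩, ⟨v1, by ring⟩, ⟨w1, by ring⟩⟩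

theorem eq_zero_of_pow (x : ℤ_[2]) (h : ∀ n : ℕ, (2 : ℤ_[2]) ^ n ∣ x) : x = 0 := by
  by_contra hx
  have h1 := PadicInt.norm_le_pow_iff_mem_span_pow (p := 2) x
  have h2 : ∀ n : ℕ, ‖x‖ ≤ (2 : ℝ) ^ (-(n : ℤ)) := by
    intro n
    have := (h1 n).2 (by
      rw [Ideal.mem_span_singleton]
      simpa using h n)
    simpa using this
  have h3 : 0 < ‖x‖ := norm_pos_iff.2 hx
  obtain ⟨n, hn⟩ := exists_pow_lt_of_lt_one h3 (by norm_num : (1 / 2 : ℝ) < 1)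
  have h4 := h2 n
  have h5 : (2 : ℝ) ^ (-(n : ℤ)) = (1 / 2) ^ n := by
    rw [zpow_neg, zpow_natCast, one_div, inv_pow]
  rw [h5] at h4
  linarith

theorem cub_zero (x : Cub ℤ_[2] a) (h : ∀ n : ℕ, ∃ x', x = 2 ^ n * x') : x = 0 := by
  have e : ∀ n : ℕ, (2 : Cub ℤ_[2] a) ^ n = C (2 ^ n) := by
    intro n; rw [map_pow, map_ofNat]
  ext
  · refine eq_zero_of_pow _ fun n => ?_
    obtain ⟨x', hx'⟩ := h n
    exact ⟨x'.x, by rw [hx', e, mul_x, C_x, C_y, C_z]; ring⟩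
  · refine eq_zero_of_pow _ fun n => ?_
    obtain ⟨x', hx'⟩ := h n
    exact ⟨x'.y, by rw [hx', e, mul_y, C_x, C_y, C_z]; ring⟩
  · refine eq_zero_of_pow _ fun n => ?_
    obtain ⟨x', hx'⟩ := h n
    exact ⟨x'.z, by rw [hx', e, mul_z, C_x, C_y, C_z]; ring⟩

theorem anisotropic (s c : ℤ_[2]) (hc : ¬ (2 : ℤ_[2]) ∣ c) (h : (1 + s) * (1 - s) = 8 * c)
    (u v w : Cub ℤ_[2] a) (hF : FF (1 + s) (1 - s) u v w = 0) : u = 0 ∧ v = 0 ∧ w = 0 := by
  refine ⟨cub_zero u fun n => ?_, cub_zero v fun n => ?_, cub_zero w fun n => ?_⟩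
  · exact (pow_dvd s c hc h n u v w hF).1
  · exact (pow_dvd s c hc h n u v w hF).2.1
  · exact (pow_dvd s c hc h n u v w hF).2.2

end DIV

open Cub DIV in
theorem DIV_proof (h : St_SQ2) : St_DIV := by
  intro m a hm s hs h0
  apply hs
  obtain ⟨r, hr⟩ := h m hm
  let φ : Zm m →+* ℤ_[2] := Zsqrtd.lift ⟨r, by push_cast; rw [← hr]; ring⟩
  have hφ : Function.Injective φ := by
    apply Zsqrtd.lift_injective
    intro n hn
    have h1 : 0 ≤ n * n := mul_self_nonneg n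
    have h2 : 0 < m := by omega
    have : (0 : ℤ) < m := by exact_mod_cast h2
    omega
  have hy : φ (yy m) = 1 + r := by
    simp [φ, yy, Zsqrtd.lift]
  have hy' : φ (star (yy m)) = 1 - r := by
    simp [φ, yy, Zsqrtd.lift, sub_eq_add_neg]
  obtain ⟨k, hk⟩ : ∃ k : ℕ, m = 16 * k + 7 := ⟨m / 16, by omega⟩
  have hF : FF (1 + r) (1 - r) (map φ s.u) (map φ s.v) (map φ s.w) = 0 := by
    have h1 := congrArg φ h0
    rw [Cyc.nrd, map_zero, map_sub, map_add, map_add, map_mul, map_mul, map_mul, map_mul, map_mul,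
      map_mul, map_pow, map_pow, hy, hy', ← nm_map, ← nm_map, ← nm_map, ← tr_map, _root_.map_mul,
      _root_.map_mul, map_sig, map_sig, map_sig] at h1
    unfold FF
    linear_combination h1
  have hc : ¬ (2 : ℤ_[2]) ∣ (2 * k + 1 : ℤ_[2]) := by
    rintro ⟨x, hx⟩
    have : (2 : ℤ_[2]) ∣ 1 := ⟨x - k, by linear_combination hx⟩
    exact prime2.not_isUnit (isUnit_of_dvd_one this)
  have hprod : (1 + r) * (1 - r) = 8 * (2 * k + 1 : ℤ_[2]) := by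
    have e : (m : ℤ_[2]) = 16 * k + 7 := by rw [hk]; push_cast; ring
    linear_combination -hr + e
  obtain ⟨hu, hv, hw⟩ := anisotropic r _ hc hprod _ _ _ hF
  have hz : ∀ x : Cub (Zm m) a, map φ x = 0 → x = 0 := by
    intro x hx
    ext1
    · exact hφ ((congrArg Cub.x hx).trans (map_zero φ).symm)
    · exact hφ ((congrArg Cub.y hx).trans (map_zero φ).symm)
    · exact hφ ((congrArg Cub.z hx).trans (map_zero φ).symm)
  ext1
  · exact hz _ hu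
  · exact hz _ hv
  · exact hz _ hw

end Pool.Agent.H791R3.GI
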