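import Mathlib
import Pool.Agent.H791R3.GI.Stubs

/-!
# DSP: displacement of the elements of `Γ(N)`
-/

set_option autoImplicit false

namespace Pool.Agent.H791R3.GI.DSP

open Matrix Cub

/-- determinant of `h - 1` for an invertible matrix -/
theorem det_sub_one {F : Type*} [CommRing F] (h h' : Matrix (Fin 3) (Fin 3) F) (hh : h * h' = 1) :
    (h - 1).det = h.det - h.det * h'.trace + h.trace - 1 := by
  have h1 : h.adjugate = h.det • h' := by
    calc h.adjugate = h.adjugate * (h * h') := by rw [hh, Matrix.mul_one]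
      _ = h.det • h' := by
        rw [← Matrix.mul_assoc, Matrix.adjugate_mul, Matrix.smul_mul, Matrix.one_mul]
  have h2 : (h - 1).det = h.det - h.adjugate.trace + h.trace - 1 := by
    rw [Matrix.det_fin_three, Matrix.det_fin_three, Matrix.adjugate_fin_three,
      Matrix.trace_fin_three, Matrix.trace_fin_three]
    simp [Matrix.sub_apply, Matrix.one_apply]
    ring
  rw [h2, h1, Matrix.trace_smul, smul_eq_mul]

section
variable {p : ℕ} {A E : Type} [CommRing A] [IsDomain A] [IsDiscreteValuationRing A]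
    [StarRing A] [Field E] [StarRing E] [Algebra A E] [IsFractionRing A E]

/-- elements of norm one are integral -/
theorem norm_one_int (L : LD p A E) (d : E) (hd : d * star d = 1) :
    ∃ c : A, algebraMap A E c = d := by
  rcases (ValuationRing.isInteger_or_isInteger A d) with ⟨c, hc⟩ | ⟨c, hc⟩
  · exact ⟨c, hc⟩
  · refine ⟨star c, ?_⟩
    have h1 : star d = d⁻¹ := eq_inv_of_mul_eq_one_right hd
    rw [L.star_map, hc, ← h1, star_star]

/-- `ϖ^r det (h-1)` is integral if `ϖ^r h` is -/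
theorem local_int (L : LD p A E) (h : UJ E) (r : ℕ) (hr : Intg L r (mt h)) :
    ∃ c : A, (algebraMap A E L.ϖ) ^ r * (mt h - 1).det = algebraMap A E c := by
  obtain ⟨M, hM⟩ := hr
  have hJ : (J E).det * (J E).det = 1 := by rw [← Matrix.det_mul, J_mul_J, Matrix.det_one]
  have hdet : (mt h).det * star (mt h).det = 1 := by
    have h1 := congrArg Matrix.det (mt_J h)
    rw [Matrix.det_mul, Matrix.det_mul, Matrix.det_conjTranspose] at h1
    linear_combination (J E).det * h1 - ((mt h).det * star (mt h).det - 1) * hJ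
  have htr : (mt h⁻¹).trace = star (mt h).trace := by
    rw [mt_inv, Matrix.trace_mul_comm, ← Matrix.mul_assoc, J_mul_J, Matrix.one_mul,
      Matrix.trace_conjTranspose]
  obtain ⟨d, hd⟩ := norm_one_int L _ hdet
  have hT : (algebraMap A E L.ϖ) ^ r * (mt h).trace = algebraMap A E M.trace := by
    have h1 := congrArg Matrix.trace hM
    rw [Matrix.trace_smul, smul_eq_mul] at h1
    rw [h1, Matrix.trace_fin_three, Matrix.trace_fin_three]
    simp
  have hT' : (algebraMap A E L.ϖ) ^ r * star (mt h).trace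
      = (-1) ^ r * algebraMap A E (star M.trace) := by
    have h1 := congrArg star hT
    rw [star_mul, star_pow, ← L.star_map, ← L.star_map, L.star_ϖ, map_neg, neg_pow] at h1
    have h2 : ((-1 : E) ^ r) * (-1) ^ r = 1 := by
      rw [← mul_pow]; simp
    linear_combination (-1) ^ r * h1 - (algebraMap A E L.ϖ) ^ r * star (mt h).trace * h2
  refine ⟨L.ϖ ^ r * d - d * ((-1) ^ r * star M.trace) + M.trace - L.ϖ ^ r, ?_⟩
  rw [det_sub_one _ _ (mt_mul_inv h), htr]
  simp only [map_add, map_sub, map_mul, map_pow, map_neg, map_one, hd]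
  linear_combination hT - (mt h).det * hT'

theorem p_ne (L : LD p A E) : (p : A) ≠ 0 := by
  intro h
  have h1 := L.assoc_p
  rw [h] at h1
  exact (pow_ne_zero 2 L.irr.ne_zero) (h1.symm.eq_zero_iff.mpr rfl)

theorem p_not_unit (L : LD p A E) : ¬ IsUnit (p : A) := by
  intro h
  have h1 : IsUnit (L.ϖ ^ 2) := L.assoc_p.isUnit h
  exact L.irr.not_isUnit (isUnit_of_dvd_unit (dvd_pow_self _ two_ne_zero) h1)

theorem N_unit (L : LD p A E) (N : ℕ) (hN : Nat.Coprime N p) : IsUnit (N : A) := by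
  have h1 : IsCoprime (N : ℤ) (p : ℤ) := Nat.isCoprime_iff_coprime.mpr hN
  obtain ⟨u, v, huv⟩ := h1
  have h2 : (u : A) * (N : A) + (v : A) * (p : A) = 1 := by exact_mod_cast congrArg (Int.cast : ℤ → A) huv
  rcases IsLocalRing.isUnit_or_isUnit_of_add_one h2 with h3 | h3
  · exact isUnit_of_mul_isUnit_right h3
  · exact absurd (isUnit_of_mul_isUnit_right h3) (p_not_unit L)

end

/-! ### the archimedean estimate -/

/-- real root -/
theorem exists_root (a : ℤ) (ha : 0 ≤ a) : ∃ t : ℝ, t ^ 3 = a * t ^ 2 + (a + 3) * t + 1 := by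
  have ha' : (0 : ℝ) ≤ a := by exact_mod_cast ha
  have hc : ContinuousOn (fun t : ℝ => t ^ 3 - (a * t ^ 2 + (a + 3) * t + 1)) (Set.Icc 0 (a + 3)) := by
    fun_prop
  have h := intermediate_value_Icc (by linarith : (0 : ℝ) ≤ (a : ℝ) + 3) hc
  have h0 : (0 : ℝ) ∈ Set.Icc ((fun t : ℝ => t ^ 3 - (a * t ^ 2 + (a + 3) * t + 1)) 0)
      ((fun t : ℝ => t ^ 3 - (a * t ^ 2 + (a + 3) * t + 1)) (a + 3)) := by
    constructor
    · norm_num
    · have : (2 : ℝ) * ((a : ℝ) + 3) ^ 2 - 1 ≥ 0 := by nlinarith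
      simp only
      nlinarith
  obtain ⟨t, _, ht⟩ := h h0
  exact ⟨t, by simpa [sub_eq_zero] using ht⟩

/-- the complex embedding -/
noncomputable def phi (m : ℕ) : Zm m →+* ℂ :=
  Zsqrtd.lift ⟨Complex.I * (Real.sqrt m : ℂ), by
    have h : ((Real.sqrt m : ℝ) : ℂ) * ((Real.sqrt m : ℝ) : ℂ) = (m : ℂ) := by
      rw [← Complex.ofReal_mul, Real.mul_self_sqrt (Nat.cast_nonneg m)]; simp
    push_cast
    linear_combination (Complex.I * Complex.I) * h + (m : ℂ) * Complex.I_mul_I⟩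

theorem phi_apply (m : ℕ) (x : Zm m) : phi m x = x.re + x.im * (Complex.I * (Real.sqrt m : ℂ)) := rfl

theorem phi_star (m : ℕ) (x : Zm m) : phi m (star x) = star (phi m x) := by
  simp [phi_apply, Complex.ext_iff]

theorem phi_norm (m : ℕ) (x : Zm m) : ‖phi m x‖ ^ 2 = (Zsqrtd.norm x : ℝ) := by
  rw [← Complex.normSq_eq_norm_sq, phi_apply, Complex.normSq_apply, Zsqrtd.norm_def]
  have h := Real.mul_self_sqrt (Nat.cast_nonneg (α := ℝ) m)
  simp
  linear_combination (x.im : ℝ) * x.im * h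

/-- archimedean estimate -/
theorem arch {m : ℕ} {a : ℤ} (ha : 0 ≤ a) (x z : Ord m a) (P N : ℕ) (hP : 0 < P)
    (hx : x * star x = ((P ^ 2 : ℕ) : Ord m a))
    (hxz : x = (P : Ord m a) + (N : Ord m a) * z) :
    (N : ℝ) ^ 3 * ‖phi m (Cyc.nrd z)‖ ≤ 8 * (P : ℝ) ^ 3 := by
  obtain ⟨t, ht⟩ := exists_root a ha
  have htC : Cub.IsRt a (t : ℂ) := by
    unfold Cub.IsRt
    exact_mod_cast congrArg (Complex.ofReal) ht
  set ψ : Cub (Zm m) a →+* ℂ := Cub.ev (phi m) (t : ℂ) htC with hψ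
  have hψs : ∀ s, ψ (star s) = star (ψ s) := by
    intro s
    simp only [hψ, Cub.ev_apply, Cub.star_x, Cub.star_y, Cub.star_z, phi_star, star_add, star_mul',
      star_pow]
    simp
  set Ψ : Ord m a →+* Matrix (Fin 3) (Fin 3) ℂ := (ψ.mapMatrix).comp Cyc.Phi with hΨ
  have hΨs : ∀ s, Ψ (star s) = (Ψ s)ᴴ := by
    intro s
    simp only [hΨ, RingHom.comp_apply, Cyc.Phi_star]
    ext i j
    simp [Matrix.conjTranspose_apply, hψs]
  have hΨd : ∀ s, (Ψ s).det = phi m (Cyc.nrd s) := by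
    intro s
    rw [hΨ, RingHom.comp_apply, ← RingHom.map_det, Cyc.det_Phi, hψ, Cub.ev_C]
  have hP0 : (P : ℂ) ≠ 0 := by exact_mod_cast hP.ne'
  have hX : Ψ x * (Ψ x)ᴴ = ((P : ℂ) ^ 2) • (1 : Matrix (Fin 3) (Fin 3) ℂ) := by
    rw [← hΨs, ← map_mul, hx, map_natCast]
    ext i j
    simp [Matrix.natCast_apply, Matrix.one_apply]
  set U : Matrix (Fin 3) (Fin 3) ℂ := (P : ℂ)⁻¹ • Ψ x with hU
  have hUs : Uᴴ = (P : ℂ)⁻¹ • (Ψ x)ᴴ := by
    rw [hU, Matrix.conjTranspose_smul]; simp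
  have hUU : U * Uᴴ = 1 := by
    rw [hUs, hU, Matrix.smul_mul, Matrix.mul_smul, hX, smul_smul, smul_smul]
    have : (P : ℂ)⁻¹ * (P : ℂ)⁻¹ * (P : ℂ) ^ 2 = 1 := by field_simp
    rw [this, one_smul]
  have hmem : U ∈ Matrix.unitaryGroup (Fin 3) ℂ := by
    rw [Matrix.mem_unitaryGroup_iff]
    exact hUU
  have hent : ∀ i j, ‖U i j‖ ≤ 1 := fun i j => entry_norm_bound_of_unitary hmem i j
  have htr : ‖U.trace‖ ≤ 3 := by
    rw [Matrix.trace_fin_three]
    calc ‖U 0 0 + U 1 1 + U 2 2‖ ≤ ‖U 0 0‖ + ‖U 1 1‖ + ‖U 2 2‖ := norm_add₃_le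
      _ ≤ 1 + 1 + 1 := add_le_add (add_le_add (hent _ _) (hent _ _)) (hent _ _)
      _ = 3 := by norm_num
  have hdet : ‖U.det‖ = 1 := by
    have h1 := congrArg Matrix.det hUU
    rw [Matrix.det_mul, Matrix.det_conjTranspose, Matrix.det_one] at h1
    have h2 : ‖U.det‖ * ‖U.det‖ = 1 := by
      have := congrArg norm h1
      rwa [norm_mul, norm_star, norm_one] at this
    nlinarith [norm_nonneg U.det]
  have hdet1 : ‖(U - 1).det‖ ≤ 8 := by
    rw [det_sub_one _ _ hUU, Matrix.trace_conjTranspose]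
    calc ‖U.det - U.det * star U.trace + U.trace - 1‖
        ≤ ‖U.det - U.det * star U.trace + U.trace‖ + ‖(1 : ℂ)‖ := norm_sub_le _ _
      _ ≤ (‖U.det - U.det * star U.trace‖ + ‖U.trace‖) + ‖(1 : ℂ)‖ := by
          gcongr; exact norm_add_le _ _
      _ ≤ ((‖U.det‖ + ‖U.det * star U.trace‖) + ‖U.trace‖) + ‖(1 : ℂ)‖ := by
          gcongr; exact norm_sub_le _ _
      _ ≤ ((1 + 1 * 3) + 3) + 1 := by
          rw [norm_mul, norm_star, hdet, norm_one]
          linarith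
      _ = 8 := by norm_num
  have hNz : (P : ℂ) • (U - 1) = (N : ℂ) • Ψ z := by
    have h1 : Ψ x = (P : ℂ) • (1 : Matrix (Fin 3) (Fin 3) ℂ) + (N : ℂ) • Ψ z := by
      rw [hxz, map_add, map_mul, map_natCast, map_natCast]
      congr 1
      · ext i j
        simp [Matrix.natCast_apply, Matrix.one_apply]
      · rw [← nsmul_eq_mul]
        ext i j
        simp
    rw [smul_sub, hU, smul_smul, mul_inv_cancel₀ hP0, one_smul, h1, add_sub_cancel_left]
  have h3 := congrArg (fun M => ‖Matrix.det M‖) hNz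
  simp only [Matrix.det_smul, Fintype.card_fin, norm_mul, norm_pow, hΨd, Complex.norm_natCast] at h3
  rw [← h3]
  have : (0 : ℝ) ≤ (P : ℝ) ^ 3 := by positivity
  nlinarith

end Pool.Agent.H791R3.GI.DSP

namespace Pool.Agent.H791R3.GI

open Matrix Cub DSP

theorem DSP_proof (_h1 : St_ADJ) (h2 : St_DIV) (h3 : St_SAT) (h4 : St_SATZ) (h5 : St_NPM) :
    St_DSP := by
  intro p m a A E _ _ _ _ _ _ _ _ G hP N hN hNp γ hγ hγ1 g r hr
  obtain ⟨k0, z0, hz0⟩ := hγ
  have hpA : (p : A) ≠ 0 := p_ne G.toLD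
  have hpE : (p : E) ≠ 0 := by
    intro h
    apply hpA
    apply IsFractionRing.injective A E
    simpa using h
  have hNE : (N : E) ≠ 0 := by
    intro h
    have h1 : (N : A) = 0 := by
      apply IsFractionRing.injective A E
      simpa using h
    exact (N_unit G.toLD N hNp).ne_zero h1
  -- enlarge `k`
  obtain ⟨k, z, hkr, hkz⟩ : ∃ (k : ℕ) (z : Ord m a), r ≤ k ∧
      (p : E) ^ k • (mt γ - 1) = (N : E) • rhoE G z := by
    refine ⟨r + k0, ((p ^ r : ℕ) : Ord m a) * z0, Nat.le_add_right _ _, ?_⟩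
    rw [rhoE_natCast_mul, pow_add, mul_smul, hz0, smul_comm]
    push_cast
    rfl
  have hz : z ≠ 0 := by
    intro h
    rw [h, rhoE_zero, smul_zero] at hkz
    have h1 : mt γ - 1 = 0 := by
      rcases smul_eq_zero.mp hkz with h | h
      · exact absurd h (pow_ne_zero _ hpE)
      · exact h
    apply hγ1
    apply mt_injective
    rw [mt_one]
    exact sub_eq_zero.mp h1
  have hnu : Cyc.nrd z ≠ 0 := h2 m a hP.mod z hz
  -- the element `x`
  set x : Ord m a := ((p ^ k : ℕ) : Ord m a) + (N : Ord m a) * z with hx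
  have hxE : (p : E) ^ k • mt γ = rhoE G x := by
    have e1 : rhoE G (1 : Ord m a) = 1 := by
      simp [rhoE]
    have e2 : ((p ^ k : ℕ) : Ord m a) = ((p ^ k : ℕ) : Ord m a) * 1 := by rw [mul_one]
    rw [hx, rhoE_add, e2, rhoE_natCast_mul, rhoE_natCast_mul, e1, ← hkz, smul_sub]
    push_cast
    abel
  obtain ⟨hxx, -, -⟩ := h5 p m a A E G hP γ k x hxE
  -- archimedean estimate
  have hpp : 0 < p := hP.prime.pos
  have ha : 0 ≤ a := by
    have h1 := hP.ha
    have h2 := hP.five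
    have h3 : (5 : ℤ) ≤ p := by exact_mod_cast h2
    omega
  have harch := arch ha x z (p ^ k) N (pow_pos hpp k) (by rw [hxx, ← pow_mul, mul_comm]) hx
  -- local computation
  have hconj : (mt (g⁻¹ * γ * g) - 1).det = (mt γ - 1).det := by
    have e : mt (g⁻¹ * γ * g) - 1 = mt g⁻¹ * (mt γ - 1) * mt g := by
      rw [mt_mul, mt_mul, Matrix.mul_sub, Matrix.sub_mul, Matrix.mul_one, mt_inv_mul]
    have e2 : (mt g⁻¹).det * (mt g).det = 1 := by
      rw [← Matrix.det_mul, mt_inv_mul, Matrix.det_one]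
    rw [e, Matrix.det_mul, Matrix.det_mul]
    linear_combination (mt γ - 1).det * e2
  obtain ⟨c, hc⟩ := local_int G.toLD _ r hr
  rw [hconj] at hc
  have hglob : ((p : E) ^ k) ^ 3 * (mt γ - 1).det
      = (N : E) ^ 3 * algebraMap A E (G.ι (Cyc.nrd z)) := by
    have e := congrArg Matrix.det hkz
    rw [Matrix.det_smul, Matrix.det_smul, Fintype.card_fin] at e
    rw [e, rhoE, ← (h3 p m a A E G hP).2.2 z, RingHom.map_det]
    rfl
  have hA : G.ϖ ^ r * ((N : A) ^ 3 * G.ι (Cyc.nrd z)) = (p : A) ^ (3 * k) * c := by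
    apply IsFractionRing.injective A E
    simp only [map_mul, map_pow, map_natCast]
    rw [← hglob]
    linear_combination ((p : E) ^ k) ^ 3 * hc
  have hdvd : G.ϖ ^ (6 * k - r) ∣ G.ι (Cyc.nrd z) := by
    have e1 : G.ϖ ^ (6 * k) ∣ G.ϖ ^ r * ((N : A) ^ 3 * G.ι (Cyc.nrd z)) := by
      rw [hA]
      apply dvd_mul_of_dvd_left
      have e2 : Associated ((p : A) ^ (3 * k)) ((G.ϖ ^ 2) ^ (3 * k)) := G.assoc_p.pow_pow
      rw [← pow_mul, show 2 * (3 * k) = 6 * k by ring] at e2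
      exact e2.symm.dvd
    have e3 : 6 * k = r + (6 * k - r) := by omega
    rw [e3, pow_add, mul_dvd_mul_iff_left (pow_ne_zero _ G.irr.ne_zero)] at e1
    exact (((N_unit G.toLD N hNp).pow 3).dvd_mul_left).mp e1
  obtain ⟨nu', hnu'⟩ := h4 p m a A E G hP (Cyc.nrd z) (6 * k - r) hdvd
  have he : (6 * k - r) / 2 = 3 * k - (r + 1) / 2 := by omega
  rw [he] at hnu'
  have hnu'0 : nu' ≠ 0 := by
    intro h
    rw [h, mul_zero] at hnu'
    exact hnu hnu'
  have hm : 0 < m := by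
    have := hP.mod
    omega
  have hnorm : (1 : ℝ) ≤ ‖phi m nu'‖ := by
    have e1 := phi_norm m nu'
    have e2 : (0 : ℤ) < Zsqrtd.norm nu' := by
      have e3 : 0 ≤ Zsqrtd.norm nu' := Zsqrtd.norm_nonneg (by omega) nu'
      have e4 : Zsqrtd.norm nu' ≠ 0 := by
        intro h
        exact hnu'0 ((Zsqrtd.norm_eq_zero_iff (by omega) nu').mp h)
      omega
    have e5 : (1 : ℝ) ≤ (Zsqrtd.norm nu' : ℝ) := by exact_mod_cast e2
    nlinarith [norm_nonneg (phi m nu')]
  have hfin : (N : ℝ) ^ 3 * (p : ℝ) ^ (3 * k - (r + 1) / 2) ≤ 8 * ((p : ℝ) ^ k) ^ 3 := by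
    have e1 : ‖phi m (Cyc.nrd z)‖ = (p : ℝ) ^ (3 * k - (r + 1) / 2) * ‖phi m nu'‖ := by
      rw [hnu', map_mul, map_pow, map_natCast, norm_mul, norm_pow, Complex.norm_natCast]
    rw [e1] at harch
    push_cast at harch
    have e2 : (0 : ℝ) ≤ (N : ℝ) ^ 3 * (p : ℝ) ^ (3 * k - (r + 1) / 2) := by positivity
    nlinarith
  have hsplit : ((p : ℝ) ^ k) ^ 3 = (p : ℝ) ^ (3 * k - (r + 1) / 2) * (p : ℝ) ^ ((r + 1) / 2) := by
    rw [← pow_mul, ← pow_add]
    congr 1
    omega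
  rw [hsplit] at hfin
  have hpos : (0 : ℝ) < (p : ℝ) ^ (3 * k - (r + 1) / 2) := by positivity
  have hres : (N : ℝ) ^ 3 ≤ 8 * (p : ℝ) ^ ((r + 1) / 2) := by
    by_contra hcon
    push Not at hcon
    nlinarith
  exact_mod_cast hres

end Pool.Agent.H791R3.GI
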