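import Mathlib
import Pool.Agent.H791R3.GI.Stubs

/-!
# FIN: polynomially many double cosets
-/

set_option autoImplicit false

namespace Pool.Agent.H791R3.GI.FIN

open Matrix Cub
open Pool.Agent.H791R3.GI

/-- natural number codes for the classes modulo `n` -/
theorem code (h5 : St_CRD) {p : ℕ} {A E : Type} [CommRing A] [IsDomain A]
    [IsDiscreteValuationRing A] [StarRing A] [Field E] [StarRing E] [Algebra A E]
    [IsFractionRing A E] (L : LD p A E) (n : ℕ) (hn : 0 < n) :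
    ∃ f : A → ℕ, (∀ r, f r < n ^ 2) ∧ ∀ r r', f r = f r' → ∃ v, r' - r = (n : A) * v := by
  obtain ⟨hfin, hcard⟩ := h5 p A E L n hn
  refine ⟨fun r => (Finite.equivFin (A ⧸ Ideal.span {(n : A)})
    (Ideal.Quotient.mk (Ideal.span {(n : A)}) r) : ℕ), ?_, ?_⟩
  · intro r
    exact lt_of_lt_of_le (Fin.is_lt _) hcard
  · intro r r' h
    have h1 := (Finite.equivFin (A ⧸ Ideal.span {(n : A)})).injective (Fin.ext h)
    rw [Ideal.Quotient.eq, Ideal.mem_span_singleton] at h1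
    obtain ⟨v, hv⟩ := h1
    refine ⟨-v, ?_⟩
    rw [mul_neg, ← hv]; ring

/-- iterated saturation -/
theorem sat (h4 : St_SAT) {p m : ℕ} {a : ℤ} {A E : Type} [CommRing A] [IsDomain A]
    [IsDiscreteValuationRing A] [StarRing A] [Field E] [StarRing E] [Algebra A E]
    [IsFractionRing A E] (G : GD p m a A E) (hP : Par p m a) :
    ∀ (n : ℕ) (s : Ord m a), (∀ i j, (p : A) ^ n ∣ rho G s i j) →
      ∃ z : Ord m a, s = ((p ^ n : ℕ) : Ord m a) * z := by
  have hp0 : (p : A) ≠ 0 := by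
    intro h0
    have h := G.assoc_p
    rw [h0] at h
    have h' := h.symm
    rw [associated_zero_iff_eq_zero] at h'
    exact G.irr.ne_zero (pow_eq_zero_iff (two_ne_zero) |>.mp h')
  intro n
  induction n with
  | zero => intro s _; exact ⟨s, by simp⟩
  | succ n ih =>
    intro s hs
    obtain ⟨z, hz⟩ := (h4 p m a A E G hP).1 s
      (fun i j => (dvd_pow_self _ (Nat.succ_ne_zero n)).trans (hs i j))
    have h1 : ∀ i j, (p : A) ^ n ∣ rho G z i j := by
      intro i j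
      have h2 := hs i j
      have h3 : rho G s i j = (p : A) * rho G z i j := by
        rw [hz, ← nsmul_eq_mul, map_nsmul, Matrix.smul_apply, nsmul_eq_mul]
      rw [h3, pow_succ'] at h2
      exact (mul_dvd_mul_iff_left hp0).mp h2
    obtain ⟨z', hz'⟩ := ih z h1
    refine ⟨z', ?_⟩
    rw [hz, hz', pow_succ', Nat.cast_mul, mul_assoc]

/-- `ρ(x x*) = p^{2j} w J w* J` -/
theorem rho_xx {p m : ℕ} {a : ℤ} {A E : Type} [CommRing A] [IsDomain A]
    [IsDiscreteValuationRing A] [StarRing A] [Field E] [StarRing E] [Algebra A E]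
    [IsFractionRing A E] (G : GD p m a A E) (g : UJ E) (j : ℕ) (x : Ord m a)
    (w : Matrix (Fin 3) (Fin 3) A)
    (h : rhoE G x * mt g = (p : E) ^ j • w.map (algebraMap A E)) (i k : Fin 3) :
    (p : A) ^ (2 * j) ∣ rho G (x * star x) i k := by
  have hJ : (J A).map (algebraMap A E) = J E := by
    ext i j
    fin_cases i <;> fin_cases j <;> simp [J]
  have hs : (wᴴ).map (algebraMap A E) = (w.map (algebraMap A E))ᴴ := by
    ext i j
    simp [Matrix.conjTranspose_apply, G.star_map]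
  have h1 : rhoE G (x * star x) = (p : E) ^ (2 * j) • (w * J A * wᴴ * J A).map (algebraMap A E) := by
    rw [Matrix.map_mul, Matrix.map_mul, Matrix.map_mul, hJ, hs, rhoE_mul, rhoE_star]
    calc rhoE G x * (J E * (rhoE G x)ᴴ * J E)
        = rhoE G x * (J E) * (rhoE G x)ᴴ * J E := by simp only [Matrix.mul_assoc]
      _ = rhoE G x * (mt g * J E * (mt g)ᴴ) * (rhoE G x)ᴴ * J E := by rw [mt_J]
      _ = (rhoE G x * mt g) * J E * (rhoE G x * mt g)ᴴ * J E := by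
          rw [conjTranspose_mul]; simp only [Matrix.mul_assoc]
      _ = _ := by
          rw [h, conjTranspose_smul, Matrix.smul_mul, Matrix.smul_mul, Matrix.mul_smul,
            Matrix.smul_mul, Matrix.smul_mul, smul_smul]
          congr 1
          rw [star_pow, star_natCast, two_mul, pow_add]
  have h2 := congrFun (congrFun h1 i) k
  refine ⟨(w * J A * wᴴ * J A) i k, ?_⟩
  apply IsFractionRing.injective A E
  have h3 : algebraMap A E ((p : A) ^ (2 * j) * (w * J A * wᴴ * J A) i k)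
      = (p : E) ^ (2 * j) * algebraMap A E ((w * J A * wᴴ * J A) i k) := by
    rw [(algebraMap A E).map_mul, (algebraMap A E).map_pow, map_natCast]
  rw [h3]
  exact h2

/-- congruent coordinates -/
theorem co_cong (h1 : St_CO) {m : ℕ} {a : ℤ} (M : ℕ) (x x' : Ord m a)
    (h : ∀ i j k, (M : ℤ) ∣ co x' i j k - co x i j k) : ∃ u : Ord m a, x' - x = (M : Ord m a) * u := by
  choose c hc using h
  obtain ⟨e1, e2, e3, e4, e5⟩ := h1 m a
  refine ⟨ofco m a c, ?_⟩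
  have h2 : co (x' - x) = co ((M : Ord m a) * ofco m a c) := by
    funext i j k
    rw [e5, e2, e4, ← hc]
    rfl
  rw [← e1 (x' - x), h2, e1]

/-- `p^j ≡ 1` modulo the prime-to-`p` numbers `≤ B` if `B! ∣ j` -/
theorem pw (p B n j : ℕ) (hn : 0 < n) (hB : n ≤ B) (hc : Nat.Coprime p n) (hj : B.factorial ∣ j) :
    (n : ℤ) ∣ (p : ℤ) ^ j - 1 := by
  have h1 : n.totient ∣ j :=
    (Nat.dvd_factorial (Nat.totient_pos.mpr hn) ((Nat.totient_le n).trans hB)).trans hj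
  obtain ⟨r, rfl⟩ := h1
  have h2 : p ^ (n.totient * r) ≡ 1 [MOD n] := by
    rw [pow_mul]
    simpa using (Nat.ModEq.pow_totient hc).pow r
  have h3 := (Int.natCast_modEq_iff.mpr h2).symm.dvd
  simpa using h3

/-- the invariants of `g` -/
theorem data (h1 : St_CO) (h2 : St_ADJ) (h3 : St_DIV) (h4 : St_SAT) (h6 : St_PIG) (K0 : ℕ)
    (h7 : ∀ (p m : ℕ) (a : ℤ), Par p m a →
      (∀ (s : Ord m a) (Q : ℕ), cle s Q → cle (s * star s) (K0 * p ^ K0 * Q ^ 2)) ∧
      (∀ (s : Ord m a) (Q : ℕ), cle s Q →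
        (Zsqrtd.norm (Cyc.nrd s)).natAbs ≤ K0 * p ^ K0 * Q ^ 6))
    {p m : ℕ} {a : ℤ} {A E : Type} [CommRing A] [IsDomain A]
    [IsDiscreteValuationRing A] [StarRing A] [Field E] [StarRing E] [Algebra A E]
    [IsFractionRing A E] (G : GD p m a A E) (hP : Par p m a) (t : ℕ) (ht : 0 < t) (g : UJ E) :
    ∃ (j : ℕ) (x s : Ord m a) (w : Matrix (Fin 3) (Fin 3) A), t ∣ j ∧
      0 < (Zsqrtd.norm (Cyc.nrd s)).natAbs ∧
      (Zsqrtd.norm (Cyc.nrd s)).natAbs ≤ (K0 * p ^ K0) ^ 7 ∧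
      cle s (K0 * p ^ K0) ∧
      s * (adj s * cen (star (Cyc.nrd s))) = (((Zsqrtd.norm (Cyc.nrd s)).natAbs : ℕ) : Ord m a) ∧
      (adj s * cen (star (Cyc.nrd s))) * s = (((Zsqrtd.norm (Cyc.nrd s)).natAbs : ℕ) : Ord m a) ∧
      rhoE G x * mt g = (p : E) ^ j • w.map (algebraMap A E) ∧
      x * star x = ((p ^ (2 * j) : ℕ) : Ord m a) * s := by
  obtain ⟨j, htj, x, hx0, hcx, w, hw⟩ := h6 p m a A E G hP g t ht
  obtain ⟨s, hs⟩ := sat h4 G hP (2 * j) (x * star x) (fun i k => rho_xx G g j x w hw i k)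
  obtain ⟨e1, e2, e3, e4, e5⟩ := h1 m a
  obtain ⟨a1, a2, a3, a4, a5, a6, a7⟩ := h2 (Zm m) a (yy m)
  obtain ⟨b1, b2⟩ := h7 p m a hP
  have hp : 0 < p := hP.prime.pos
  have hm : 0 < m := by
    have := hP.mod
    omega
  have hcs : cle s (K0 * p ^ K0) := by
    intro i k l
    have h8 := b1 x (p ^ j) hcx i k l
    rw [hs, e5, abs_mul] at h8
    have h9 : |((p ^ (2 * j) : ℕ) : ℤ)| = ((p ^ (2 * j) : ℕ) : ℤ) := abs_of_nonneg (by positivity)
    rw [h9] at h8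
    have h10 : ((K0 * p ^ K0 * (p ^ j) ^ 2 : ℕ) : ℤ)
        = ((p ^ (2 * j) : ℕ) : ℤ) * ((K0 * p ^ K0 : ℕ) : ℤ) := by
      push_cast; ring
    rw [h10] at h8
    exact le_of_mul_le_mul_left h8 (by positivity)
  have hnorm : ∀ z : Zm m, Zsqrtd.norm z = 0 ↔ z = 0 := by
    intro z
    apply Zsqrtd.norm_eq_zero
    intro n hn
    have : 0 ≤ n * n := mul_self_nonneg n
    omega
  have hne : Zsqrtd.norm (Cyc.nrd s) ≠ 0 := by
    intro h0
    have h8 : Cyc.nrd (x * star x) = Cyc.nrd (((p ^ (2 * j) : ℕ) : Ord m a) * s) := by rw [hs]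
    rw [a5, a5, a6, (hnorm _).mp h0, mul_zero] at h8
    have h9 := congrArg Zsqrtd.norm h8
    rw [Zsqrtd.norm_mul, Zsqrtd.norm_conj, Zsqrtd.norm_zero, mul_self_eq_zero, hnorm] at h9
    exact h3 m a hP.mod x hx0 h9
  have hnn : 0 ≤ Zsqrtd.norm (Cyc.nrd s) := Zsqrtd.norm_nonneg (by omega) _
  have hM : (cen (Cyc.nrd s) : Ord m a) * cen (star (Cyc.nrd s))
      = (((Zsqrtd.norm (Cyc.nrd s)).natAbs : ℕ) : Ord m a) := by
    rw [a3, ← a4]
    congr 1
    rw [← Zsqrtd.norm_eq_mul_conj]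
    have h8 : ((Zsqrtd.norm (Cyc.nrd s)).natAbs : ℤ) = Zsqrtd.norm (Cyc.nrd s) :=
      Int.natAbs_of_nonneg hnn
    conv_lhs => rw [← h8]
    simp
  refine ⟨j, x, s, w, htj, Int.natAbs_pos.mpr hne, ?_, hcs, ?_, ?_, hw, hs⟩
  · have := b2 s _ hcs
    calc _ ≤ _ := this
      _ = _ := by ring
  · rw [← mul_assoc, (a1 s).1, hM]
  · rw [mul_assoc, a2, ← mul_assoc, (a1 s).2, hM]

/-- numerical bound -/
theorem bnd (K0 p : ℕ) (hp : 5 ≤ p) :
    (2 * (K0 * p ^ K0) + 1) ^ 18 * ((K0 * p ^ K0) ^ 7 + 1) ^ 18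
      * ((p * (K0 * p ^ K0) ^ 7) ^ 2 + 1) ^ 9
      ≤ ((K0 + 1) ^ 333 + (K0 + 1) * 333) * p ^ ((K0 + 1) ^ 333 + (K0 + 1) * 333) := by
  set b := K0 * p ^ K0 with hb
  set c := (K0 + 1) * p ^ (K0 + 1) with hc
  have hp0 : 0 < p := by omega
  have h1 : p ≤ c := by
    rw [hc]
    calc p = 1 * p ^ 1 := by ring
      _ ≤ (K0 + 1) * p ^ (K0 + 1) :=
        Nat.mul_le_mul (by omega) (Nat.pow_le_pow_right hp0 (by omega))
  have h2 : b ≤ c := Nat.mul_le_mul (by omega) (Nat.pow_le_pow_right hp0 (by omega))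
  have hc5 : 5 ≤ c := hp.trans h1
  have h3 : 2 * b + 1 ≤ c ^ 2 := by nlinarith
  have key : ∀ n : ℕ, 1 ≤ n → c ^ n + 1 ≤ c ^ (n + 1) := by
    intro n hn
    have : 1 ≤ c ^ n := Nat.one_le_pow _ _ (by omega)
    rw [pow_succ]
    nlinarith
  have h4 : b ^ 7 + 1 ≤ c ^ 8 := (Nat.add_le_add_right (Nat.pow_le_pow_left h2 7) 1).trans
    (key 7 (by norm_num))
  have h5 : (p * b ^ 7) ^ 2 + 1 ≤ c ^ 17 := by
    have h6 : p * b ^ 7 ≤ c ^ 8 := by
      calc p * b ^ 7 ≤ c * c ^ 7 := Nat.mul_le_mul h1 (Nat.pow_le_pow_left h2 7)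
        _ = c ^ 8 := by ring
    have h7 : (p * b ^ 7) ^ 2 ≤ c ^ 16 := by
      calc (p * b ^ 7) ^ 2 ≤ (c ^ 8) ^ 2 := Nat.pow_le_pow_left h6 2
        _ = c ^ 16 := by ring
    exact (Nat.add_le_add_right h7 1).trans (key 16 (by norm_num))
  calc (2 * b + 1) ^ 18 * (b ^ 7 + 1) ^ 18 * ((p * b ^ 7) ^ 2 + 1) ^ 9
      ≤ (c ^ 2) ^ 18 * (c ^ 8) ^ 18 * (c ^ 17) ^ 9 :=
        Nat.mul_le_mul (Nat.mul_le_mul (Nat.pow_le_pow_left h3 _) (Nat.pow_le_pow_left h4 _))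
          (Nat.pow_le_pow_left h5 _)
    _ = c ^ 333 := by rw [← pow_mul, ← pow_mul, ← pow_mul, ← pow_add, ← pow_add]
    _ = (K0 + 1) ^ 333 * p ^ ((K0 + 1) * 333) := by rw [hc, mul_pow, ← pow_mul]
    _ ≤ _ := Nat.mul_le_mul (by omega) (Nat.pow_le_pow_right hp0 (by omega))

end Pool.Agent.H791R3.GI.FIN

namespace Pool.Agent.H791R3.GI

open Matrix Cub

theorem FIN_proof (h1 : St_CO) (h2 : St_ADJ) (h3 : St_DIV) (h4 : St_SAT) (h5 : St_CRD)
    (h6 : St_PIG) (h7 : St_BND) (h8 : St_FIN1) : St_FIN := by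
  obtain ⟨K0, h7⟩ := h7
  refine ⟨(K0 + 1) ^ 333 + (K0 + 1) * 333, ?_⟩
  intro p m a A E _ _ _ _ _ _ _ _ G hP
  have hp0 : 0 < p := hP.prime.pos
  have hdat := FIN.data h1 h2 h3 h4 h6 K0 h7 G hP (((K0 * p ^ K0) ^ 7).factorial)
    (Nat.factorial_pos _)
  choose j x s w hj hM0 hM hcs hss hss' hw hxx using hdat
  have hcode := fun n : ℕ => fun hn : 0 < n => FIN.code h5 G.toLD n hn
  choose f hf1 hf2 using hcode
  set b := K0 * p ^ K0 with hb
  let Mf : UJ E → ℕ := fun g => (Zsqrtd.norm (Cyc.nrd (s g))).natAbs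
  have hpM : ∀ g, 0 < p * Mf g := fun g => Nat.mul_pos hp0 (hM0 g)
  -- the three codes
  have c1 : ∀ g i k l, (co (s g) i k l + b).toNat < 2 * b + 1 := by
    intro g i k l
    have := abs_le.mp (hcs g i k l)
    omega
  have c2 : ∀ g i k l, (co (x g) i k l % (Mf g : ℤ)).toNat < b ^ 7 + 1 := by
    intro g i k l
    have e1 := Int.emod_lt_of_pos (co (x g) i k l) (Int.natCast_pos.mpr (hM0 g))
    have e2 : Mf g ≤ b ^ 7 := hM g
    have e3 : (co (x g) i k l % (Mf g : ℤ)) < (Mf g : ℤ) := e1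
    generalize hB : b ^ 7 = B at *
    omega
  have c3 : ∀ g i k, f (p * Mf g) (hpM g) (w g i k) < (p * b ^ 7) ^ 2 + 1 := by
    intro g i k
    have e1 := hf1 (p * Mf g) (hpM g) (w g i k)
    have e2 : (p * Mf g) ^ 2 ≤ (p * b ^ 7) ^ 2 :=
      Nat.pow_le_pow_left (Nat.mul_le_mul_left p (hM g)) 2
    exact Nat.lt_succ_of_lt (e1.trans_le e2)
  let I : UJ E → (Fin 3 → Fin 3 → Fin 2 → Fin (2 * b + 1)) ×
      (Fin 3 → Fin 3 → Fin 2 → Fin (b ^ 7 + 1)) ×
      (Fin 3 → Fin 3 → Fin ((p * b ^ 7) ^ 2 + 1)) := fun g =>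
    (fun i k l => ⟨_, c1 g i k l⟩, fun i k l => ⟨_, c2 g i k l⟩, fun i k => ⟨_, c3 g i k⟩)
  have hcard : Fintype.card ((Fin 3 → Fin 3 → Fin 2 → Fin (2 * b + 1)) ×
      (Fin 3 → Fin 3 → Fin 2 → Fin (b ^ 7 + 1)) ×
      (Fin 3 → Fin 3 → Fin ((p * b ^ 7) ^ 2 + 1)))
      ≤ Fintype.card (Fin (((K0 + 1) ^ 333 + (K0 + 1) * 333)
        * p ^ ((K0 + 1) ^ 333 + (K0 + 1) * 333))) := by
    rw [Fintype.card_fin, Fintype.card_prod, Fintype.card_prod]
    simp only [Fintype.card_fun, Fintype.card_fin]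
    rw [← pow_mul, ← pow_mul, ← pow_mul, ← pow_mul, ← pow_mul, ← mul_assoc]
    exact FIN.bnd K0 p hP.five
  obtain ⟨emb⟩ := Function.Embedding.nonempty_of_card_le hcard
  refine ⟨fun g => emb (I g), ?_⟩
  intro g g' hgg
  have hI : I g = I g' := emb.injective hgg
  -- same `s`
  have hs : s g = s g' := by
    obtain ⟨e1, e2, -⟩ := h1 m a
    rw [← e1 (s g), ← e1 (s g')]
    congr 1
    funext i k l
    have e3 : (co (s g) i k l + b).toNat = (co (s g') i k l + b).toNat :=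
      congrArg Fin.val (congrFun (congrFun (congrFun (congrArg Prod.fst hI) i) k) l)
    have e4 := abs_le.mp (hcs g i k l)
    have e5 := abs_le.mp (hcs g' i k l)
    omega
  have hMM : Mf g = Mf g' := by
    show (Zsqrtd.norm (Cyc.nrd (s g))).natAbs = (Zsqrtd.norm (Cyc.nrd (s g'))).natAbs
    rw [hs]
  -- `x` modulo `M`
  have hx : ∃ u : Ord m a, x g' - x g = (Mf g : Ord m a) * u := by
    apply FIN.co_cong h1
    intro i k l
    have e3 : (co (x g) i k l % (Mf g : ℤ)).toNat = (co (x g') i k l % (Mf g' : ℤ)).toNat :=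
      congrArg Fin.val (congrFun (congrFun (congrFun (congrArg (fun q => q.2.1) hI) i) k) l)
    rw [← hMM] at e3
    have hM' : (Mf g : ℤ) ≠ 0 := by
      have := hM0 g
      exact_mod_cast (show Mf g ≠ 0 from this.ne')
    have e4 := Int.emod_nonneg (co (x g) i k l) hM'
    have e5 := Int.emod_nonneg (co (x g') i k l) hM'
    have e6 : co (x g) i k l % (Mf g : ℤ) = co (x g') i k l % (Mf g : ℤ) := by omega
    exact Int.ModEq.dvd e6
  -- `w` modulo `p M`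
  have hw' : ∃ v : Matrix (Fin 3) (Fin 3) A, w g' - w g = ((p * Mf g : ℕ) : A) • v := by
    have e1 : ∀ i k, ∃ v, w g' i k - w g i k = ((p * Mf g : ℕ) : A) * v := by
      intro i k
      apply hf2 (p * Mf g) (hpM g)
      have e3 : f (p * Mf g) (hpM g) (w g i k) = f (p * Mf g') (hpM g') (w g' i k) :=
        congrArg Fin.val (congrFun (congrFun (congrArg (fun q => q.2.2) hI) i) k)
      have e4 : ∀ n (h : n = Mf g) (hn : 0 < p * n),
          f (p * n) hn (w g' i k) = f (p * Mf g) (hpM g) (w g' i k) := by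
        intro n h hn; subst h; rfl
      rw [e3, e4 (Mf g') hMM.symm]
    choose v hv using e1
    refine ⟨v, ?_⟩
    ext i k
    exact hv i k
  obtain ⟨u, hu⟩ := hx
  obtain ⟨v, hv⟩ := hw'
  -- `p^j ≡ p^j'` modulo the prime-to-`p` part of `M`
  obtain ⟨e, n, hn, hMe⟩ := Nat.exists_eq_pow_mul_and_not_dvd (hM0 g).ne' p hP.prime.ne_one
  have hMe' : Mf g = p ^ e * n := hMe
  have hn0 : 0 < n := by
    rcases Nat.eq_zero_or_pos n with h | h
    · exact absurd (h ▸ dvd_zero p) hn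
    · exact h
  have hnB : n ≤ b ^ 7 := by
    refine le_trans ?_ (hM g)
    calc n = 1 * n := (one_mul n).symm
      _ ≤ p ^ e * n := Nat.mul_le_mul_right n (Nat.one_le_pow _ _ hp0)
      _ = _ := hMe.symm
  have hcop : Nat.Coprime p n := (Nat.Prime.coprime_iff_not_dvd hP.prime).mpr hn
  obtain ⟨q1, hq1⟩ := FIN.pw p _ n (j g) hn0 hnB hcop (hj g)
  obtain ⟨q2, hq2⟩ := FIN.pw p _ n (j g') hn0 hnB hcop (hj g')
  refine h8 p m a A E G hP g g' (j g) (j g') e (x g) (x g') (s g)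
    (adj (s g) * cen (star (Cyc.nrd (s g))))
    ((p ^ (e + j g) : ℤ) • u + (q1 - q2) • x g) (w g) (w g') v (Mf g) (hM0 g) (hss g) (hss' g)
    (hw g) (hw g') (hxx g) ?_ hv ?_
  · rw [hs]; exact hxx g'
  · have r1 : ∀ (n : ℕ) (y : Ord m a), (n : Ord m a) * y = (n : ℤ) • y := by
      intro n y
      rw [← nsmul_eq_mul, natCast_zsmul]
    rw [r1] at hu
    have r2 : x g' = x g + (Mf g : ℤ) • u := by rw [← hu]; abel
    rw [r1, r1, r1, r1, r2]
    have r3 : (Mf g : ℤ) = (p : ℤ) ^ e * n := by rw [hMe']; push_cast; ring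
    have r4 : (p : ℤ) ^ j g = 1 + n * q1 := by linarith
    have r5 : (p : ℤ) ^ j g' = 1 + n * q2 := by linarith
    push_cast
    rw [pow_add, r3, r4, r5]
    module

end Pool.Agent.H791R3.GI
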