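import Mathlib
import Pool.Agent.H791R3.GI.Stubs

/-!
# FIN1: two elements with the same invariants are in the same double coset
-/

set_option autoImplicit false
set_option linter.unusedSectionVars false
set_option linter.unusedSimpArgs false

namespace Pool.Agent.H791R3.GI.FIN1

open Matrix Cub Pool.Agent.H791R3.GI

section
variable {p m : ℕ} {a : ℤ} {A E : Type} [CommRing A] [IsDomain A] [IsDiscreteValuationRing A]
    [StarRing A] [Field E] [StarRing E] [Algebra A E] [IsFractionRing A E]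

theorem natCast_ne (L : LD p A E) : ∀ n : ℕ, 0 < n → (n : A) ≠ 0 := by
  have hp0 : (p : A) ≠ 0 := by
    intro h
    have h1 := L.assoc_p
    rw [h] at h1
    have h2 : L.ϖ ^ 2 = 0 := by
      obtain ⟨u, hu⟩ := h1
      rw [zero_mul] at hu
      exact hu.symm
    exact pow_ne_zero 2 L.irr.ne_zero h2
  intro n
  induction n using Nat.strong_induction_on with
  | _ n ih =>
    intro hn h0
    by_cases hp : p ∣ n
    · obtain ⟨q, rfl⟩ := hp
      have hq : 0 < q := Nat.pos_of_ne_zero (by rintro rfl; simp at hn)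
      have hlt : q < p * q := by nlinarith [L.prime.two_le]
      push_cast at h0
      rcases mul_eq_zero.1 h0 with h | h
      · exact hp0 h
      · exact ih q hlt hq h
    · have hc : IsCoprime (n : ℤ) (p : ℤ) := by
        rw [Nat.isCoprime_iff_coprime]
        exact ((Nat.Prime.coprime_iff_not_dvd L.prime).2 hp).symm
      obtain ⟨u, v, huv⟩ := hc
      have h1 : ((u * n + v * p : ℤ) : A) = 1 := by rw [huv]; simp
      push_cast at h1
      rw [h0, mul_zero, zero_add] at h1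
      have hu : IsUnit (p : A) := IsUnit.of_mul_eq_one (v : A) (by rw [mul_comm]; exact h1)
      have h2 : IsUnit (L.ϖ ^ 2) := L.assoc_p.isUnit_iff.1 hu
      exact L.irr.not_isUnit ((isUnit_pow_iff two_ne_zero).1 h2)

theorem natCast_neE (L : LD p A E) (n : ℕ) (hn : 0 < n) : (n : E) ≠ 0 := by
  rw [← map_natCast (algebraMap A E), Ne, IsFractionRing.to_map_eq_zero_iff]
  exact natCast_ne L n hn

theorem rhoE_one (G : GD p m a A E) : rhoE G 1 = 1 := by
  simp only [rhoE, map_one]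
  exact Matrix.map_one _ (map_zero _) (map_one _)

theorem rhoE_natCast (G : GD p m a A E) (n : ℕ) :
    rhoE G (n : Ord m a) = (n : E) • (1 : Matrix (Fin 3) (Fin 3) E) := by
  have := rhoE_natCast_mul G n 1
  rwa [mul_one, rhoE_one] at this

theorem rhoE_sub (G : GD p m a A E) (x z : Ord m a) :
    rhoE G (x - z) = rhoE G x - rhoE G z := by
  have h := rhoE_add G (x - z) z
  rw [sub_add_cancel] at h
  rw [h]; abel

/-- if `κ = 1 + p c` then `κ` and `T κ T'` are integral -/
theorem intg_of (L : LD p A E) (κ : Matrix (Fin 3) (Fin 3) E) (c : Matrix (Fin 3) (Fin 3) A)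
    (h : κ = 1 + (p : E) • c.map (algebraMap A E)) :
    Intg L 0 κ ∧ Intg L 0 (T L * κ * T' L) := by
  refine ⟨?_, ?_⟩
  · rw [Intg.zero_iff]
    refine ⟨1 + (p : A) • c, ?_⟩
    rw [h]
    ext i j
    simp [Matrix.map_apply, Matrix.one_apply, apply_ite (algebraMap A E)]
  · rw [Intg.zero_iff]
    obtain ⟨u, hu⟩ := L.assoc_p.symm
    -- `ϖ² u = p`
    refine ⟨1 + (L.ϖ * u) • (Matrix.diagonal ![1, 1, L.ϖ] * c * Matrix.diagonal ![L.ϖ, L.ϖ, 1]),
      ?_⟩
    have hne := ϖ_ne L
    have hpE : (p : E) = (algebraMap A E L.ϖ) ^ 2 * algebraMap A E u := by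
      rw [← map_pow, ← map_mul, hu, map_natCast]
    rw [h, Matrix.mul_add, Matrix.add_mul, Matrix.mul_one, T_mul_T', hpE]
    ext i j
    rw [T, T', Matrix.mul_assoc]
    simp only [Matrix.add_apply, Matrix.map_apply, Matrix.smul_apply, Matrix.diagonal_mul,
      Matrix.mul_diagonal, Matrix.smul_mul, smul_eq_mul, map_add, map_mul]
    have h1 : (1 : Matrix (Fin 3) (Fin 3) E) i j
        = algebraMap A E ((1 : Matrix (Fin 3) (Fin 3) A) i j) := by
      simp [Matrix.one_apply, apply_ite (algebraMap A E)]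
    rw [h1]
    congr 1
    fin_cases i <;> fin_cases j <;> simp <;> field_simp

theorem mem_KAB (L : LD p A E) (κ : UJ E) (c : Matrix (Fin 3) (Fin 3) A)
    (h : mt κ = 1 + (p : E) • c.map (algebraMap A E)) : κ ∈ KA L ⊓ KB L := by
  have hinv : mt κ⁻¹ = 1 + (p : E) • (J A * cᴴ * J A).map (algebraMap A E) := by
    have hJ : (J A).map (algebraMap A E) = J E := by
      ext i j
      fin_cases i <;> fin_cases j <;> simp [J]
    have hs : (cᴴ).map (algebraMap A E) = (c.map (algebraMap A E))ᴴ := by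
      ext i j
      simp [Matrix.conjTranspose_apply, L.star_map]
    rw [mt_inv, h, conjTranspose_add, conjTranspose_one, conjTranspose_smul, star_natCast,
      Matrix.mul_add, Matrix.add_mul, Matrix.mul_one, J_mul_J, Matrix.map_mul, Matrix.map_mul, hJ,
      hs, Matrix.mul_smul, Matrix.smul_mul]
  obtain ⟨h1, h2⟩ := intg_of L (mt κ) c h
  obtain ⟨h3, h4⟩ := intg_of L (mt κ⁻¹) _ hinv
  exact ⟨⟨h1, h3⟩, ⟨h2, h4⟩⟩

/-- inverse of `Z` from `Z J Zᴴ J = S`, `S S' = M` -/
theorem inv_of {M : E} (hM : M ≠ 0) {Z S S' : Matrix (Fin 3) (Fin 3) E}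
    (hZ : Z * (J E * Zᴴ * J E) = S) (hS : S * S' = M • 1) :
    Z * (M⁻¹ • (J E * Zᴴ * J E * S')) = 1 := by
  rw [Matrix.mul_smul, ← Matrix.mul_assoc, hZ, hS, smul_smul, inv_mul_cancel₀ hM, one_smul]

end

end Pool.Agent.H791R3.GI.FIN1

namespace Pool.Agent.H791R3.GI

open Matrix Cub FIN1

theorem FIN1_proof (_ : St_SAT) : St_FIN1 := by
  intro p m a A E _ _ _ _ _ _ _ _ G hPar g g' j j' k x x' s s' z w w' v M hM hss' hs's hx hx'
    hxx hxx' hw hz
  have hpE : (p : E) ≠ 0 := natCast_neE G.toLD p hPar.prime.pos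
  have hME : (M : E) ≠ 0 := natCast_neE G.toLD M hM
  set X := rhoE G x with hX
  set X' := rhoE G x' with hX'
  set S := rhoE G s with hS
  set S' := rhoE G s' with hS'
  set W := w.map (algebraMap A E) with hW
  set W' := w'.map (algebraMap A E) with hW'
  set V := v.map (algebraMap A E) with hV
  have e3 : X * (J E * Xᴴ * J E) = (p : E) ^ (2 * j) • S := by
    have := congrArg (rhoE G) hxx
    rw [rhoE_mul, rhoE_star, rhoE_natCast_mul] at this
    push_cast at this
    exact this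
  have e4 : X' * (J E * X'ᴴ * J E) = (p : E) ^ (2 * j') • S := by
    have := congrArg (rhoE G) hxx'
    rw [rhoE_mul, rhoE_star, rhoE_natCast_mul] at this
    push_cast at this
    exact this
  have e5 : S * S' = (M : E) • 1 := by
    have := congrArg (rhoE G) hss'
    rwa [rhoE_mul, rhoE_natCast] at this
  have e7 : W' - W = ((p : E) * M) • V := by
    ext i j
    have := congrArg (fun N : Matrix (Fin 3) (Fin 3) A => algebraMap A E (N i j)) hw
    simpa [hW, hW', hV] using this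
  have e8 : (p : E) ^ k • ((p : E) ^ j • X' - (p : E) ^ j' • X) = (M : E) • rhoE G z := by
    have := congrArg (rhoE G) hz
    rw [rhoE_natCast_mul, rhoE_natCast_mul, rhoE_sub, rhoE_natCast_mul, rhoE_natCast_mul] at this
    push_cast at this
    exact this
  -- `Z`, `Z'`
  set Z := ((p : E) ^ j)⁻¹ • X with hZ
  set Z' := ((p : E) ^ j')⁻¹ • X' with hZ'
  have hpj : (p : E) ^ j ≠ 0 := pow_ne_zero _ hpE
  have hpj' : (p : E) ^ j' ≠ 0 := pow_ne_zero _ hpE
  have hZs : Z * (J E * Zᴴ * J E) = S := by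
    rw [hZ, conjTranspose_smul, star_inv₀, star_pow, star_natCast]
    simp only [Matrix.mul_smul, Matrix.smul_mul, smul_smul]
    rw [e3, smul_smul]
    rw [two_mul, pow_add, ← mul_inv, inv_mul_cancel₀ (mul_ne_zero hpj hpj), one_smul]
  have hZs' : Z' * (J E * Z'ᴴ * J E) = S := by
    rw [hZ', conjTranspose_smul, star_inv₀, star_pow, star_natCast]
    simp only [Matrix.mul_smul, Matrix.smul_mul, smul_smul]
    rw [e4, smul_smul]
    rw [two_mul, pow_add, ← mul_inv, inv_mul_cancel₀ (mul_ne_zero hpj' hpj'), one_smul]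
  have hZg : Z * mt g = W := by
    rw [hZ, Matrix.smul_mul, hx, smul_smul, inv_mul_cancel₀ hpj, one_smul]
  have hZg' : Z' * mt g' = W' := by
    rw [hZ', Matrix.smul_mul, hx', smul_smul, inv_mul_cancel₀ hpj', one_smul]
  have hWs : W * (J E * Wᴴ * J E) = S := by
    rw [← hZg, conjTranspose_mul, ← hZs]
    calc Z * mt g * (J E * ((mt g)ᴴ * Zᴴ) * J E) = Z * (mt g * J E * (mt g)ᴴ) * Zᴴ * J E := by
          simp only [Matrix.mul_assoc]
      _ = _ := by rw [mt_J]; simp only [Matrix.mul_assoc]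
  set Zi := (M : E)⁻¹ • (J E * Zᴴ * J E * S') with hZi
  have i1 : Z * Zi = 1 := inv_of hME hZs e5
  have i2 : Zi * Z = 1 := mul_eq_one_comm.mp i1
  set Zi' := (M : E)⁻¹ • (J E * Z'ᴴ * J E * S') with hZi'
  have i3 : Z' * Zi' = 1 := inv_of hME hZs' e5
  have i4 : Zi' * Z' = 1 := mul_eq_one_comm.mp i3
  set Wi := (M : E)⁻¹ • (J E * Wᴴ * J E * S') with hWi
  have i5 : W * Wi = 1 := inv_of hME hWs e5
  have i6 : Wi * W = 1 := mul_eq_one_comm.mp i5
  -- the element `γ̃ = Z⁻¹ Z'`
  have hZJ : Z * J E * Zᴴ = S * J E := by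
    rw [← hZs]
    calc Z * J E * Zᴴ = Z * J E * Zᴴ * (J E * J E) := by rw [J_mul_J, Matrix.mul_one]
      _ = _ := by simp only [Matrix.mul_assoc]
  have hZJ' : Z' * J E * Z'ᴴ = S * J E := by
    rw [← hZs']
    calc Z' * J E * Z'ᴴ = Z' * J E * Z'ᴴ * (J E * J E) := by rw [J_mul_J, Matrix.mul_one]
      _ = _ := by simp only [Matrix.mul_assoc]
  have hγmem : (Zi * Z') * J E * (Zi * Z')ᴴ = J E := by
    rw [conjTranspose_mul]
    calc Zi * Z' * J E * (Z'ᴴ * Ziᴴ) = Zi * (Z' * J E * Z'ᴴ) * Ziᴴ := by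
          simp only [Matrix.mul_assoc]
      _ = Zi * (Z * J E * Zᴴ) * Ziᴴ := by rw [hZJ', hZJ]
      _ = (Zi * Z) * J E * (Zi * Z)ᴴ := by
          rw [conjTranspose_mul]; simp only [Matrix.mul_assoc]
      _ = J E := by rw [i2]; simp
  let γ0 : GL (Fin 3) E := ⟨Zi * Z', Zi' * Z, by
    calc Zi * Z' * (Zi' * Z) = Zi * (Z' * Zi') * Z := by simp only [Matrix.mul_assoc]
      _ = 1 := by rw [i3, Matrix.mul_one, i2], by
    calc Zi' * Z * (Zi * Z') = Zi' * (Z * Zi) * Z' := by simp only [Matrix.mul_assoc]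
      _ = 1 := by rw [i1, Matrix.mul_one, i4]⟩
  let γ : UJ E := ⟨γ0, hγmem⟩
  have hγmt : mt γ = Zi * Z' := rfl
  have hγG : γ ∈ Gam G 1 := by
    refine ⟨k + 2 * j + j', star x * s' * z, ?_⟩
    rw [rhoE_mul, rhoE_mul, rhoE_star, Nat.cast_one, one_smul, hγmt]
    have hd : Zi * Z' - 1 = Zi * (Z' - Z) := by rw [Matrix.mul_sub, i2]
    have hd2 : (p : E) ^ (k + j + j') • (Z' - Z) = (M : E) • rhoE G z := by
      rw [← e8, hZ, hZ', smul_sub, smul_sub, smul_smul, smul_smul, smul_smul, smul_smul]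
      congr 2
      · field_simp; ring
      · field_simp; ring
    rw [hd]
    calc (p : E) ^ (k + 2 * j + j') • (Zi * (Z' - Z))
        = ((p : E) ^ j • Zi) * ((p : E) ^ (k + j + j') • (Z' - Z)) := by
          rw [smul_mul_smul_comm, ← pow_add]
          congr 2
          ring
      _ = ((p : E) ^ j • Zi) * ((M : E) • rhoE G z) := by rw [hd2]
      _ = (J E * Xᴴ * J E * S') * rhoE G z := by
          rw [hZi, hZ, conjTranspose_smul, star_inv₀, star_pow, star_natCast]
          simp only [Matrix.mul_smul, Matrix.smul_mul, smul_smul]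
          rw [show (M : E) * ((p : E) ^ j * ((M : E)⁻¹ * ((p : E) ^ j)⁻¹)) = 1 by field_simp,
            one_smul]
  have hγg : mt (g⁻¹ * γ * g') = Wi * W' := by
    rw [mt_mul, mt_mul, hγmt]
    have hgi : mt g⁻¹ * Zi = Wi := by
      calc mt g⁻¹ * Zi = mt g⁻¹ * Zi * (W * Wi) := by rw [i5, Matrix.mul_one]
        _ = mt g⁻¹ * (Zi * Z) * mt g * Wi := by rw [← hZg]; simp only [Matrix.mul_assoc]
        _ = _ := by rw [i2, Matrix.mul_one, mt_inv_mul, Matrix.one_mul]
    calc mt g⁻¹ * (Zi * Z') * mt g' = (mt g⁻¹ * Zi) * (Z' * mt g') := by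
          simp only [Matrix.mul_assoc]
      _ = _ := by rw [hgi, hZg']
  have hκ : mt (g⁻¹ * γ * g')
      = 1 + (p : E) • (J A * wᴴ * J A * rho G s' * v).map (algebraMap A E) := by
    have hJ : (J A).map (algebraMap A E) = J E := by
      ext i j
      fin_cases i <;> fin_cases j <;> simp [J]
    have hs : (wᴴ).map (algebraMap A E) = Wᴴ := by
      ext i j
      simp [hW, Matrix.conjTranspose_apply, G.star_map]
    have hr : (rho G s').map (algebraMap A E) = S' := rfl
    rw [hγg, Matrix.map_mul, Matrix.map_mul, Matrix.map_mul, Matrix.map_mul, hJ, hs, hr, ← hV]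
    calc Wi * W' = Wi * W + Wi * (W' - W) := by rw [Matrix.mul_sub]; abel
      _ = 1 + (p : E) • (J E * Wᴴ * J E * S' * V) := by
          rw [i6, e7, hWi, Matrix.mul_smul, Matrix.smul_mul, smul_smul]
          rw [show (p : E) * M * (M : E)⁻¹ = p by field_simp]
  refine ⟨γ⁻¹, (Gam G 1).inv_mem hγG, g⁻¹ * γ * g', mem_KAB G.toLD _ _ hκ, ?_⟩
  group

end Pool.Agent.H791R3.GI
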