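import Pool.Agent.H791R3.GI.Stubs

/-!
# The quotient graph
-/

set_option autoImplicit false

namespace Pool.Agent.H791R3.GI

namespace GRA

section
variable {G : Type} [Group G]

/-- double coset relation -/
def rel (Γ K : Subgroup G) (x y : G) : Prop := ∃ γ ∈ Γ, ∃ k ∈ K, y = γ * x * k

/-- the equivalence relation -/
def stp (Γ K : Subgroup G) : Setoid G where
  r := rel Γ K
  iseqv := by
    refine ⟨fun x => ⟨1, Γ.one_mem, 1, K.one_mem, by group⟩, ?_, ?_⟩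
    · rintro x y ⟨γ, hγ, k, hk, rfl⟩
      exact ⟨γ⁻¹, Γ.inv_mem hγ, k⁻¹, K.inv_mem hk, by group⟩
    · rintro x y z ⟨γ, hγ, k, hk, rfl⟩ ⟨γ', hγ', k', hk', rfl⟩
      exact ⟨γ' * γ, Γ.mul_mem hγ' hγ, k * k', K.mul_mem hk hk', by group⟩

/-- double cosets -/
abbrev Q (Γ K : Subgroup G) := Quotient (stp Γ K)

/-- the class of `x` -/
def cl (Γ K : Subgroup G) (x : G) : Q Γ K := Quotient.mk _ x

theorem cl_eq {Γ K : Subgroup G} {x y : G} : cl Γ K x = cl Γ K y ↔ rel Γ K x y := Quotient.eq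

theorem cl_mul {Γ K : Subgroup G} (x : G) {k : G} (hk : k ∈ K) : cl Γ K (x * k) = cl Γ K x :=
  (cl_eq.2 ⟨1, Γ.one_mem, k, hk, by group⟩).symm

theorem cl_left {Γ K : Subgroup G} (x : G) {γ : G} (hγ : γ ∈ Γ) : cl Γ K (γ * x) = cl Γ K x :=
  (cl_eq.2 ⟨γ, hγ, 1, K.one_mem, by group⟩).symm

theorem card_Q {Γ K : Subgroup G} {V : ℕ} (inv : G → Fin V)
    (hinv : ∀ g g', inv g = inv g' → rel Γ K g g') :
    Finite (Q Γ K) ∧ Nat.card (Q Γ K) ≤ V := by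
  have hinj : Function.Injective fun a : Q Γ K => inv a.out := by
    intro a b hab
    have h1 := hinv _ _ hab
    have h2 : cl Γ K a.out = cl Γ K b.out := cl_eq.2 h1
    have ha : cl Γ K a.out = a := Quotient.out_eq a
    have hb : cl Γ K b.out = b := Quotient.out_eq b
    rw [ha, hb] at h2
    exact h2
  refine ⟨Finite.of_injective _ hinj, ?_⟩
  have := Nat.card_le_card_of_injective _ hinj
  simpa using this

/-- adjacency -/
def adjr (Γ KA KB : Subgroup G) : Q Γ KA ⊕ Q Γ KB → Q Γ KA ⊕ Q Γ KB → Prop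
  | .inl a, .inr b => ∃ g, cl Γ KA g = a ∧ cl Γ KB g = b
  | .inr b, .inl a => ∃ g, cl Γ KA g = a ∧ cl Γ KB g = b
  | _, _ => False

/-- the quotient graph -/
def gr (Γ KA KB : Subgroup G) : SimpleGraph (Q Γ KA ⊕ Q Γ KB) where
  Adj := adjr Γ KA KB
  symm := ⟨by rintro (a | a) (b | b) h <;> exact h⟩
  loopless := ⟨by rintro (a | a) h <;> exact h⟩

variable {Γ KA KB : Subgroup G}

theorem step_AB {x : G} {b : Q Γ KB} (h : adjr Γ KA KB (.inl (cl Γ KA x)) (.inr b)) :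
    ∃ a ∈ KA, b = cl Γ KB (x * a) := by
  obtain ⟨g, h1, h2⟩ := h
  obtain ⟨γ, hγ, k, hk, e⟩ := cl_eq.1 h1.symm
  refine ⟨k, hk, ?_⟩
  rw [← h2, e, mul_assoc, cl_left _ hγ]

theorem step_BA {x : G} {a : Q Γ KA} (h : adjr Γ KA KB (.inr (cl Γ KB x)) (.inl a)) :
    ∃ b ∈ KB, a = cl Γ KA (x * b) := by
  obtain ⟨g, h1, h2⟩ := h
  obtain ⟨γ, hγ, k, hk, e⟩ := cl_eq.1 h2.symm
  refine ⟨k, hk, ?_⟩
  rw [← h1, e, mul_assoc, cl_left _ hγ]

theorem next_A {x : G} {v : Q Γ KA ⊕ Q Γ KB} (h : adjr Γ KA KB (.inl (cl Γ KA x)) v) :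
    ∃ a ∈ KA, v = .inr (cl Γ KB (x * a)) := by
  rcases v with v | v
  · exact h.elim
  · obtain ⟨a, ha, e⟩ := step_AB h
    exact ⟨a, ha, by rw [e]⟩

theorem next_B {x : G} {v : Q Γ KA ⊕ Q Γ KB} (h : adjr Γ KA KB (.inr (cl Γ KB x)) v) :
    ∃ b ∈ KB, v = .inl (cl Γ KA (x * b)) := by
  rcases v with v | v
  · obtain ⟨a, ha, e⟩ := step_BA h
    exact ⟨a, ha, by rw [e]⟩
  · exact h.elim

theorem cyc (Lv : ℕ → G → Prop) (R : ℕ)
    (hW : ∀ (r : ℕ) (x k : G), Word KA KB r x → k ∈ KA → Lv r (x * k) ∧ x * k ≠ 1)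
    (hΓ : ∀ γ ∈ Γ, ∀ (g : G) (r : ℕ), r < R → Lv r (g⁻¹ * γ * g) → γ = 1)
    (u : ℕ → Q Γ KA ⊕ Q Γ KB) (n : ℕ) (hn : 3 ≤ n)
    (hadj : ∀ i < n, adjr Γ KA KB (u i) (u (i + 1))) (hclose : u n = u 0)
    (hinj : ∀ i j, 1 ≤ i → i ≤ n → 1 ≤ j → j ≤ n → u i = u j → i = j) (g0 : G)
    (h0 : u 0 = .inl (cl Γ KA g0)) : 2 * R ≤ n := by
  have key : ∀ j, 2 * (j + 1) ≤ n → ∃ x, Word KA KB (j + 1) x ∧
      u (2 * (j + 1)) = .inl (cl Γ KA (g0 * x)) ∧ u (2 * j + 1) = .inr (cl Γ KB (g0 * x)) := by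
    intro j
    induction j with
    | zero =>
      intro hj
      have h1 := hadj 0 (by omega)
      rw [h0] at h1
      obtain ⟨a, ha, e1⟩ := next_A h1
      have h2 := hadj 1 (by omega)
      rw [e1] at h2
      obtain ⟨b, hb, e2⟩ := next_B h2
      have hbA : b ∉ KA := by
        intro hbA
        have e3 : u 2 = u n := by
          have : u (1 + 1) = u 2 := rfl
          rw [← this, e2, cl_mul _ hbA, cl_mul _ ha, hclose, h0]
        have := hinj 2 n (by omega) (by omega) (by omega) le_rfl e3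
        omega
      refine ⟨a * b, Word.base a b ha hb hbA, ?_, ?_⟩
      · have : u (2 * (0 + 1)) = u (1 + 1) := rfl
        rw [this, e2, mul_assoc]
      · have : u (2 * 0 + 1) = u (0 + 1) := rfl
        rw [this, e1, ← mul_assoc, cl_mul _ hb]
    | succ j ih =>
      intro hj
      obtain ⟨x, hx, e1, e2⟩ := ih (by omega)
      have h1 := hadj (2 * (j + 1)) (by omega)
      rw [e1] at h1
      obtain ⟨a, ha, e3⟩ := next_A h1
      have haB : a ∉ KB := by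
        intro haB
        have e4 : u (2 * (j + 1) + 1) = u (2 * j + 1) := by
          rw [e3, cl_mul _ haB, e2]
        have := hinj _ _ (by omega) (by omega) (by omega) (by omega) e4
        omega
      have h2 := hadj (2 * (j + 1) + 1) (by omega)
      rw [e3] at h2
      obtain ⟨b, hb, e4⟩ := next_B h2
      have hbA : b ∉ KA := by
        intro hbA
        have e5 : u (2 * (j + 1) + 1 + 1) = u (2 * (j + 1)) := by
          rw [e4, cl_mul _ hbA, cl_mul _ ha, e1]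
        have := hinj _ _ (by omega) (by omega) (by omega) (by omega) e5
        omega
      refine ⟨x * a * b, Word.step (j + 1) x a b hx ha haB hb hbA, ?_, ?_⟩
      · have : 2 * (j + 1 + 1) = 2 * (j + 1) + 1 + 1 := by ring
        rw [this, e4]
        simp only [mul_assoc]
      · have : u (2 * (j + 1) + 1) = .inr (cl Γ KB (g0 * (x * a * b))) := by
          rw [e3, show g0 * (x * a * b) = g0 * x * a * b by group, cl_mul _ hb]
        exact this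
  by_contra hlt
  push Not at hlt
  obtain ⟨j, hj⟩ : ∃ j, j + 1 = n / 2 := ⟨n / 2 - 1, by omega⟩
  obtain ⟨x, hx, e1, -⟩ := key j (by omega)
  rcases Nat.even_or_odd' n with ⟨m, hm | hm⟩
  · -- even
    have hm2 : 2 * (j + 1) = n := by omega
    rw [hm2, hclose, h0] at e1
    obtain ⟨γ, hγ, k, hk, e⟩ := cl_eq.1 (Sum.inl_injective e1)
    have e3 : g0⁻¹ * γ * g0 = x * k⁻¹ := by
      have : g0⁻¹ * (g0 * x) * k⁻¹ = g0⁻¹ * (γ * g0 * k) * k⁻¹ := by rw [e]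
      have h4 : g0⁻¹ * (g0 * x) * k⁻¹ = x * k⁻¹ := by group
      have h5 : g0⁻¹ * (γ * g0 * k) * k⁻¹ = g0⁻¹ * γ * g0 := by group
      rw [← h4, ← h5, this]
    obtain ⟨h6, h7⟩ := hW (j + 1) x k⁻¹ hx (KA.inv_mem hk)
    rw [← e3] at h6 h7
    have h8 := hΓ γ hγ g0 (j + 1) (by omega) h6
    apply h7
    rw [h8]
    group
  · -- odd
    have hm2 : 2 * (j + 1) + 1 = n := by omega
    have h1 := hadj (2 * (j + 1)) (by omega)
    rw [hm2, hclose, h0, e1] at h1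
    exact h1

theorem girth (Lv : ℕ → G → Prop) (R : ℕ)
    (hW : ∀ (r : ℕ) (x k : G), Word KA KB r x → k ∈ KA → Lv r (x * k) ∧ x * k ≠ 1)
    (hΓ : ∀ γ ∈ Γ, ∀ (g : G) (r : ℕ), r < R → Lv r (g⁻¹ * γ * g) → γ = 1)
    (v : Q Γ KA ⊕ Q Γ KB) (w : (gr Γ KA KB).Walk v v) (hw : w.IsCycle) : 2 * R ≤ w.length := by
  classical
  -- cycles starting on the left
  have hleft : ∀ (a : Q Γ KA) (w : (gr Γ KA KB).Walk (.inl a) (.inl a)), w.IsCycle →
      2 * R ≤ w.length := by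
    intro a w hw
    have ha : cl Γ KA a.out = a := Quotient.out_eq a
    refine cyc Lv R hW hΓ w.getVert w.length hw.three_le_length (fun i hi => w.adj_getVert_succ hi)
      (by rw [w.getVert_length, w.getVert_zero]) ?_ a.out (by rw [w.getVert_zero, ha])
    intro i j hi1 hi2 hj1 hj2 hij
    exact hw.getVert_injOn ⟨hi1, hi2⟩ ⟨hj1, hj2⟩ hij
  rcases v with a | b
  · exact hleft a w hw
  · have h3 := hw.three_le_length
    have hadj := w.adj_getVert_succ (i := 0) (by omega)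
    rw [w.getVert_zero] at hadj
    obtain ⟨c, hc⟩ : ∃ c, w.getVert (0 + 1) = .inl c := by
      rcases hcase : w.getVert (0 + 1) with c | c
      · exact ⟨c, rfl⟩
      · rw [hcase] at hadj
        exact hadj.elim
    have hmem : (Sum.inl c : Q Γ KA ⊕ Q Γ KB) ∈ w.support := by
      rw [← hc]
      exact w.getVert_mem_support _
    have h4 := hleft c (w.rotate _ hmem) (hw.rotate hmem)
    rwa [SimpleGraph.Walk.length_rotate] at h4

theorem deg_A (Lv : ℕ → G → Prop) (R : ℕ) (hR : 2 ≤ R) (h0 : ∀ k ∈ KA, Lv 0 k)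
    (hW : ∀ (r : ℕ) (x k : G), Word KA KB r x → k ∈ KA → Lv r (x * k) ∧ x * k ≠ 1)
    (hΓ : ∀ γ ∈ Γ, ∀ (g : G) (r : ℕ), r < R → Lv r (g⁻¹ * γ * g) → γ = 1)
    {d : ℕ} (f : Fin d → G) (hf : ∀ i, f i ∈ KA) (hf2 : ∀ i j, i ≠ j → (f i)⁻¹ * f j ∉ KB)
    (a : Q Γ KA) : ∃ φ : Fin d → Q Γ KA ⊕ Q Γ KB, Function.Injective φ ∧
      ∀ i, (gr Γ KA KB).Adj (.inl a) (φ i) := by
  obtain ⟨g, rfl⟩ : ∃ g, cl Γ KA g = a := ⟨a.out, Quotient.out_eq a⟩
  refine ⟨fun i => .inr (cl Γ KB (g * f i)), ?_, ?_⟩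
  · intro i j hij
    by_contra hne
    obtain ⟨γ, hγ, β, hβ, e⟩ := cl_eq.1 (Sum.inr_injective hij)
    have e3 : (g * f i)⁻¹ * γ * (g * f i) = (f i)⁻¹ * f j * β⁻¹ := by
      have h5 : (g * f i)⁻¹ * (γ * (g * f i) * β) * β⁻¹ = (g * f i)⁻¹ * γ * (g * f i) := by group
      rw [← h5, ← e]
      group
    have haA : (f i)⁻¹ * f j ∈ KA := KA.mul_mem (KA.inv_mem (hf i)) (hf j)
    by_cases hβA : β ∈ KA
    · have h6 := h0 _ (KA.mul_mem haA (KA.inv_mem hβA))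
      rw [← e3] at h6
      have h7 := hΓ γ hγ _ 0 (by omega) h6
      apply hf2 i j hne
      rw [h7] at e3
      have h8 : (f i)⁻¹ * f j = β := by
        have h9 : (f i)⁻¹ * f j * β⁻¹ = 1 := by
          rw [← e3]
          group
        exact mul_inv_eq_one.1 h9
      rw [h8]
      exact hβ
    · have hβ' : β⁻¹ ∉ KA := fun h => hβA (by simpa using KA.inv_mem h)
      obtain ⟨h6, h7⟩ := hW 1 _ 1 (Word.base _ _ haA (KB.inv_mem hβ) hβ') KA.one_mem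
      rw [mul_one, ← e3] at h6 h7
      have h8 := hΓ γ hγ _ 1 (by omega) h6
      apply h7
      rw [h8]
      group
  · intro i
    exact ⟨g * f i, cl_mul _ (hf i), rfl⟩

theorem deg_B (Lv : ℕ → G → Prop) (R : ℕ) (hR : 2 ≤ R)
    (hW : ∀ (r : ℕ) (x k : G), Word KA KB r x → k ∈ KA → Lv r (x * k) ∧ x * k ≠ 1)
    (hΓ : ∀ γ ∈ Γ, ∀ (g : G) (r : ℕ), r < R → Lv r (g⁻¹ * γ * g) → γ = 1)
    {d : ℕ} (f : Fin d → G) (hf : ∀ i, f i ∈ KB) (hf2 : ∀ i j, i ≠ j → (f i)⁻¹ * f j ∉ KA)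
    (b : Q Γ KB) : ∃ φ : Fin d → Q Γ KA ⊕ Q Γ KB, Function.Injective φ ∧
      ∀ i, (gr Γ KA KB).Adj (.inr b) (φ i) := by
  obtain ⟨h, rfl⟩ : ∃ g, cl Γ KB g = b := ⟨b.out, Quotient.out_eq b⟩
  refine ⟨fun i => .inl (cl Γ KA (h * f i)), ?_, ?_⟩
  · intro i j hij
    by_contra hne
    obtain ⟨γ, hγ, k, hk, e⟩ := cl_eq.1 (Sum.inl_injective hij)
    have e3 : (h * f i)⁻¹ * γ * (h * f i) = 1 * ((f i)⁻¹ * f j) * k⁻¹ := by
      have h5 : (h * f i)⁻¹ * (γ * (h * f i) * k) * k⁻¹ = (h * f i)⁻¹ * γ * (h * f i) := by group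
      rw [← h5, ← e]
      group
    have hbB : (f i)⁻¹ * f j ∈ KB := KB.mul_mem (KB.inv_mem (hf i)) (hf j)
    obtain ⟨h6, h7⟩ := hW 1 _ k⁻¹ (Word.base 1 _ KA.one_mem hbB (hf2 i j hne)) (KA.inv_mem hk)
    rw [← e3] at h6 h7
    have h8 := hΓ γ hγ _ 1 (by omega) h6
    apply h7
    rw [h8]
    group
  · intro i
    exact ⟨h * f i, rfl, cl_mul _ (hf i)⟩

end

end GRA

open GRA in
theorem GRA_proof : St_GRA := by
  intro G _ KA KB Γ Lv d R V hR ⟨f, hf, hf2⟩ ⟨f', hf', hf2'⟩ h0 _ hW hΓ ⟨inv, hinv⟩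
  obtain ⟨hfA, hcA⟩ := card_Q (Γ := Γ) (K := KA) inv (fun g g' h => by
    obtain ⟨γ, hγ, k, hk, e⟩ := hinv g g' h
    exact ⟨γ, hγ, k, hk.1, e⟩)
  obtain ⟨hfB, hcB⟩ := card_Q (Γ := Γ) (K := KB) inv (fun g g' h => by
    obtain ⟨γ, hγ, k, hk, e⟩ := hinv g g' h
    exact ⟨γ, hγ, k, hk.2, e⟩)
  have hfin : Finite (Q Γ KA ⊕ Q Γ KB) := inferInstance
  have hcard : Nat.card (Q Γ KA ⊕ Q Γ KB) = Nat.card (Q Γ KA) + Nat.card (Q Γ KB) :=
    Nat.card_sum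
  have hne : Nonempty (Q Γ KA ⊕ Q Γ KB) := ⟨.inl (cl Γ KA 1)⟩
  have e : (Q Γ KA ⊕ Q Γ KB) ≃ Fin (Nat.card (Q Γ KA ⊕ Q Γ KB)) := Finite.equivFin _
  refine ⟨Nat.card (Q Γ KA ⊕ Q Γ KB), Nat.card_pos, by omega,
    (gr Γ KA KB).comap e.symm, ?_, ?_⟩
  · intro v
    obtain ⟨φ, hφ, hadj⟩ : ∃ φ : Fin d → Q Γ KA ⊕ Q Γ KB, Function.Injective φ ∧
        ∀ i, (gr Γ KA KB).Adj (e.symm v) (φ i) := by
      rcases e.symm v with a | b
      · exact deg_A Lv R hR h0 hW hΓ f hf hf2 a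
      · exact deg_B Lv R hR hW hΓ f' hf' hf2' b
    have hsub : Set.range (fun i => e (φ i)) ⊆ ((gr Γ KA KB).comap e.symm).neighborSet v := by
      rintro _ ⟨i, rfl⟩
      change (gr Γ KA KB).Adj (e.symm v) (e.symm (e (φ i)))
      rw [e.symm_apply_apply]
      exact hadj i
    have h1 := Set.ncard_le_ncard hsub (Set.toFinite _)
    have h2 : (Set.range fun i => e (φ i)).ncard = d := by
      have h3 : Function.Injective fun i => e (φ i) := fun i j hij => hφ (e.injective hij)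
      rw [← Set.image_univ, Set.ncard_image_of_injective _ h3, Set.ncard_univ]
      simp
    omega
  · rw [SimpleGraph.le_egirth]
    intro v w hw
    have hinj : Function.Injective (SimpleGraph.Hom.comap e.symm (gr Γ KA KB)) := e.symm.injective
    have h1 := (SimpleGraph.Walk.isCycle_map_iff_of_injective hinj).2 hw
    have h2 := girth Lv R hW hΓ _ _ h1
    rw [SimpleGraph.Walk.length_map] at h2
    exact_mod_cast h2

end Pool.Agent.H791R3.GI
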