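import Pool.Agent.H791R3.GI.Stubs

/-!
# IDX: index of `M₃(A) h` in `M₃(A)`
-/

set_option autoImplicit false

namespace Pool.Agent.H791R3.GI.IDX

open Module Submodule

section pid

variable {A : Type} [CommRing A] [IsDomain A] [IsPrincipalIdealRing A]

theorem det_smith {ι : Type} [Fintype ι] [DecidableEq ι] (N : Submodule A (ι → A))
    (e : (ι → A) ≃ₗ[A] N) (h : finrank A N = finrank A (ι → A)) :
    Associated (LinearMap.det (N.subtype ∘ₗ (e : (ι → A) →ₗ[A] N)))
      (∏ i, smithNormalFormCoeffs (Pi.basisFun A ι) h i) := by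
  let b := Pi.basisFun A ι
  let a := smithNormalFormCoeffs b h
  let b' := smithNormalFormTopBasis b h
  let ab := smithNormalFormBotBasis b h
  have ab_eq := smithNormalFormBotBasis_def b h
  let e' : (ι → A) ≃ₗ[A] N := b'.equiv ab (Equiv.refl _)
  let f : (ι → A) →ₗ[A] (ι → A) := N.subtype.comp (e' : (ι → A) →ₗ[A] N)
  have f_apply : ∀ x, f x = b'.equiv ab (Equiv.refl _) x := fun x ↦ rfl
  have ha : ∀ i, f (b' i) = a i • b' i := by
    intro i
    rw [f_apply, b'.equiv_apply, Equiv.refl_apply]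
    exact ab_eq i
  have h1 : LinearMap.det f = ∏ i, a i := by
    rw [← LinearMap.det_toMatrix b', ← Matrix.det_diagonal]
    congr 1
    ext i j
    rw [LinearMap.toMatrix_apply, ha, map_smul, Basis.repr_self, Finsupp.smul_single,
      smul_eq_mul, mul_one]
    by_cases h : i = j
    · rw [h, Matrix.diagonal_apply_eq, Finsupp.single_eq_same]
    · rw [Matrix.diagonal_apply_ne _ h, Finsupp.single_eq_of_ne h]
  have h2 : Associated (LinearMap.det (N.subtype ∘ₗ (e : (ι → A) →ₗ[A] N)))
      (LinearMap.det f) := LinearMap.associated_det_comp_equiv _ _ _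
  rw [h1] at h2
  exact h2

end pid

section dvr

variable {A : Type} [CommRing A] [IsDomain A] [IsDiscreteValuationRing A]

theorem card_pow {ϖ : A} (hϖ : Irreducible ϖ) {p : ℕ} (hp : Nat.card (A ⧸ Ideal.span {ϖ}) = p)
    (k : ℕ) : Nat.card (A ⧸ Ideal.span {ϖ ^ k}) = p ^ k := by
  have hP : (Ideal.span {ϖ} : Ideal A).IsPrime :=
    (Ideal.span_singleton_prime hϖ.ne_zero).2 hϖ.prime
  have hne : (Ideal.span {ϖ} : Ideal A) ≠ ⊥ := by
    rw [Ne, Ideal.span_singleton_eq_bot]; exact hϖ.ne_zero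
  have := cardQuot_pow_of_prime (P := (Ideal.span {ϖ} : Ideal A)) hne (i := k)
  rw [Submodule.cardQuot_apply, Submodule.cardQuot_apply, hp, Ideal.span_singleton_pow] at this
  exact this

theorem card_assoc {ϖ : A} (hϖ : Irreducible ϖ) {p : ℕ}
    (hp : Nat.card (A ⧸ Ideal.span {ϖ}) = p) {x : A} {k : ℕ} (hx : Associated x (ϖ ^ k)) :
    Nat.card (A ⧸ Ideal.span {x}) = p ^ k := by
  have : Ideal.span {x} = Ideal.span {ϖ ^ k} :=
    Ideal.span_singleton_eq_span_singleton.2 hx
  rw [this, card_pow hϖ hp]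

/-- cardinality of the cokernel of an injective endomorphism -/
theorem card_coker {ϖ : A} (hϖ : Irreducible ϖ) {p : ℕ}
    (hp : Nat.card (A ⧸ Ideal.span {ϖ}) = p) {ι : Type} [Fintype ι] [DecidableEq ι]
    (f : (ι → A) →ₗ[A] (ι → A)) {e : ℕ} (he : Associated (LinearMap.det f) (ϖ ^ e)) :
    Nat.card ((ι → A) ⧸ LinearMap.range f) = p ^ e := by
  have hdet : LinearMap.det f ≠ 0 := by
    intro h0
    rw [h0] at he
    exact pow_ne_zero e hϖ.ne_zero (associated_zero_iff_eq_zero _ |>.1 he.symm)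
  have hinj : Function.Injective f := by
    rw [← LinearMap.ker_eq_bot]
    by_contra hne
    exact hdet (LinearMap.det_eq_zero_iff_ker_ne_bot.2 hne)
  let g := LinearEquiv.ofInjective f hinj
  have hfr : finrank A (LinearMap.range f) = finrank A (ι → A) := g.symm.finrank_eq
  have h1 := det_smith (LinearMap.range f) g hfr
  have hgf : (LinearMap.range f).subtype ∘ₗ (g : (ι → A) →ₗ[A] LinearMap.range f) = f := by
    ext x
    rfl
  rw [hgf] at h1
  set a := smithNormalFormCoeffs (Pi.basisFun A ι) hfr with ha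
  have h2 : Associated (∏ i, a i) (ϖ ^ e) := h1.symm.trans he
  have hne : ∀ i, a i ≠ 0 := by
    intro i hi
    have : ∏ i, a i = 0 := Finset.prod_eq_zero (Finset.mem_univ i) hi
    rw [this] at h2
    exact pow_ne_zero e hϖ.ne_zero (associated_zero_iff_eq_zero _ |>.1 h2.symm)
  have hk : ∀ i, ∃ k : ℕ, Associated (a i) (ϖ ^ k) := fun i =>
    IsDiscreteValuationRing.associated_pow_irreducible (hne i) hϖ
  choose k hk using hk
  have h3 : Associated (ϖ ^ (∑ i, k i)) (ϖ ^ e) := by
    rw [← Finset.prod_pow_eq_pow_sum]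
    exact (Associated.prod _ _ _ (fun i _ => (hk i).symm)).trans h2
  have h4 : ∑ i, k i = e := by
    have hd1 := (pow_dvd_pow_iff hϖ.ne_zero hϖ.not_isUnit).1 h3.dvd
    have hd2 := (pow_dvd_pow_iff hϖ.ne_zero hϖ.not_isUnit).1 h3.symm.dvd
    omega
  rw [Nat.card_congr (quotientEquivPiSpan (LinearMap.range f) (Pi.basisFun A ι) hfr).toEquiv,
    Nat.card_pi, ← h4, ← Finset.prod_pow_eq_pow_sum]
  exact Finset.prod_congr rfl fun i _ => card_assoc hϖ hp (hk i)

/-- the index of `M_n(A) h` -/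
theorem card_mat {ϖ : A} (hϖ : Irreducible ϖ) {p : ℕ}
    (hp : Nat.card (A ⧸ Ideal.span {ϖ}) = p) {n : ℕ}
    (h : Matrix (Fin n) (Fin n) A) {e : ℕ} (he : Associated h.det (ϖ ^ e)) :
    (AddMonoidHom.mulRight h :
      Matrix (Fin n) (Fin n) A →+ Matrix (Fin n) (Fin n) A).range.index = p ^ (n * e) := by
  let f : (Fin n → A) →ₗ[A] (Fin n → A) := Matrix.vecMulLinear h
  have hf : f = Matrix.toLin' h.transpose := by
    ext i j
    simp [f, Matrix.toLin'_apply]
  have hdet : LinearMap.det f = h.det := by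
    rw [hf, LinearMap.det_toLin', Matrix.det_transpose]
  have h1 : Nat.card ((Fin n → A) ⧸ LinearMap.range f) = p ^ e :=
    card_coker hϖ hp f (by rw [hdet]; exact he)
  let P : Submodule A (Fin n → (Fin n → A)) := Submodule.pi Set.univ fun _ => LinearMap.range f
  have h2 : Nat.card ((Fin n → (Fin n → A)) ⧸ P) = (p ^ e) ^ n := by
    have := Nat.card_congr (Submodule.quotientPi (R := A)
      (fun _ : Fin n => LinearMap.range f)).toEquiv
    rw [this, Nat.card_pi]
    simp [h1]
  have h3 : (AddMonoidHom.mulRight h :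
      Matrix (Fin n) (Fin n) A →+ Matrix (Fin n) (Fin n) A).range = P.toAddSubgroup := by
    ext w
    constructor
    · rintro ⟨z, rfl⟩
      change ∀ i ∈ Set.univ, (z * h) i ∈ LinearMap.range f
      intro i _
      exact ⟨z i, rfl⟩
    · intro hw
      have hw' : ∀ i ∈ (Set.univ : Set (Fin n)), w i ∈ LinearMap.range f := hw
      choose z hz using fun i => hw' i (Set.mem_univ i)
      exact ⟨z, funext fun i => hz i⟩
  rw [h3, mul_comm n e, pow_mul, ← h2]
  rfl

end dvr

end Pool.Agent.H791R3.GI.IDX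

namespace Pool.Agent.H791R3.GI

theorem IDX_proof : St_IDX := by
  intro p A E _ _ _ _ _ _ _ _ L h e he
  exact IDX.card_mat L.irr L.card_res h he

end Pool.Agent.H791R3.GI
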