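import Pool.Agent.H791R3.GI.Stubs

/-!
# INS: existence of the local data (helper25)
-/

set_option autoImplicit false

namespace Pool.Agent.H791R3.GI

namespace INS

open QuadraticAlgebra hiding norm_neg norm_zero norm_one

section loc

variable {p : ℕ} [hp : Fact p.Prime] {μ : ℤ_[p]}

/-- `ℤ_p[√-μ]` -/
abbrev QA (μ : ℤ_[p]) := QuadraticAlgebra ℤ_[p] (-μ) 0

theorem nrm (z : QA μ) : QuadraticAlgebra.norm z = z.re ^ 2 + μ * z.im ^ 2 := by
  rw [norm_def]; ring

theorem isUnit_int (x : ℤ_[p]) : IsUnit x ↔ ¬ (p : ℤ_[p]) ∣ x := by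
  rw [PadicInt.isUnit_iff, ← PadicInt.norm_lt_one_iff_dvd]
  constructor
  · intro h1 h2
    rw [h1] at h2
    exact lt_irrefl _ h2
  · intro h1
    exact le_antisymm (PadicInt.norm_le_one x) (not_lt.1 h1)

theorem p_not_unit : ¬ IsUnit (p : ℤ_[p]) := by
  rw [isUnit_int]
  exact fun h => h (dvd_refl _)

theorem isUnit_qa (c : ℤ_[p]) (hc : μ = p * c) (z : QA μ) : IsUnit z ↔ ¬ (p : ℤ_[p]) ∣ z.re := by
  rw [isUnit_iff_norm_isUnit, isUnit_int, nrm]
  have h1 : (p : ℤ_[p]) ∣ μ * z.im ^ 2 := Dvd.dvd.mul_right ⟨c, hc⟩ _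
  rw [dvd_add_left h1]
  constructor
  · intro h2 h3
    exact h2 (dvd_pow h3 two_ne_zero)
  · intro h2 h3
    exact h2 (PadicInt.prime_p.dvd_of_dvd_pow h3)

/-- the uniformiser -/
noncomputable def om (μ : ℤ_[p]) : QA μ := ⟨0, 1⟩

theorem dvd_om (c : ℤ_[p]) (hc : μ = p * c) (hu : IsUnit c) (z : QA μ) :
    om μ ∣ z ↔ (p : ℤ_[p]) ∣ z.re := by
  constructor
  · rintro ⟨w, rfl⟩
    have : (om μ * w).re = -μ * w.im := by simp [om]
    rw [this]
    exact ⟨-c * w.im, by linear_combination (-w.im) * hc⟩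
  · rintro ⟨r, hr⟩
    obtain ⟨u, rfl⟩ := hu
    refine ⟨⟨z.im, -(↑u⁻¹ : ℤ_[p]) * r⟩, ?_⟩
    ext
    · have h1 : (u : ℤ_[p]) * (↑u⁻¹ : ℤ_[p]) = 1 := Units.mul_inv u
      have h2 : (om μ * ⟨z.im, -(↑u⁻¹ : ℤ_[p]) * r⟩ : QA μ).re = μ * (↑u⁻¹ : ℤ_[p]) * r := by
        simp [om]
        ring
      rw [h2]
      linear_combination hr - ((p : ℤ_[p]) * r) * h1 - ((↑u⁻¹ : ℤ_[p]) * r) * hc
    · simp [om]

theorem norm_ne (c : ℤ_[p]) (hc : μ = p * c) (hu : IsUnit c) (z : QA μ)
    (hz : QuadraticAlgebra.norm z = 0) :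
    z = 0 := by
  rw [nrm] at hz
  have h1 : z.re ^ 2 = -(μ * z.im ^ 2) := by linear_combination hz
  have h2 : ‖z.re‖ ^ 2 = (p : ℝ)⁻¹ * ‖z.im‖ ^ 2 := by
    have := congrArg (fun x : ℤ_[p] => ‖x‖) h1
    simp only [norm_neg, norm_mul, norm_pow] at this
    have h3 : ‖μ‖ = (p : ℝ)⁻¹ := by
      rw [hc, norm_mul, PadicInt.norm_p, PadicInt.isUnit_iff.1 hu, mul_one]
    rw [this, h3]
  have hp0 : (0 : ℝ) < p := by exact_mod_cast hp.out.pos
  by_cases him : z.im = 0
  · rw [him] at h2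
    simp only [norm_zero] at h2
    have h3 : ‖z.re‖ = 0 := by
      have : ‖z.re‖ ^ 2 = 0 := by rw [h2]; simp
      exact pow_eq_zero_iff two_ne_zero |>.1 this
    ext
    · simpa using h3
    · simpa using him
  · exfalso
    have him' : 0 < ‖z.im‖ := norm_pos_iff.2 him
    have hre : z.re ≠ 0 := by
      intro h
      rw [h] at h2
      simp only [norm_zero] at h2
      have : 0 < (p : ℝ)⁻¹ * ‖z.im‖ ^ 2 := by positivity
      rw [← h2] at this
      simp at this
    rw [PadicInt.norm_eq_zpow_neg_valuation hre, PadicInt.norm_eq_zpow_neg_valuation him] at h2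
    have h4 : (p : ℝ) ^ (-(2 * (z.re.valuation : ℤ))) =
        (p : ℝ) ^ (-1 - 2 * (z.im.valuation : ℤ)) := by
      have e1 : (p : ℝ) ^ (-(2 * (z.re.valuation : ℤ))) =
          ((p : ℝ) ^ (-(z.re.valuation : ℤ))) ^ 2 := by
        rw [← zpow_natCast, ← zpow_mul]; congr 1; push_cast; ring
      have e2 : (p : ℝ) ^ (-1 - 2 * (z.im.valuation : ℤ)) =
          (p : ℝ)⁻¹ * ((p : ℝ) ^ (-(z.im.valuation : ℤ))) ^ 2 := by
        rw [← zpow_natCast, ← zpow_mul, ← zpow_neg_one, ← zpow_add₀ hp0.ne']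
        congr 1; push_cast; ring
      rw [e1, e2, h2]
    have h5 := zpow_right_injective₀ hp0 (by exact_mod_cast hp.out.one_lt.ne') h4
    omega

theorem isDomain (c : ℤ_[p]) (hc : μ = p * c) (hu : IsUnit c) : IsDomain (QA μ) := by
  have : NoZeroDivisors (QA μ) := by
    constructor
    intro x y hxy
    have h1 : QuadraticAlgebra.norm x * QuadraticAlgebra.norm y = 0 := by
      rw [← map_mul, hxy, QuadraticAlgebra.norm_zero]
    rcases mul_eq_zero.1 h1 with h | h
    · exact Or.inl (norm_ne c hc hu x h)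
    · exact Or.inr (norm_ne c hc hu y h)
  exact NoZeroDivisors.to_isDomain _

theorem irr (c : ℤ_[p]) (hc : μ = p * c) (hu : IsUnit c) : Irreducible (om μ) := by
  constructor
  · rw [isUnit_qa c hc]
    simp [om]
  · intro x y hxy
    rw [isUnit_qa c hc, isUnit_qa c hc]
    by_contra hcon
    push Not at hcon
    obtain ⟨⟨x', hx⟩, ⟨y', hy⟩⟩ := hcon
    have h1 := congrArg QuadraticAlgebra.im hxy
    have h2 := congrArg QuadraticAlgebra.norm hxy
    rw [map_mul, nrm, nrm, nrm] at h2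
    simp only [om, hx, hy] at h2
    have hp0 : (p : ℤ_[p]) ≠ 0 := by
      have := hp.out.ne_zero
      exact_mod_cast this
    have h3 : c = p * ((p * x' ^ 2 + c * x.im ^ 2) * (p * y' ^ 2 + c * y.im ^ 2)) := by
      apply mul_left_cancel₀ hp0
      linear_combination h2 - hc + ((p * x') ^ 2 * y.im ^ 2 + x.im ^ 2 * (p * y') ^ 2 +
        x.im ^ 2 * y.im ^ 2 * (μ + p * c)) * hc
    have h4 := (isUnit_int c).1 hu
    exact h4 ⟨_, h3⟩

theorem noeth : IsNoetherianRing (QA μ) := IsNoetherianRing.of_finite ℤ_[p] (QA μ)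

theorem dvr (c : ℤ_[p]) (hc : μ = p * c) (hu : IsUnit c) [IsDomain (QA μ)] :
    IsDiscreteValuationRing (QA μ) := by
  have := noeth (μ := μ)
  apply IsDiscreteValuationRing.ofHasUnitMulPowIrreducibleFactorization
  refine ⟨om μ, irr c hc hu, ?_⟩
  intro x hx
  have h1 : FiniteMultiplicity (om μ) x :=
    FiniteMultiplicity.of_not_isUnit (irr c hc hu).not_isUnit hx
  obtain ⟨y, hy, hy'⟩ := h1.exists_eq_pow_mul_and_not_dvd
  refine ⟨multiplicity (om μ) x, ?_⟩
  rw [dvd_om c hc hu, ← isUnit_qa c hc] at hy'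
  obtain ⟨u, rfl⟩ := hy'
  exact ⟨u, hy.symm⟩

/-- reduction -/
noncomputable def red (c : ℤ_[p]) (hc : μ = p * c) : QA μ →+* ZMod p where
  toFun z := PadicInt.toZMod z.re
  map_one' := by simp
  map_zero' := by simp
  map_add' x y := by simp
  map_mul' x y := by
    have h1 : PadicInt.toZMod μ = 0 := by
      rw [hc]; simp
    simp [h1]

theorem card_res (c : ℤ_[p]) (hc : μ = p * c) (hu : IsUnit c) :
    Nat.card (QA μ ⧸ Ideal.span {om μ}) = p := by
  have h1 : Ideal.span {om μ} = RingHom.ker (red c hc) := by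
    ext z
    rw [Ideal.mem_span_singleton, dvd_om c hc hu, RingHom.mem_ker]
    show _ ↔ PadicInt.toZMod z.re = 0
    rw [← RingHom.mem_ker, PadicInt.ker_toZMod, PadicInt.maximalIdeal_eq_span_p,
      Ideal.mem_span_singleton]
  have h2 : Function.Surjective (red c hc) := by
    intro y
    obtain ⟨x, hx⟩ := ZMod.ringHom_surjective (PadicInt.toZMod (p := p)) y
    exact ⟨⟨x, 0⟩, hx⟩
  rw [h1, Nat.card_congr (RingHom.quotientKerEquivOfSurjective h2).toEquiv, Nat.card_zmod]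

theorem dvd_intCast (k : ℤ) : (p : ℤ_[p]) ∣ (k : ℤ_[p]) ↔ (p : ℤ) ∣ k := by
  rw [← PadicInt.norm_lt_one_iff_dvd, PadicInt.norm_int_lt_one_iff_dvd]

/-- the root of the cubic -/
theorem exists_root (a : ℤ) (ha : 2 * a + 3 = p) (h5 : 5 ≤ p) :
    ∃ t : ℤ_[p], t ^ 3 = a * t ^ 2 + (a + 3) * t + 1 ∧ (p : ℤ_[p]) ∣ t - 1 := by
  set F : Polynomial ℤ_[p] := Polynomial.X ^ 3 - Polynomial.C (a : ℤ_[p]) * Polynomial.X ^ 2 -
    Polynomial.C ((a : ℤ_[p]) + 3) * Polynomial.X - 1 with hF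
  have e1 : ∀ z, F.eval z = z ^ 3 - a * z ^ 2 - (a + 3) * z - 1 := by
    intro z
    simp [hF]
  have e2 : ∀ z, F.derivative.eval z = 3 * z ^ 2 - a * (2 * z) - (a + 3) := by
    intro z
    simp [hF]
    ring
  have ha' : 2 * (a : ℤ_[p]) + 3 = p := by exact_mod_cast congrArg (Int.cast (R := ℤ_[p])) ha
  have h1 : F.aeval (1 : ℤ_[p]) = -(p : ℤ_[p]) := by
    rw [Polynomial.coe_aeval_eq_eval, e1, ← ha']
    ring
  have h2 : F.derivative.aeval (1 : ℤ_[p]) = ((-(3 * a) : ℤ) : ℤ_[p]) := by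
    rw [Polynomial.coe_aeval_eq_eval, e2]
    push_cast
    ring
  have h3 : ‖F.derivative.aeval (1 : ℤ_[p])‖ = 1 := by
    rw [h2, ← PadicInt.isUnit_iff, isUnit_int, dvd_intCast]
    rintro ⟨k, hk⟩
    have h4 : (p : ℤ) ∣ 9 := ⟨2 * k + 3, by linear_combination (2 : ℤ) * hk + 3 * ha⟩
    have h6 : (p : ℤ) ∣ 3 ^ 2 := h4
    have h7 := (Nat.prime_iff_prime_int.1 hp.out).dvd_of_dvd_pow h6
    have h8 := Int.le_of_dvd (by norm_num) h7
    omega
  obtain ⟨z, hz1, hz2, _⟩ := hensels_lemma (F := F) (a := (1 : ℤ_[p])) (by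
    rw [h1, h3, norm_neg, PadicInt.norm_p]
    rw [one_pow]
    exact inv_lt_one_of_one_lt₀ (by exact_mod_cast hp.out.one_lt))
  rw [Polynomial.coe_aeval_eq_eval, e1] at hz1
  rw [h3] at hz2
  refine ⟨z, by linear_combination hz1, ?_⟩
  rw [← PadicInt.norm_lt_one_iff_dvd]
  exact hz2

/-- Hensel for squares -/
theorem exists_sq (h5 : 5 ≤ p) (x b : ℤ_[p]) (hx : ¬ (p : ℤ_[p]) ∣ x)
    (hb : (p : ℤ_[p]) ∣ x ^ 2 + b) : ∃ z : ℤ_[p], z ^ 2 + b = 0 := by
  set F : Polynomial ℤ_[p] := Polynomial.X ^ 2 + Polynomial.C b with hF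
  have e1 : ∀ z, F.eval z = z ^ 2 + b := by
    intro z
    simp [hF]
  have e2 : ∀ z, F.derivative.eval z = 2 * z := by
    intro z
    simp [hF]
    exact Or.inl (by norm_num)
  have h3 : ‖F.derivative.aeval x‖ = 1 := by
    rw [Polynomial.coe_aeval_eq_eval, e2, norm_mul, PadicInt.isUnit_iff.1 ((isUnit_int x).2 hx),
      mul_one, ← PadicInt.isUnit_iff, isUnit_int]
    have h6 : (2 : ℤ_[p]) = ((2 : ℤ) : ℤ_[p]) := by norm_num
    rw [h6, dvd_intCast]
    intro h7
    have h8 := Int.le_of_dvd (by norm_num) h7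
    omega
  obtain ⟨z, hz1, _⟩ := hensels_lemma (F := F) (a := x) (by
    rw [h3, Polynomial.coe_aeval_eq_eval, e1, one_pow]
    exact (PadicInt.norm_lt_one_iff_dvd _).2 hb)
  rw [Polynomial.coe_aeval_eq_eval, e1] at hz1
  exact ⟨z, hz1⟩

/-- two squares -/
theorem exists_two (h5 : 5 ≤ p) : ∃ x y : ℤ_[p], x ^ 2 + y ^ 2 = -1 := by
  obtain ⟨α, β, hαβ⟩ := ZMod.sq_add_sq p (-1)
  obtain ⟨x, hx⟩ := ZMod.ringHom_surjective (PadicInt.toZMod (p := p)) α
  obtain ⟨y, hy⟩ := ZMod.ringHom_surjective (PadicInt.toZMod (p := p)) β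
  have hd : ∀ z : ℤ_[p], (p : ℤ_[p]) ∣ z ↔ PadicInt.toZMod z = 0 := by
    intro z
    rw [← RingHom.mem_ker, PadicInt.ker_toZMod, PadicInt.maximalIdeal_eq_span_p,
      Ideal.mem_span_singleton]
  have h1 : (p : ℤ_[p]) ∣ x ^ 2 + (y ^ 2 + 1) := by
    rw [hd]
    simp only [map_add, map_pow, map_one, hx, hy]
    linear_combination hαβ
  by_cases hx0 : (p : ℤ_[p]) ∣ x
  · have hy0 : ¬ (p : ℤ_[p]) ∣ y := by
      intro hy0
      have h2 : (p : ℤ_[p]) ∣ 1 := by
        have h3 : (p : ℤ_[p]) ∣ x ^ 2 + y ^ 2 :=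
          dvd_add (dvd_pow hx0 two_ne_zero) (dvd_pow hy0 two_ne_zero)
        have h4 : x ^ 2 + (y ^ 2 + 1) = (x ^ 2 + y ^ 2) + 1 := by ring
        rw [h4] at h1
        exact (dvd_add_right h3).1 h1
      exact p_not_unit (isUnit_of_dvd_one h2)
    obtain ⟨z, hz⟩ := exists_sq h5 y (x ^ 2 + 1) hy0 (by
      have h4 : x ^ 2 + (y ^ 2 + 1) = y ^ 2 + (x ^ 2 + 1) := by ring
      rw [← h4]; exact h1)
    exact ⟨x, z, by linear_combination hz⟩
  · obtain ⟨z, hz⟩ := exists_sq h5 x (y ^ 2 + 1) hx0 h1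
    exact ⟨z, y, by linear_combination hz⟩

end loc

/-- the star of the fraction field -/
noncomputable def stE (A : Type) [CommRing A] [IsDomain A] [StarRing A] :
    FractionRing A →+* FractionRing A :=
  IsFractionRing.map (A := A) (B := A) (K := FractionRing A) (L := FractionRing A)
    (j := starRingEnd A) (star_injective)

theorem stE_map (A : Type) [CommRing A] [IsDomain A] [StarRing A] (x : A) :
    stE A (algebraMap A (FractionRing A) x) = algebraMap A (FractionRing A) (star x) := by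
  unfold stE IsFractionRing.map
  rw [IsLocalization.map_eq]
  rfl

/-- the star of the fraction field -/
noncomputable abbrev starE (A : Type) [CommRing A] [IsDomain A] [StarRing A] :
    StarRing (FractionRing A) where
  star := stE A
  star_involutive := by
    intro y
    obtain ⟨a, b, hb, rfl⟩ := IsFractionRing.div_surjective (A := A) y
    show stE A (stE A _) = _
    rw [map_div₀, map_div₀, stE_map, stE_map, stE_map, stE_map, star_star, star_star]
  star_mul := fun x y => by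
    show stE A (x * y) = stE A y * stE A x
    rw [map_mul, mul_comm]
  star_add := fun x y => map_add (stE A) x y

end INS

open INS in
theorem INS_proof : St_INS := by
  intro p m a hP
  have : Fact p.Prime := ⟨hP.prime⟩
  obtain ⟨c', hc'⟩ := hP.dvd
  have hpc : ¬ p ∣ c' := by
    rintro ⟨d, rfl⟩
    exact hP.ndvd ⟨d, by rw [hc']; ring⟩
  have hc : ((m : ℕ) : ℤ_[p]) = (p : ℤ_[p]) * (c' : ℤ_[p]) := by
    rw [hc']; push_cast; ring
  have hu : IsUnit (c' : ℤ_[p]) := by
    rw [isUnit_int]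
    have h1 : (c' : ℤ_[p]) = ((c' : ℤ) : ℤ_[p]) := by push_cast; rfl
    rw [h1, dvd_intCast]
    exact_mod_cast hpc
  have hdom : IsDomain (QA (m : ℤ_[p])) := isDomain _ hc hu
  have hdvr : IsDiscreteValuationRing (QA (m : ℤ_[p])) := dvr _ hc hu
  obtain ⟨t, ht, ht1⟩ := exists_root (p := p) a hP.ha hP.five
  obtain ⟨x, y, hxy⟩ := exists_two (p := p) hP.five
  have h2u : IsUnit (2 : ℤ_[p]) := by
    rw [isUnit_int]
    have h1 : (2 : ℤ_[p]) = ((2 : ℤ) : ℤ_[p]) := by norm_num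
    rw [h1, dvd_intCast]
    intro h2
    have := Int.le_of_dvd (by norm_num) h2
    have := hP.five
    omega
  obtain ⟨w, hw⟩ := h2u.exists_right_inv
  let _ := starE (QA (m : ℤ_[p]))
  have hoo : om (m : ℤ_[p]) * om (m : ℤ_[p]) = ((-(m : ℤ) : ℤ) : QA (m : ℤ_[p])) := by
    ext <;> simp [om]
  refine ⟨QA (m : ℤ_[p]), FractionRing (QA (m : ℤ_[p])), inferInstance, hdom, hdvr, inferInstance,
    inferInstance, inferInstance, inferInstance, inferInstance, ⟨?_⟩⟩
  exact
    { ϖ := om (m : ℤ_[p])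
      irr := irr _ hc hu
      star_ϖ := by ext <;> simp [om]
      star_sub := fun z => by
        rw [dvd_om _ hc hu]
        simp
      two := by
        rw [isUnit_qa _ hc]
        have h1 : (2 : QA (m : ℤ_[p])).re = 2 := rfl
        rw [h1, ← isUnit_int]
        exact h2u
      prime := hP.prime
      card_res := card_res _ hc hu
      assoc_p := by
        have h1 : IsUnit (⟨-(c' : ℤ_[p]), 0⟩ : QA (m : ℤ_[p])) := by
          rw [isUnit_qa _ hc, ← isUnit_int]
          exact hu.neg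
        refine ⟨h1.unit, ?_⟩
        rw [IsUnit.unit_spec, pow_two, hoo]
        ext
        · simp [hc]
        · simp
      star_map := fun z => (stE_map _ z).symm
      ι := Zsqrtd.lift ⟨om (m : ℤ_[p]), hoo⟩
      ι_omega := by
        simp [Zsqrtd.lift]
      ι_star := fun z => by
        ext <;> simp [Zsqrtd.lift, om]
      t := ⟨t, 0⟩
      t_star := by ext <;> simp
      t_one := by
        rw [dvd_om _ hc hu]
        simpa [QuadraticAlgebra.re_one] using ht1
      ht := by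
        unfold Cub.IsRt
        ext
        · simp [pow_succ, QuadraticAlgebra.re_one, QuadraticAlgebra.re_ofNat,
            QuadraticAlgebra.im_ofNat]
          linear_combination ht
        · simp [pow_succ, QuadraticAlgebra.im_one, QuadraticAlgebra.im_ofNat]
      Cm := !![⟨x, 0⟩, ⟨y, 0⟩, 1; ⟨y, 0⟩, ⟨-x, 0⟩, 0; ⟨-x * w, 0⟩, ⟨-y * w, 0⟩, ⟨w, 0⟩]
      Cm_star := by
        ext i j <;> fin_cases i <;> fin_cases j <;>
          simp [Matrix.conjTranspose_apply, QuadraticAlgebra.im_one]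
      hC := by
        ext i j
        · fin_cases i <;> fin_cases j <;>
            simp [Matrix.mul_apply, Fin.sum_univ_three, J, QuadraticAlgebra.re_one]
          · linear_combination hxy
          · ring
          · linear_combination (-w) * hxy + hw
          · ring
          · linear_combination hxy
          · ring
          · linear_combination (-w) * hxy + hw
          · ring
          · linear_combination w ^ 2 * hxy
        · fin_cases i <;> fin_cases j <;>
            simp [Matrix.mul_apply, Fin.sum_univ_three, J, QuadraticAlgebra.im_one] }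

end Pool.Agent.H791R3.GI
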