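import Pool.Agent.H791R3.GI.Stubs

/-! IXG (helper332): the index of `Γ(2^i)` in `Γ`. -/

set_option autoImplicit false

namespace Pool.Agent.H791R3.GI

open Matrix Cub

namespace IXG

section chi
variable {m : ℕ} {q : ℕ} (s : ZMod q) (hs : s * s = ((-(m : ℤ) : ℤ) : ZMod q))

/-- reduction `ω ↦ s` -/
noncomputable def chi : Zm m →+* ZMod q := Zsqrtd.lift ⟨s, hs⟩

theorem chi_apply (c : Zm m) : chi s hs c = (c.re : ZMod q) + c.im * s := by
  simp [chi]

theorem chi_star (c : Zm m) : chi s hs (star c) = (c.re : ZMod q) - c.im * s := by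
  rw [chi_apply]; simp; ring
end chi

theorem unit_s {m i : ℕ} (hm : m % 16 = 7) (s : ZMod (2 ^ (i + 2)))
    (hs : s * s = ((-(m : ℤ) : ℤ) : ZMod (2 ^ (i + 2)))) : IsUnit s := by
  have h1 : IsUnit ((m : ℕ) : ZMod (2 ^ (i + 2))) := by
    rw [ZMod.isUnit_iff_coprime]
    apply Nat.Coprime.pow_right
    rw [Nat.coprime_two_right, Nat.odd_iff]
    omega
  have h2 : IsUnit (s * s) := by
    rw [hs]; push_cast; exact h1.neg
  exact isUnit_of_mul_isUnit_left h2

theorem dvd_of_two {i : ℕ} (r : ℤ) (h : (2 : ZMod (2 ^ (i + 2))) * (r : ZMod (2 ^ (i + 2))) = 0) :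
    (2 : ℤ) ^ i ∣ r := by
  have h1 : ((2 * r : ℤ) : ZMod (2 ^ (i + 2))) = 0 := by push_cast; exact h
  rw [ZMod.intCast_zmod_eq_zero_iff_dvd] at h1
  push_cast at h1
  obtain ⟨t, ht⟩ := h1
  refine ⟨2 * t, ?_⟩
  have : (2 : ℤ) ^ (i + 2) = 2 * (2 ^ i * 2) := by ring
  rw [this] at ht
  have h2 : (2 : ℤ) * r = 2 * (2 ^ i * (2 * t)) := by rw [ht]; ring
  exact mul_left_cancel₀ two_ne_zero h2

theorem zm_div {m i : ℕ} (hm : m % 16 = 7) (s : ZMod (2 ^ (i + 2)))
    (hs : s * s = ((-(m : ℤ) : ℤ) : ZMod (2 ^ (i + 2)))) (c : Zm m)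
    (h1 : chi s hs c = 0) (h2 : chi s hs (star c) = 0) : ∃ c' : Zm m, c = (2 ^ i : ℕ) • c' := by
  rw [chi_apply] at h1
  rw [chi_star] at h2
  have hr : (2 : ℤ) ^ i ∣ c.re := dvd_of_two c.re (by linear_combination h1 + h2)
  have hn : (2 : ℤ) ^ i ∣ c.im := by
    apply dvd_of_two c.im
    have h3 : (2 : ZMod (2 ^ (i + 2))) * (c.im : ZMod (2 ^ (i + 2))) * s = 0 := by
      linear_combination h1 - h2
    exact ((unit_s hm s hs).mul_left_eq_zero).1 h3
  obtain ⟨r, hr⟩ := hr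
  obtain ⟨n, hn⟩ := hn
  refine ⟨⟨r, n⟩, ?_⟩
  rw [nsmul_eq_mul]
  ext
  · rw [Zsqrtd.re_mul, Zsqrtd.re_natCast, Zsqrtd.im_natCast, hr]; push_cast; ring
  · rw [Zsqrtd.im_mul, Zsqrtd.re_natCast, Zsqrtd.im_natCast, hn]; push_cast; ring

theorem cub_div {m i : ℕ} {a : ℤ} (hm : m % 16 = 7) (s : ZMod (2 ^ (i + 2)))
    (hs : s * s = ((-(m : ℤ) : ℤ) : ZMod (2 ^ (i + 2)))) (c : Cub (Zm m) a)
    (h1 : Cub.map (chi s hs) c = 0) (h2 : Cub.map (chi s hs) (star c) = 0) :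
    ∃ c' : Cub (Zm m) a, c = (2 ^ i : ℕ) • c' := by
  obtain ⟨x, hx⟩ := zm_div hm s hs c.x (by simpa using congrArg Cub.x h1)
    (by simpa using congrArg Cub.x h2)
  obtain ⟨y, hy⟩ := zm_div hm s hs c.y (by simpa using congrArg Cub.y h1)
    (by simpa using congrArg Cub.y h2)
  obtain ⟨z, hz⟩ := zm_div hm s hs c.z (by simpa using congrArg Cub.z h1)
    (by simpa using congrArg Cub.z h2)
  refine ⟨⟨x, y, z⟩, ?_⟩
  ext1
  · rw [nsmul_x]; exact hx
  · rw [nsmul_y]; exact hy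
  · rw [nsmul_z]; exact hz

section pi
variable {m : ℕ} {q : ℕ} {a : ℤ} (φ : Zm m →+* ZMod q)

/-- the triple -/
noncomputable def pr (x : Ord m a) : Cub (ZMod q) a × Cub (ZMod q) a × Cub (ZMod q) a :=
  (Cub.map φ x.u, Cub.map φ x.v, Cub.map φ x.w)

theorem pr_mul (x x' y : Ord m a) (h : pr φ x = pr φ x') : pr φ (x * y) = pr φ (x' * y) := by
  simp only [pr, Prod.mk.injEq] at h
  obtain ⟨h1, h2, h3⟩ := h
  simp only [pr, Cyc.mul_u, Cyc.mul_v, Cyc.mul_w, map_add, map_mul, h1, h2, h3]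

theorem pr_sub (x x' : Ord m a) (h : pr φ x = pr φ x') : pr φ (x - x') = 0 := by
  simp only [pr, Prod.mk.injEq] at h
  obtain ⟨h1, h2, h3⟩ := h
  simp only [pr, Cyc.sub_u, Cyc.sub_v, Cyc.sub_w, map_sub, h1, h2, h3, sub_self]
  rfl

theorem pr_nat (n n' : ℕ) (h : (n : ZMod q) = n') : pr φ (n : Ord m a) = pr φ (n' : Ord m a) := by
  have : (n : Cub (ZMod q) a) = (n' : Cub (ZMod q) a) := by
    ext1
    · simpa using h
    · simp
    · simp
  simp only [pr, Cyc.natCast_u, Cyc.natCast_v, Cyc.natCast_w, map_natCast, this]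

theorem pr_nrd (x : Ord m a) : φ (Cyc.nrd x) = nm (pr φ x).1
    + φ (yy m * star (yy m) ^ 2) * nm (pr φ x).2.1
    + φ (yy m ^ 2 * star (yy m)) * nm (pr φ x).2.2
    - φ (yy m * star (yy m)) * tr ((pr φ x).1 * sig (pr φ x).2.1 * sig (sig (pr φ x).2.2)) := by
  have h : (pr φ x).1 * sig (pr φ x).2.1 * sig (sig (pr φ x).2.2)
      = Cub.map φ (x.u * sig x.v * sig (sig x.w)) := by
    simp only [pr, map_mul, map_sig]
  rw [h, tr_map]
  simp only [pr, nm_map, Cyc.nrd, map_sub, map_add, map_mul]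
end pi

theorem ord_div {m i : ℕ} {a : ℤ} (hm : m % 16 = 7) (s : ZMod (2 ^ (i + 2)))
    (hs : s * s = ((-(m : ℤ) : ℤ) : ZMod (2 ^ (i + 2)))) (e : Ord m a)
    (h1 : pr (chi s hs) e = 0) (h2 : pr (chi s hs) (star e) = 0) :
    ∃ z : Ord m a, e = ((2 ^ i : ℕ) : Ord m a) * z := by
  have a1 : Cub.map (chi s hs) e.u = 0 := congrArg Prod.fst h1
  have a2 : Cub.map (chi s hs) e.v = 0 := congrArg (fun t => t.2.1) h1
  have a3 : Cub.map (chi s hs) e.w = 0 := congrArg (fun t => t.2.2) h1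
  have b1 : Cub.map (chi s hs) (star e.u) = 0 := congrArg Prod.fst h2
  have b2 : Cub.map (chi s hs) (sig (star e.w)) = 0 := congrArg (fun t => t.2.1) h2
  have b3 : Cub.map (chi s hs) (sig (sig (star e.v))) = 0 := congrArg (fun t => t.2.2) h2
  have c2 : Cub.map (chi s hs) (star e.w) = 0 := by
    rw [map_sig] at b2
    have := congrArg (fun t => sig (sig t)) b2
    simpa using this
  have c3 : Cub.map (chi s hs) (star e.v) = 0 := by
    rw [map_sig, map_sig] at b3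
    have := congrArg (fun t => sig t) b3
    simpa using this
  obtain ⟨u, hu⟩ := cub_div hm s hs e.u a1 b1
  obtain ⟨v, hv⟩ := cub_div hm s hs e.v a2 c3
  obtain ⟨w, hw⟩ := cub_div hm s hs e.w a3 c2
  refine ⟨⟨u, v, w⟩, ?_⟩
  rw [← nsmul_eq_mul]
  ext1
  · rw [Cyc.nsmul_u]; exact hu
  · rw [Cyc.nsmul_v]; exact hv
  · rw [Cyc.nsmul_w]; exact hw

instance (q : ℕ) [NeZero q] (a : ℤ) : Finite (Cub (ZMod q) a) := by
  let f : Cub (ZMod q) a → ZMod q × ZMod q × ZMod q := fun t => (t.x, t.y, t.z)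
  have hf : Function.Injective f := by
    intro s t h
    simp only [f, Prod.mk.injEq] at h
    ext1
    · exact h.1
    · exact h.2.1
    · exact h.2.2
  exact Finite.of_injective f hf

section
variable {p m : ℕ} {a : ℤ} {A E : Type} [CommRing A] [IsDomain A] [IsDiscreteValuationRing A]
    [StarRing A] [Field E] [StarRing E] [Algebra A E] [IsFractionRing A E]

theorem rhoE_one (G : GD p m a A E) : rhoE G 1 = 1 := by
  simp only [rhoE, map_one]
  exact Matrix.map_one _ (map_zero _) (map_one _)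

theorem rhoE_nat (G : GD p m a A E) (n : ℕ) : rhoE G (n : Ord m a) = (n : E) • 1 := by
  have := rhoE_natCast_mul G n 1
  rwa [mul_one, rhoE_one] at this

theorem rhoE_sub (G : GD p m a A E) (x z : Ord m a) :
    rhoE G (x - z) = rhoE G x - rhoE G z := by
  have := rhoE_add G (x - z) z
  rw [sub_add_cancel] at this
  rw [this, add_sub_cancel_right]

theorem exists_rep (G : GD p m a A E) (hP : Par p m a) (i : ℕ) (γ : UJ E) (hγ : γ ∈ Gam G 1) :
    ∃ (k : ℕ) (x : Ord m a), (p : E) ^ k • mt γ = rhoE G x ∧ (p : ZMod (2 ^ (i + 2))) ^ k = 1 := by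
  obtain ⟨k, x, hx⟩ := hγ
  set q := 2 ^ (i + 2) with hq
  have hk : k ≤ k * q := Nat.le_mul_of_pos_right k (by positivity)
  refine ⟨k * q, ((p ^ (k * q - k) : ℕ) : Ord m a) * (((p ^ k : ℕ) : Ord m a) + x), ?_, ?_⟩
  · rw [rhoE_natCast_mul, rhoE_add, rhoE_nat]
    have e1 : (p : E) ^ (k * q) = (p : E) ^ (k * q - k) * (p : E) ^ k := by
      rw [← pow_add]; congr 1; omega
    have e2 : mt γ = 1 + (mt γ - 1) := by abel
    rw [e2, e1, mul_smul, smul_add ((p : E) ^ k), hx]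
    push_cast
    rw [one_smul]
  · have hodd : p % 2 = 1 := by
      have := hP.prime.eq_two_or_odd
      have := hP.five
      omega
    have hu : IsUnit (p : ZMod q) := by
      rw [ZMod.isUnit_iff_coprime, hq]
      apply Nat.Coprime.pow_right
      rw [Nat.coprime_two_right, Nat.odd_iff]
      exact hodd
    obtain ⟨u, hu⟩ := hu
    have h1 : u ^ q = 1 := by
      have h2 : u ^ Nat.totient q = 1 := ZMod.pow_totient u
      have h3 : Nat.totient q = 2 ^ (i + 1) := by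
        rw [hq, Nat.totient_prime_pow Nat.prime_two (by omega)]
        simp
      have h4 : q = Nat.totient q * 2 := by rw [h3, hq]; ring
      calc u ^ q = u ^ (Nat.totient q * 2) := congrArg (fun n => u ^ n) h4
        _ = 1 := by rw [pow_mul, h2, one_pow]
    rw [← hu, mul_comm, pow_mul]
    have : ((u : (ZMod q)ˣ) : ZMod q) ^ q = 1 := by
      rw [← Units.val_pow_eq_pow_val, h1, Units.val_one]
    rw [this, one_pow]

theorem rep_inv (G : GD p m a A E) (γ : UJ E) (k : ℕ) (x : Ord m a)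
    (h : (p : E) ^ k • mt γ = rhoE G x) : (p : E) ^ k • mt γ⁻¹ = rhoE G (star x) := by
  rw [rhoE_star, mt_inv, ← h, conjTranspose_smul]
  simp

end

end IXG

open IXG in
theorem IXG_proof (_h0 : St_CO) (h1 : St_SQ2) (h2 : St_CNT) (h3 : St_NPM) : St_IXG := by
  classical
  intro p m a A E _ _ _ _ _ _ _ _ G hP i
  obtain ⟨s2, hs2⟩ := h1 m hP.mod
  set q := 2 ^ (i + 2) with hq
  have : NeZero q := ⟨by positivity⟩
  set s : ZMod (2 ^ (i + 2)) := PadicInt.toZModPow (i + 2) s2 with hs_def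
  have hs : s * s = ((-(m : ℤ) : ℤ) : ZMod (2 ^ (i + 2))) := by
    rw [hs_def, ← map_mul, ← sq, hs2]
    simp
  set φ := chi s hs with hφ
  set α := φ (yy m * star (yy m) ^ 2) with hα
  set β := φ (yy m ^ 2 * star (yy m)) with hβ
  set κ := φ (yy m * star (yy m)) with hκ
  have h2κ : (2 : ZMod (2 ^ (i + 2))) ∣ κ := by
    have e : yy m * star (yy m) = ((2 * ((1 + m) / 2) : ℕ) : Zm m) := by
      have : 2 * ((1 + m) / 2) = 1 + m := by have := hP.mod; omega
      rw [this]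
      ext <;> simp [yy]
    rw [hκ, e, map_natCast]
    push_cast
    exact dvd_mul_right _ _
  have h2α : (2 : ZMod (2 ^ (i + 2))) ∣ α := by
    have e : yy m * star (yy m) ^ 2 = (yy m * star (yy m)) * star (yy m) := by ring
    rw [hα, e, map_mul]
    exact Dvd.dvd.mul_right h2κ _
  have h2β : (2 : ZMod (2 ^ (i + 2))) ∣ β := by
    have e : yy m ^ 2 * star (yy m) = (yy m * star (yy m)) * yy m := by ring
    rw [hβ, e, map_mul]
    exact Dvd.dvd.mul_right h2κ _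
  let F : Cub (ZMod (2 ^ (i + 2))) a × Cub (ZMod (2 ^ (i + 2))) a × Cub (ZMod (2 ^ (i + 2))) a →
      ZMod (2 ^ (i + 2)) := fun x => nm x.1 + α * nm x.2.1 + β * nm x.2.2
        - κ * tr (x.1 * sig x.2.1 * sig (sig x.2.2))
  have c1 : Nat.card {x // F x = 1} ≤ 2 * (2 ^ (i + 2)) ^ 8 :=
    h2 (i + 2) a α β κ 1 (by omega) h2α h2β h2κ isUnit_one
  have c2 : Nat.card {x // F x = -1} ≤ 2 * (2 ^ (i + 2)) ^ 8 :=
    h2 (i + 2) a α β κ (-1) (by omega) h2α h2β h2κ isUnit_one.neg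
  let S := {x // F x = 1 ∨ F x = -1}
  have hS : Nat.card S ≤ 2 ^ (8 * i + 18) := by
    have e1 : Nat.card S ≤ Nat.card {x // F x = 1} + Nat.card {x // F x = -1} := by
      have u1 := Set.ncard_union_le {x | F x = 1} {x | F x = -1}
      have u2 : ({x | F x = 1} ∪ {x | F x = -1}) = {x | F x = 1 ∨ F x = -1} := rfl
      rw [u2] at u1
      exact u1
    have e2 : 2 * (2 ^ (i + 2)) ^ 8 + 2 * (2 ^ (i + 2)) ^ 8 = 2 ^ (8 * i + 18) := by
      rw [← pow_mul]
      have : 8 * i + 18 = (i + 2) * 8 + 2 := by ring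
      rw [this, pow_add]; ring
    omega
  have : Finite S := inferInstance
  let f : S → Fin (2 ^ (8 * i + 18)) := fun t => Fin.castLE hS (Finite.equivFin S t)
  have hf : Function.Injective f := fun t t' h =>
    (Finite.equivFin S).injective (Fin.castLE_injective hS h)
  -- choose representatives
  have hch : ∀ γ : UJ E, ∃ kx : ℕ × Ord m a, γ ∈ Gam G 1 →
      ((p : E) ^ kx.1 • mt γ = rhoE G kx.2 ∧ (p : ZMod (2 ^ (i + 2))) ^ kx.1 = 1) := by
    intro γ
    by_cases h : γ ∈ Gam G 1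
    · obtain ⟨k, x, hx⟩ := exists_rep G hP i γ h
      exact ⟨(k, x), fun _ => hx⟩
    · exact ⟨(0, 0), fun h' => absurd h' h⟩
  choose kx hkx using hch
  have hmem : ∀ γ ∈ Gam G 1, F (pr φ (kx γ).2) = 1 ∨ F (pr φ (kx γ).2) = -1 := by
    intro γ hγ
    obtain ⟨hx, hk⟩ := hkx γ hγ
    obtain ⟨-, -, hn⟩ := h3 p m a A E G hP γ _ _ hx
    have hF : F (pr φ (kx γ).2) = φ (Cyc.nrd (kx γ).2) := (pr_nrd φ _).symm
    have hp3 : φ ((p : Zm m) ^ (3 * (kx γ).1)) = 1 := by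
      rw [map_pow, map_natCast, mul_comm, pow_mul, hk, one_pow]
    rcases hn with hn | hn
    · left; rw [hF, hn, hp3]
    · right; rw [hF, hn, map_neg, hp3]
  refine ⟨fun γ => if h : F (pr φ (kx γ).2) = 1 ∨ F (pr φ (kx γ).2) = -1 then
    f ⟨pr φ (kx γ).2, h⟩ else ⟨0, by positivity⟩, ?_⟩
  intro γ hγ γ' hγ' hc
  simp only [dif_pos (hmem γ hγ), dif_pos (hmem γ' hγ')] at hc
  have hpr : pr φ (kx γ).2 = pr φ (kx γ').2 := congrArg Subtype.val (hf hc)
  obtain ⟨hx, hk⟩ := hkx γ hγ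
  obtain ⟨hx', hk'⟩ := hkx γ' hγ'
  obtain ⟨n1, -, -⟩ := h3 p m a A E G hP γ _ _ hx
  obtain ⟨n1', -, -⟩ := h3 p m a A E G hP γ' _ _ hx'
  set k := (kx γ).1 with hkdef
  set k' := (kx γ').1 with hkdef'
  set x := (kx γ).2 with hxdef
  set x' := (kx γ').2 with hxdef'
  set e : Ord m a := x' * star x - ((p ^ (k + k') : ℕ) : Ord m a) with he
  have hstar : star e = x * star x' - ((p ^ (k + k') : ℕ) : Ord m a) := by
    rw [he, star_sub, star_mul, star_star, star_natCast]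
  have hnat : ∀ j j' : ℕ, (p : ZMod (2 ^ (i + 2))) ^ j = 1 → (p : ZMod (2 ^ (i + 2))) ^ j' = 1 →
      pr φ ((p ^ j : ℕ) : Ord m a) = pr φ ((p ^ j' : ℕ) : Ord m a) := by
    intro j j' hj hj'
    apply pr_nat
    push_cast
    rw [hj, hj']
  have hkk : (p : ZMod (2 ^ (i + 2))) ^ (k + k') = 1 := by
    rw [pow_add (p : ZMod (2 ^ (i + 2))) k k', hk, hk', one_mul]
  have hk2 : (p : ZMod (2 ^ (i + 2))) ^ (2 * k) = 1 := by rw [mul_comm 2 k, pow_mul, hk, one_pow]
  have hk2' : (p : ZMod (2 ^ (i + 2))) ^ (2 * k') = 1 := by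
    rw [mul_comm 2 k', pow_mul, hk', one_pow]
  have he1 : pr φ e = 0 := by
    apply pr_sub
    rw [pr_mul φ x' x (star x) hpr.symm, n1]
    exact hnat _ _ hk2 hkk
  have he2 : pr φ (star e) = 0 := by
    rw [hstar]
    apply pr_sub
    rw [pr_mul φ x x' (star x') hpr, n1']
    exact hnat _ _ hk2' hkk
  obtain ⟨z, hz⟩ := ord_div hP.mod s hs e he1 he2
  refine ⟨k + k', z, ?_⟩
  have h5 : (p : E) ^ (k + k') • (mt (γ' * γ⁻¹) - 1) = rhoE G e := by
    rw [he, rhoE_sub, rhoE_mul, rhoE_nat, ← hx', ← rep_inv G γ k x hx, mt_mul, smul_sub,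
      smul_mul_smul_comm, ← pow_add, add_comm k' k]
    push_cast
    rfl
  rw [h5, hz, rhoE_natCast_mul]

end Pool.Agent.H791R3.GI
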