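import Mathlib
import Pool.Agent.H791R3.GI.Stubs

/-!
# Auxiliary lemmas for the tasks LA and LB (helper649)
-/

set_option autoImplicit false

namespace Pool.Agent.H791R3.GI.LAaux

open Matrix Pool.Agent.H791R3.GI

section
variable {E : Type} [Field E] [StarRing E]

/-- the element of the unitary group with matrix `M` -/
def mkU (M : Matrix (Fin 3) (Fin 3) E) (h : M * J E * Mᴴ = J E) : UJ E :=
  ⟨⟨M, J E * Mᴴ * J E, by
      calc M * (J E * Mᴴ * J E) = (M * J E * Mᴴ) * J E := by simp only [Matrix.mul_assoc]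
        _ = 1 := by rw [h, J_mul_J], by
      refine mul_eq_one_comm.mp ?_
      calc M * (J E * Mᴴ * J E) = (M * J E * Mᴴ) * J E := by simp only [Matrix.mul_assoc]
        _ = 1 := by rw [h, J_mul_J]⟩, h⟩

theorem mt_mkU (M : Matrix (Fin 3) (Fin 3) E) (h : M * J E * Mᴴ = J E) : mt (mkU M h) = M := rfl

theorem mt_mkU_inv (M : Matrix (Fin 3) (Fin 3) E) (h : M * J E * Mᴴ = J E) :
    mt (mkU M h)⁻¹ = J E * Mᴴ * J E := by
  rw [mt_inv, mt_mkU]

end

section
variable {p : ℕ} {A E : Type} [CommRing A] [IsDomain A] [IsDiscreteValuationRing A]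
    [StarRing A] [Field E] [StarRing E] [Algebra A E] [IsFractionRing A E]

theorem prime_ϖ (L : LD p A E) : Prime L.ϖ := L.irr.prime

theorem dvd_p (L : LD p A E) : L.ϖ ∣ (p : A) :=
  (dvd_pow_self L.ϖ two_ne_zero).trans L.assoc_p.symm.dvd

/-- an integer prime to `p` is not divisible by `ϖ` -/
theorem not_dvd_int (L : LD p A E) (n : ℤ) (hn : IsCoprime n (p : ℤ)) : ¬ L.ϖ ∣ (n : A) := by
  intro h
  obtain ⟨u, v, huv⟩ := hn
  have h1 : ((u * n + v * p : ℤ) : A) = 1 := by rw [huv]; simp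
  have h2 : L.ϖ ∣ 1 := by
    rw [← h1]
    push_cast
    exact dvd_add (h.mul_left _) ((dvd_p L).mul_left _)
  exact L.irr.not_isUnit (isUnit_of_dvd_one h2)

theorem not_dvd_sub (L : LD p A E) {i j : ℕ} (hi : i < p) (hj : j < p) (hij : i ≠ j) :
    ¬ L.ϖ ∣ ((j : A) - (i : A)) := by
  have hc : IsCoprime ((j : ℤ) - (i : ℤ)) (p : ℤ) := by
    rw [isCoprime_comm, Prime.coprime_iff_not_dvd (Nat.prime_iff_prime_int.mp L.prime)]
    rintro ⟨c, hc⟩
    have hi' : (i : ℤ) < p := by exact_mod_cast hi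
    have hj' : (j : ℤ) < p := by exact_mod_cast hj
    have hp : (0 : ℤ) < p := by exact_mod_cast L.prime.pos
    have hne : (j : ℤ) - i ≠ 0 := by
      intro h
      exact hij (by omega)
    rcases lt_trichotomy c 0 with h | h | h
    · have : (p : ℤ) * c ≤ -p := by nlinarith
      omega
    · rw [h, mul_zero] at hc
      exact hne hc
    · have : (p : ℤ) ≤ p * c := by nlinarith
      omega
  have := not_dvd_int L _ hc
  push_cast at this
  exact this

/-- entries of a matrix conjugated by `T` -/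
theorem conj_apply (L : LD p A E) (X : Matrix (Fin 3) (Fin 3) E) (i j : Fin 3) :
    (T L * X * T' L) i j = (![1, 1, algebraMap A E L.ϖ] : Fin 3 → E) i * X i j
      * (![1, 1, (algebraMap A E L.ϖ)⁻¹] : Fin 3 → E) j := by
  rw [T, T', Matrix.mul_diagonal, Matrix.diagonal_mul]

/-- membership in `Intg L 0` entrywise -/
theorem intg_of (L : LD p A E) (X : Matrix (Fin 3) (Fin 3) E)
    (h : ∀ i j, ∃ a : A, X i j = algebraMap A E a) : Intg L 0 X := by
  rw [Intg.zero_iff]
  choose M hM using h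
  exact ⟨Matrix.of M, by ext i j; simp [hM]⟩

theorem of_intg {L : LD p A E} {X : Matrix (Fin 3) (Fin 3) E} (h : Intg L 0 X) (i j : Fin 3) :
    ∃ a : A, X i j = algebraMap A E a := by
  rw [Intg.zero_iff] at h
  obtain ⟨M, hM⟩ := h
  exact ⟨M i j, by rw [hM]; rfl⟩

/-- if `ϖ ∤ u`, then `u / ϖ` is not in `A` -/
theorem not_int_div (L : LD p A E) (u : A) (hu : ¬ L.ϖ ∣ u) (a : A) :
    algebraMap A E u * (algebraMap A E L.ϖ)⁻¹ ≠ algebraMap A E a := by
  intro h
  apply hu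
  refine ⟨a, ?_⟩
  apply IsFractionRing.injective A E
  rw [map_mul, ← h, mul_comm, mul_assoc, inv_mul_cancel₀ (ϖ_ne L), mul_one]

theorem not_mem_KB (L : LD p A E) (g : UJ E) (u : A) (hu : ¬ L.ϖ ∣ u)
    (h : mt g 0 2 = algebraMap A E u) : g ∉ KB L := by
  rintro ⟨h1, -⟩
  obtain ⟨a, ha⟩ := of_intg h1 0 2
  rw [conj_apply, h] at ha
  simp at ha
  exact not_int_div L u hu a ha

theorem not_mem_KA (L : LD p A E) (g : UJ E) (u : A) (hu : ¬ L.ϖ ∣ u)
    (h : mt g 2 0 = algebraMap A E u * (algebraMap A E L.ϖ)⁻¹) : g ∉ KA L := by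
  rintro ⟨h1, -⟩
  obtain ⟨a, ha⟩ := of_intg h1 2 0
  rw [h] at ha
  exact not_int_div L u hu a ha

end

end Pool.Agent.H791R3.GI.LAaux
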