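import Mathlib
import Pool.Agent.H791R3.GI.LAaux

/-!
# LA: `p+1` cosets of `KA ∩ KB` in `KA` (helper649)
-/

set_option autoImplicit false

namespace Pool.Agent.H791R3.GI

open Matrix

namespace LA

open LAaux

section
variable {p : ℕ} {A E : Type} [CommRing A] [IsDomain A] [IsDiscreteValuationRing A]
    [StarRing A] [Field E] [StarRing E] [Algebra A E] [IsFractionRing A E]

theorem two_ne (L : LD p A E) : (2 : E) ≠ 0 := by
  have h := L.two.map (algebraMap A E)
  rw [map_ofNat] at h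
  exact h.ne_zero

/-- the unipotent elements -/
def Nm (E : Type) [Field E] [StarRing E] (n : ℕ) : Matrix (Fin 3) (Fin 3) E :=
  !![1, (n : E), (n : E) ^ 2 / 2; 0, 1, (n : E); 0, 0, 1]

def Nm' (E : Type) [Field E] [StarRing E] (n : ℕ) : Matrix (Fin 3) (Fin 3) E :=
  !![1, -(n : E), (n : E) ^ 2 / 2; 0, 1, -(n : E); 0, 0, 1]

/-- the Weyl element -/
def Wm (E : Type) [Field E] [StarRing E] : Matrix (Fin 3) (Fin 3) E :=
  !![0, 0, 1; 0, 1, 0; 1, 0, 0]

theorem Nm_star (E : Type) [Field E] [StarRing E] (n : ℕ) :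
    (Nm E n)ᴴ = !![1, 0, 0; (n : E), 1, 0; (n : E) ^ 2 / 2, (n : E), 1] := by
  ext i j
  fin_cases i <;> fin_cases j <;> simp [Nm, Matrix.conjTranspose_apply]

theorem Wm_star (E : Type) [Field E] [StarRing E] : (Wm E)ᴴ = Wm E := by
  ext i j
  fin_cases i <;> fin_cases j <;> simp [Wm, Matrix.conjTranspose_apply]

theorem Nm_J (L : LD p A E) (n : ℕ) : Nm E n * J E * (Nm E n)ᴴ = J E := by
  have h2 := two_ne L
  rw [Nm_star]
  ext i j
  fin_cases i <;> fin_cases j <;>
    simp [Nm, J, Matrix.mul_apply, Fin.sum_univ_three] <;> field_simp <;> ring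

theorem Nm_inv (n : ℕ) : J E * (Nm E n)ᴴ * J E = Nm' E n := by
  rw [Nm_star]
  ext i j
  fin_cases i <;> fin_cases j <;>
    simp [Nm', J, Matrix.mul_apply, Fin.sum_univ_three]

theorem Wm_J : Wm E * J E * (Wm E)ᴴ = J E := by
  rw [Wm_star]
  ext i j
  fin_cases i <;> fin_cases j <;>
    simp [Wm, J, Matrix.mul_apply, Fin.sum_univ_three]

theorem Wm_inv : J E * (Wm E)ᴴ * J E = Wm E := by
  rw [Wm_star]
  ext i j
  fin_cases i <;> fin_cases j <;>
    simp [Wm, J, Matrix.mul_apply, Fin.sum_univ_three]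

/-- the `p + 1` representatives -/
noncomputable def fA (L : LD p A E) (i : Fin (p + 1)) : UJ E :=
  if (i : ℕ) < p then mkU (Nm E i) (Nm_J L i) else mkU (Wm E) Wm_J

end

end LA

open LA LAaux

theorem LA_proof : St_LA := by
  intro p A E _ _ _ _ _ _ _ _ L
  have h2 := two_ne L
  obtain ⟨b, hb⟩ : ∃ b : A, (2 : E)⁻¹ = algebraMap A E b := by
    obtain ⟨u, hu⟩ := L.two
    refine ⟨↑u⁻¹, ?_⟩
    have : (2 : E) * algebraMap A E ↑u⁻¹ = 1 := by
      rw [← map_ofNat (algebraMap A E) 2, ← map_mul, ← hu]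
      simp
    exact (eq_inv_of_mul_eq_one_right this).symm
  have hb2 : ¬ L.ϖ ∣ b := by
    intro h
    have : (2 : A) * b = 1 := by
      apply IsFractionRing.injective A E
      rw [map_mul, ← hb, map_ofNat, map_one, mul_inv_cancel₀ h2]
    exact L.irr.not_isUnit (isUnit_of_dvd_one (this ▸ h.mul_left 2))
  have hN : ∀ n : ℕ, mkU (Nm E n) (Nm_J L n) ∈ KA L := by
    intro n
    refine ⟨intg_of L _ ?_, intg_of L _ ?_⟩
    · rw [mt_mkU]
      intro i j
      fin_cases i <;> fin_cases j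
      · exact ⟨1, by simp [Nm]⟩
      · exact ⟨n, by simp [Nm]⟩
      · exact ⟨n ^ 2 * b, by simp [Nm, ← hb, div_eq_mul_inv]⟩
      · exact ⟨0, by simp [Nm]⟩
      · exact ⟨1, by simp [Nm]⟩
      · exact ⟨n, by simp [Nm]⟩
      · exact ⟨0, by simp [Nm]⟩
      · exact ⟨0, by simp [Nm]⟩
      · exact ⟨1, by simp [Nm]⟩
    · rw [mt_mkU_inv, Nm_inv]
      intro i j
      fin_cases i <;> fin_cases j
      · exact ⟨1, by simp [Nm']⟩
      · exact ⟨-n, by simp [Nm']⟩
      · exact ⟨n ^ 2 * b, by simp [Nm', ← hb, div_eq_mul_inv]⟩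
      · exact ⟨0, by simp [Nm']⟩
      · exact ⟨1, by simp [Nm']⟩
      · exact ⟨-n, by simp [Nm']⟩
      · exact ⟨0, by simp [Nm']⟩
      · exact ⟨0, by simp [Nm']⟩
      · exact ⟨1, by simp [Nm']⟩
  have hWi : ∀ i j : Fin 3, ∃ a : A, Wm E i j = algebraMap A E a := by
    intro i j
    fin_cases i <;> fin_cases j
    · exact ⟨0, by simp [Wm]⟩
    · exact ⟨0, by simp [Wm]⟩
    · exact ⟨1, by simp [Wm]⟩
    · exact ⟨0, by simp [Wm]⟩
    · exact ⟨1, by simp [Wm]⟩
    · exact ⟨0, by simp [Wm]⟩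
    · exact ⟨1, by simp [Wm]⟩
    · exact ⟨0, by simp [Wm]⟩
    · exact ⟨0, by simp [Wm]⟩
  have hW : mkU (Wm E) Wm_J ∈ KA L := by
    refine ⟨intg_of L _ ?_, intg_of L _ ?_⟩
    · rw [mt_mkU]; exact hWi
    · rw [mt_mkU_inv, Wm_inv]; exact hWi
  have hWN : ∀ n : ℕ, (mkU (Wm E) Wm_J)⁻¹ * mkU (Nm E n) (Nm_J L n) ∉ KB L := by
    intro n
    refine not_mem_KB L _ 1 (fun h => L.irr.not_isUnit (isUnit_of_dvd_one h)) ?_
    rw [mt_mul, mt_mkU_inv, mt_mkU, Wm_inv]
    simp [Wm, Nm, Matrix.mul_apply, Fin.sum_univ_three]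
  refine ⟨fA L, ?_, ?_⟩
  · intro i
    unfold fA
    split_ifs
    · exact hN _
    · exact hW
  · intro i j hij
    unfold fA
    split_ifs with hi hj hj
    · refine not_mem_KB L _ ((((j : ℕ) : A) - ((i : ℕ) : A)) ^ 2 * b) ?_ ?_
      · intro h
        rcases (prime_ϖ L).dvd_or_dvd h with h | h
        · exact not_dvd_sub L hi hj (fun h => hij (Fin.ext h)) ((prime_ϖ L).dvd_of_dvd_pow h)
        · exact hb2 h
      · rw [mt_mul, mt_mkU_inv, mt_mkU, Nm_inv]
        simp only [Nm, Nm', Matrix.mul_apply, Fin.sum_univ_three, map_mul, map_pow, map_sub,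
          map_natCast, ← hb]
        simp
        field_simp
        ring
    · have h := hWN i
      intro h'
      apply h
      have := (KB L).inv_mem h'
      simpa using this
    · exact hWN j
    · exfalso
      apply hij
      apply Fin.ext
      have := i.2
      have := j.2
      omega

end Pool.Agent.H791R3.GI
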