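import Mathlib
import Pool.Agent.H791R3.GI.LAaux

/-!
# LB: `p+1` cosets of `KA ∩ KB` in `KB` (helper649)
-/

set_option autoImplicit false

namespace Pool.Agent.H791R3.GI

open Matrix

namespace LB

open LAaux

section
variable {p : ℕ} {A E : Type} [CommRing A] [IsDomain A] [IsDiscreteValuationRing A]
    [StarRing A] [Field E] [StarRing E] [Algebra A E] [IsFractionRing A E]

theorem star_c (L : LD p A E) : star (algebraMap A E L.ϖ) = -algebraMap A E L.ϖ := by
  rw [← L.star_map, L.star_ϖ, map_neg]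

/-- the unipotent elements of `KB` -/
noncomputable def Bm (L : LD p A E) (n : ℕ) : Matrix (Fin 3) (Fin 3) E :=
  !![1, 0, 0; 0, 1, 0; (n : E) * (algebraMap A E L.ϖ)⁻¹, 0, 1]

noncomputable def Bm' (L : LD p A E) (n : ℕ) : Matrix (Fin 3) (Fin 3) E :=
  !![1, 0, 0; 0, 1, 0; -((n : E) * (algebraMap A E L.ϖ)⁻¹), 0, 1]

/-- the Weyl element of `KB` -/
noncomputable def Vm (L : LD p A E) : Matrix (Fin 3) (Fin 3) E :=
  !![0, 0, algebraMap A E L.ϖ; 0, 1, 0; -(algebraMap A E L.ϖ)⁻¹, 0, 0]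

noncomputable def Vm' (L : LD p A E) : Matrix (Fin 3) (Fin 3) E :=
  !![0, 0, -algebraMap A E L.ϖ; 0, 1, 0; (algebraMap A E L.ϖ)⁻¹, 0, 0]

theorem Bm_star (L : LD p A E) (n : ℕ) :
    (Bm L n)ᴴ = !![1, 0, -((n : E) * (algebraMap A E L.ϖ)⁻¹); 0, 1, 0; 0, 0, 1] := by
  ext i j
  fin_cases i <;> fin_cases j <;>
    simp [Bm, Matrix.conjTranspose_apply, star_c L, inv_neg]

theorem Vm_star (L : LD p A E) :
    (Vm L)ᴴ = !![0, 0, (algebraMap A E L.ϖ)⁻¹; 0, 1, 0; -algebraMap A E L.ϖ, 0, 0] := by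
  ext i j
  fin_cases i <;> fin_cases j <;>
    simp [Vm, Matrix.conjTranspose_apply, star_c L, inv_neg]

theorem Bm_J (L : LD p A E) (n : ℕ) : Bm L n * J E * (Bm L n)ᴴ = J E := by
  rw [Bm_star]
  ext i j
  fin_cases i <;> fin_cases j <;>
    simp [Bm, J, Matrix.mul_apply, Fin.sum_univ_three]

theorem Bm_inv (L : LD p A E) (n : ℕ) : J E * (Bm L n)ᴴ * J E = Bm' L n := by
  rw [Bm_star]
  ext i j
  fin_cases i <;> fin_cases j <;>
    simp [Bm', J, Matrix.mul_apply, Fin.sum_univ_three]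

theorem Vm_J (L : LD p A E) : Vm L * J E * (Vm L)ᴴ = J E := by
  have h := ϖ_ne L
  rw [Vm_star]
  ext i j
  fin_cases i <;> fin_cases j <;>
    simp [Vm, J, Matrix.mul_apply, Fin.sum_univ_three, h]
  rw [Algebra.smul_def, mul_inv_cancel₀ h]

theorem Vm_inv (L : LD p A E) : J E * (Vm L)ᴴ * J E = Vm' L := by
  rw [Vm_star]
  ext i j
  fin_cases i <;> fin_cases j <;>
    simp [Vm', J, Matrix.mul_apply, Fin.sum_univ_three]

/-- the `p + 1` representatives -/
noncomputable def fB (L : LD p A E) (i : Fin (p + 1)) : UJ E :=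
  if (i : ℕ) < p then mkU (Bm L i) (Bm_J L i) else mkU (Vm L) (Vm_J L)

end

end LB

open LB LAaux

theorem LB_proof : St_LB := by
  intro p A E _ _ _ _ _ _ _ _ L
  have hne := ϖ_ne L
  have hB : ∀ n : ℕ, mkU (Bm L n) (Bm_J L n) ∈ KB L := by
    intro n
    refine ⟨intg_of L _ ?_, intg_of L _ ?_⟩
    · rw [mt_mkU]
      intro i j
      rw [conj_apply]
      fin_cases i <;> fin_cases j
      · exact ⟨1, by simp [Bm]⟩
      · exact ⟨0, by simp [Bm]⟩
      · exact ⟨0, by simp [Bm]⟩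
      · exact ⟨0, by simp [Bm]⟩
      · exact ⟨1, by simp [Bm]⟩
      · exact ⟨0, by simp [Bm]⟩
      · exact ⟨n, by simp [Bm]; field_simp⟩
      · exact ⟨0, by simp [Bm]⟩
      · exact ⟨1, by simp [Bm, hne]⟩
    · rw [mt_mkU_inv, Bm_inv]
      intro i j
      rw [conj_apply]
      fin_cases i <;> fin_cases j
      · exact ⟨1, by simp [Bm']⟩
      · exact ⟨0, by simp [Bm']⟩
      · exact ⟨0, by simp [Bm']⟩
      · exact ⟨0, by simp [Bm']⟩
      · exact ⟨1, by simp [Bm']⟩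
      · exact ⟨0, by simp [Bm']⟩
      · exact ⟨-n, by simp [Bm']; field_simp⟩
      · exact ⟨0, by simp [Bm']⟩
      · exact ⟨1, by simp [Bm', hne]⟩
  have hV : mkU (Vm L) (Vm_J L) ∈ KB L := by
    refine ⟨intg_of L _ ?_, intg_of L _ ?_⟩
    · rw [mt_mkU]
      intro i j
      rw [conj_apply]
      fin_cases i <;> fin_cases j
      · exact ⟨0, by simp [Vm]⟩
      · exact ⟨0, by simp [Vm]⟩
      · exact ⟨1, by simp [Vm, hne]⟩
      · exact ⟨0, by simp [Vm]⟩
      · exact ⟨1, by simp [Vm]⟩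
      · exact ⟨0, by simp [Vm]⟩
      · exact ⟨-1, by simp [Vm, hne]⟩
      · exact ⟨0, by simp [Vm]⟩
      · exact ⟨0, by simp [Vm]⟩
    · rw [mt_mkU_inv, Vm_inv]
      intro i j
      rw [conj_apply]
      fin_cases i <;> fin_cases j
      · exact ⟨0, by simp [Vm']⟩
      · exact ⟨0, by simp [Vm']⟩
      · exact ⟨-1, by simp [Vm', hne]⟩
      · exact ⟨0, by simp [Vm']⟩
      · exact ⟨1, by simp [Vm']⟩
      · exact ⟨0, by simp [Vm']⟩
      · exact ⟨1, by simp [Vm', hne]⟩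
      · exact ⟨0, by simp [Vm']⟩
      · exact ⟨0, by simp [Vm']⟩
  have hVB : ∀ n : ℕ, (mkU (Vm L) (Vm_J L))⁻¹ * mkU (Bm L n) (Bm_J L n) ∉ KA L := by
    intro n
    refine not_mem_KA L _ 1 (fun h => L.irr.not_isUnit (isUnit_of_dvd_one h)) ?_
    rw [mt_mul, mt_mkU_inv, mt_mkU, Vm_inv]
    simp [Vm', Bm, Matrix.mul_apply, Fin.sum_univ_three]
  refine ⟨fB L, ?_, ?_⟩
  · intro i
    unfold fB
    split_ifs
    · exact hB _
    · exact hV
  · intro i j hij
    unfold fB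
    split_ifs with hi hj hj
    · refine not_mem_KA L _ (((j : ℕ) : A) - ((i : ℕ) : A))
        (not_dvd_sub L hi hj (fun h => hij (Fin.ext h))) ?_
      rw [mt_mul, mt_mkU_inv, mt_mkU, Bm_inv]
      simp only [Bm, Bm', Matrix.mul_apply, Fin.sum_univ_three, map_sub, map_natCast]
      simp
      ring
    · have h := hVB i
      intro h'
      apply h
      have := (KA L).inv_mem h'
      simpa using this
    · exact hVB j
    · exfalso
      apply hij
      apply Fin.ext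
      have := i.2
      have := j.2
      omega

end Pool.Agent.H791R3.GI
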