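import Mathlib
import Pool.Agent.H791R3.GI.Stubs

/-!
# LW: levels of reduced words
-/

set_option autoImplicit false

namespace Pool.Agent.H791R3.GI

namespace LW

open Matrix

variable {p : ℕ} {A E : Type} [CommRing A] [IsDomain A] [IsDiscreteValuationRing A]
    [StarRing A] [Field E] [StarRing E] [Algebra A E] [IsFractionRing A E]

theorem inj : Function.Injective (algebraMap A E) := IsFractionRing.injective A E

theorem map_inj {M N : Matrix (Fin 3) (Fin 3) A}
    (h : M.map (algebraMap A E) = N.map (algebraMap A E)) : M = N := by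
  ext i j
  have := congrFun (congrFun h i) j
  exact inj this

/-- divisibility is stable under the involution -/
theorem dvd_star (L : LD p A E) {x : A} (h : L.ϖ ∣ x) : L.ϖ ∣ star x := by
  have := L.star_sub x
  have h2 := dvd_add this h
  simpa using h2

theorem J_map : (J A).map (algebraMap A E) = J E := by
  ext i j
  fin_cases i <;> fin_cases j <;> simp [J]

theorem conj_map (L : LD p A E) (M : Matrix (Fin 3) (Fin 3) A) :
    (M.map (algebraMap A E))ᴴ = (Mᴴ).map (algebraMap A E) := by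
  ext i j
  simp [Matrix.conjTranspose_apply, L.star_map]

/-- integrality of the inverse -/
theorem intg_inv (L : LD p A E) (g : UJ E) (h : Intg L 0 (mt g)) : Intg L 0 (mt g⁻¹) := by
  rw [Intg.zero_iff] at h ⊢
  obtain ⟨M, hM⟩ := h
  refine ⟨J A * Mᴴ * J A, ?_⟩
  rw [mt_inv, hM, conj_map L, ← J_map (A := A), Matrix.map_mul, Matrix.map_mul]

/-- matrices of elements of `KA` -/
theorem ka_mat (L : LD p A E) (a : UJ E) (ha : a ∈ KA L) :
    ∃ M M' : Matrix (Fin 3) (Fin 3) A, mt a = M.map (algebraMap A E) ∧ M * M' = 1 ∧ M' * M = 1 ∧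
      M * J A * Mᴴ = J A := by
  obtain ⟨h1, h2⟩ := ha
  rw [Intg.zero_iff] at h1 h2
  obtain ⟨M, hM⟩ := h1
  obtain ⟨N, hN⟩ := h2
  refine ⟨M, N, hM, ?_, ?_, ?_⟩
  · apply map_inj (E := E)
    rw [Matrix.map_mul, ← hM, ← hN, mt_mul_inv]
    simp
  · apply map_inj (E := E)
    rw [Matrix.map_mul, ← hM, ← hN, mt_inv_mul]
    simp
  · apply map_inj (E := E)
    rw [Matrix.map_mul, Matrix.map_mul, ← conj_map L, ← hM, J_map, mt_J]

theorem TmT' (L : LD p A E) (X : Matrix (Fin 3) (Fin 3) E) (i j : Fin 3) :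
    (T L * X * T' L) i j = ![1, 1, algebraMap A E L.ϖ] i * X i j *
      ![1, 1, (algebraMap A E L.ϖ)⁻¹] j := by
  rw [T, T', Matrix.mul_diagonal, Matrix.diagonal_mul]

theorem inv_entry (g : UJ E) (i j : Fin 3) :
    mt g⁻¹ i j = ![1, -1, 1] i * ![1, -1, 1] j * star (mt g (2 - j) (2 - i)) := by
  rw [mt_inv]
  fin_cases i <;> fin_cases j <;>
    simp [J, Matrix.mul_apply, Matrix.vecMul, dotProduct, Fin.sum_univ_three,
      Matrix.conjTranspose_apply]

/-- matrices of elements of `KB` -/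
theorem kb_mat (L : LD p A E) (b : UJ E) (hb : b ∈ KB L) :
    ∃ B : Matrix (Fin 3) (Fin 3) A, (algebraMap A E L.ϖ) • mt b = B.map (algebraMap A E) ∧
      (∀ i j, (i ≠ 2 ∨ j ≠ 0) → L.ϖ ∣ B i j) ∧ (L.ϖ ∣ B 2 0 → b ∈ KA L) := by
  obtain ⟨h1, h2⟩ := hb
  rw [Intg.zero_iff] at h1 h2
  obtain ⟨X, hX⟩ := h1
  obtain ⟨Y, hY⟩ := h2
  have hw := ϖ_ne L
  have eX : ∀ i j, ![1, 1, algebraMap A E L.ϖ] i * mt b i j *
      ![1, 1, (algebraMap A E L.ϖ)⁻¹] j = algebraMap A E (X i j) := by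
    intro i j
    rw [← TmT', hX, Matrix.map_apply]
  have eY : ∀ i j, ![1, 1, algebraMap A E L.ϖ] i * (![1, -1, 1] i * ![1, -1, 1] j *
      star (mt b (2 - j) (2 - i))) *
      ![1, 1, (algebraMap A E L.ϖ)⁻¹] j = algebraMap A E (Y i j) := by
    intro i j
    rw [← inv_entry, ← TmT', hY, Matrix.map_apply]
  -- the entries
  have b00 : mt b 0 0 = algebraMap A E (X 0 0) := by simpa using eX 0 0
  have b11 : mt b 1 1 = algebraMap A E (X 1 1) := by simpa using eX 1 1
  have b22 : mt b 2 2 = algebraMap A E (X 2 2) := by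
    have := eX 2 2
    simp at this
    rw [← this]; field_simp
  have b10 : mt b 1 0 = algebraMap A E (X 1 0) := by simpa using eX 1 0
  have b02 : mt b 0 2 = algebraMap A E (L.ϖ * X 0 2) := by
    have := eX 0 2
    simp at this
    rw [map_mul, ← this]; field_simp
  have b12 : mt b 1 2 = algebraMap A E (L.ϖ * X 1 2) := by
    have := eX 1 2
    simp at this
    rw [map_mul, ← this]; field_simp
  have b20 : algebraMap A E L.ϖ * mt b 2 0 = algebraMap A E (X 2 0) := by
    simpa using eX 2 0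
  have b01 : mt b 0 1 = algebraMap A E (L.ϖ * star (Y 1 2)) := by
    have := eY 1 2
    simp at this
    have h3 : star (mt b 0 1) = - algebraMap A E (L.ϖ * Y 1 2) := by
      rw [map_mul, ← this]; field_simp
    have h4 := congrArg star h3
    rw [star_star] at h4
    rw [h4, star_neg, ← L.star_map, star_mul, L.star_ϖ, ← map_neg]
    congr 1
    ring
  have b21 : mt b 2 1 = algebraMap A E (- star (Y 1 0)) := by
    have := eY 1 0
    simp at this
    have h3 : star (mt b 2 1) = - algebraMap A E (Y 1 0) := by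
      rw [← this]; simp
    have h4 := congrArg star h3
    rw [star_star] at h4
    rw [h4, star_neg, ← L.star_map, ← map_neg]
  refine ⟨!![L.ϖ * X 0 0, L.ϖ * (L.ϖ * star (Y 1 2)), L.ϖ * (L.ϖ * X 0 2);
    L.ϖ * X 1 0, L.ϖ * X 1 1, L.ϖ * (L.ϖ * X 1 2);
    X 2 0, L.ϖ * (- star (Y 1 0)), L.ϖ * X 2 2], ?_, ?_, ?_⟩
  · ext i j
    fin_cases i <;> fin_cases j <;>
      simp only [Fin.zero_eta, Fin.mk_one, Fin.reduceFinMk, Fin.isValue, Matrix.smul_apply,
        smul_eq_mul, Matrix.map_apply, Matrix.of_apply, Matrix.cons_val', Matrix.cons_val_zero,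
        Matrix.cons_val_one, Matrix.cons_val, Matrix.cons_val_fin_one]
    · rw [b00, ← map_mul]
    · rw [b01, ← map_mul]
    · rw [b02, ← map_mul]
    · rw [b10, ← map_mul]
    · rw [b11, ← map_mul]
    · rw [b12, ← map_mul]
    · rw [b20]
    · rw [b21, ← map_mul]
    · rw [b22, ← map_mul]
  · intro i j hij
    fin_cases i <;> fin_cases j <;> simp at hij ⊢
  · intro hd
    simp at hd
    obtain ⟨c, hc⟩ := hd
    have b20' : mt b 2 0 = algebraMap A E c := by
      rw [hc, map_mul] at b20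
      exact mul_left_cancel₀ hw b20
    have hi : Intg L 0 (mt b) := by
      rw [Intg.zero_iff]
      refine ⟨!![X 0 0, (L.ϖ * star (Y 1 2)), (L.ϖ * X 0 2);
        X 1 0, X 1 1, (L.ϖ * X 1 2);
        c, (- star (Y 1 0)), X 2 2], ?_⟩
      ext i j
      fin_cases i <;> fin_cases j <;>
        simp only [Fin.zero_eta, Fin.mk_one, Fin.reduceFinMk, Fin.isValue, Matrix.map_apply,
          Matrix.of_apply, Matrix.cons_val', Matrix.cons_val_zero,
          Matrix.cons_val_one, Matrix.cons_val, Matrix.cons_val_fin_one]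
      · exact b00
      · exact b01
      · exact b02
      · exact b10
      · exact b11
      · exact b12
      · exact b20'
      · exact b21
      · exact b22
    exact ⟨hi, intg_inv L b hi⟩

/-- a criterion for `T g T'` to be integral -/
theorem TgT'_intg (L : LD p A E) (X : Matrix (Fin 3) (Fin 3) E) (M : Matrix (Fin 3) (Fin 3) A)
    (hM : X = M.map (algebraMap A E)) (h02 : L.ϖ ∣ M 0 2) (h12 : L.ϖ ∣ M 1 2) :
    Intg L 0 (T L * X * T' L) := by
  rw [Intg.zero_iff]
  obtain ⟨c, hc⟩ := h02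
  obtain ⟨d, hd⟩ := h12
  have hw := ϖ_ne L
  refine ⟨!![M 0 0, M 0 1, c; M 1 0, M 1 1, d; L.ϖ * M 2 0, L.ϖ * M 2 1, M 2 2], ?_⟩
  ext i j
  rw [TmT', hM, Matrix.map_apply]
  fin_cases i <;> fin_cases j <;>
    simp only [Fin.zero_eta, Fin.mk_one, Fin.reduceFinMk, Fin.isValue, Matrix.map_apply,
      Matrix.of_apply, Matrix.cons_val', Matrix.cons_val_zero,
      Matrix.cons_val_one, Matrix.cons_val, Matrix.cons_val_fin_one, one_mul, mul_one]
  · rw [hc, map_mul]; field_simp
  · rw [hd, map_mul]; field_simp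
  · rw [map_mul]
  · rw [map_mul]
  · field_simp

/-- an element of `KA` whose upper right corner vanishes mod `ϖ` is in `KB` -/
theorem ka_kb (L : LD p A E) (a : UJ E) (M M' : Matrix (Fin 3) (Fin 3) A)
    (hM : mt a = M.map (algebraMap A E)) (h1 : M * M' = 1)
    (hJ : M * J A * Mᴴ = J A) (h02 : L.ϖ ∣ M 0 2) : a ∈ KB L := by
  have hp : Prime L.ϖ := L.irr.prime
  have hst : ∀ i j, ∃ e, star (M i j) = M i j + L.ϖ * e := by
    intro i j
    obtain ⟨e, he⟩ := L.star_sub (M i j)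
    exact ⟨e, by linear_combination he⟩
  obtain ⟨m, hm⟩ := h02
  -- first row against itself
  have e1 := congrFun (congrFun hJ 0) 0
  simp [J, Matrix.mul_apply, Fin.sum_univ_three, Matrix.conjTranspose_apply] at e1
  obtain ⟨e00, he00⟩ := hst 0 0
  obtain ⟨e01, he01⟩ := hst 0 1
  obtain ⟨e02, he02⟩ := hst 0 2
  obtain ⟨e10, he10⟩ := hst 1 0
  obtain ⟨e11, he11⟩ := hst 1 1
  obtain ⟨e12, he12⟩ := hst 1 2
  have d01 : L.ϖ ∣ M 0 1 := by
    have : L.ϖ ∣ M 0 1 * M 0 1 := by
      rw [he00, he01, he02, hm] at e1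
      refine ⟨m * (M 0 0 + L.ϖ * e00) + M 0 0 * (m + e02) - M 0 1 * e01, ?_⟩
      linear_combination -e1
    rcases hp.dvd_or_dvd this with h | h <;> exact h
  have d00 : ¬ L.ϖ ∣ M 0 0 := by
    intro h
    have e := congrFun (congrFun h1 0) 0
    rw [Matrix.mul_apply, Fin.sum_univ_three, Matrix.one_apply_eq] at e
    apply hp.not_unit
    rw [isUnit_iff_dvd_one, ← e]
    exact dvd_add (dvd_add (h.mul_right _) (d01.mul_right _)) (Dvd.dvd.mul_right ⟨m, hm⟩ _)
  have d12 : L.ϖ ∣ M 1 2 := by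
    have e2 := congrFun (congrFun hJ 0) 1
    simp [J, Matrix.mul_apply, Fin.sum_univ_three, Matrix.conjTranspose_apply] at e2
    have : L.ϖ ∣ M 0 0 * M 1 2 := by
      obtain ⟨n, hn⟩ := d01
      rw [he10, he11, he12, hm, hn] at e2
      refine ⟨n * (M 1 1 + L.ϖ * e11) - m * (M 1 0 + L.ϖ * e10) - M 0 0 * e12, ?_⟩
      linear_combination e2
    rcases hp.dvd_or_dvd this with h | h
    · exact absurd h d00
    · exact h
  refine ⟨TgT'_intg L _ M hM ⟨m, hm⟩ d12, ?_⟩
  refine TgT'_intg L _ (J A * Mᴴ * J A) ?_ ?_ ?_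
  · rw [mt_inv, hM, conj_map L, ← J_map (A := A), Matrix.map_mul, Matrix.map_mul]
  · have : (J A * Mᴴ * J A) 0 2 = star (M 0 2) := by
      simp [J, Matrix.mul_apply, Matrix.vecMul, dotProduct, Fin.sum_univ_three,
      Matrix.conjTranspose_apply]
    rw [this]
    exact dvd_star L ⟨m, hm⟩
  · have : (J A * Mᴴ * J A) 1 2 = - star (M 0 1) := by
      simp [J, Matrix.mul_apply, Matrix.vecMul, dotProduct, Fin.sum_univ_three,
      Matrix.conjTranspose_apply]
    rw [this, dvd_neg]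
    exact dvd_star L d01

/-- product with a matrix congruent to `c E₂₀` -/
theorem mul_B (ϖ : A) (N B : Matrix (Fin 3) (Fin 3) A)
    (hB : ∀ i j, (i ≠ 2 ∨ j ≠ 0) → ϖ ∣ B i j) :
    (∀ i j, j ≠ 0 → ϖ ∣ (N * B) i j) ∧ ∀ i, ϖ ∣ (N * B) i 0 - N i 2 * B 2 0 := by
  constructor
  · intro i j hj
    rw [Matrix.mul_apply]
    exact Finset.dvd_sum fun k _ => (hB k j (Or.inr hj)).mul_left _
  · intro i
    rw [Matrix.mul_apply, Fin.sum_univ_three]
    have e : N i 0 * B 0 0 + N i 1 * B 1 0 + N i 2 * B 2 0 - N i 2 * B 2 0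
      = N i 0 * B 0 0 + N i 1 * B 1 0 := by ring
    rw [e]
    exact dvd_add ((hB 0 0 (Or.inl (by decide))).mul_left _)
      ((hB 1 0 (Or.inl (by decide))).mul_left _)

/-- the invariant of reduced words -/
theorem word_inv (L : LD p A E) (r : ℕ) (x : UJ E) (hx : Word (KA L) (KB L) r x) :
    1 ≤ r ∧ ∃ M : Matrix (Fin 3) (Fin 3) A,
      (algebraMap A E L.ϖ) ^ r • mt x = M.map (algebraMap A E) ∧
      (∀ i j, j ≠ 0 → L.ϖ ∣ M i j) ∧ ∃ i, ¬ L.ϖ ∣ M i 0 := by
  have hp : Prime L.ϖ := L.irr.prime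
  induction hx with
  | base a b ha hb hb' =>
    refine ⟨le_refl _, ?_⟩
    obtain ⟨N, N', hN, h1, h2, hJ⟩ := ka_mat L a ha
    obtain ⟨B, hB, hB0, hBA⟩ := kb_mat L b hb
    obtain ⟨m1, m2⟩ := mul_B L.ϖ N B hB0
    refine ⟨N * B, ?_, m1, ?_⟩
    · rw [mt_mul, Matrix.map_mul, ← hN, ← hB, pow_one, Matrix.mul_smul]
    · by_contra hcon
      push_neg at hcon
      have hc : ∀ i, L.ϖ ∣ N i 2 := by
        intro i
        have h3 : L.ϖ ∣ N i 2 * B 2 0 := by
          have := dvd_sub (hcon i) (m2 i)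
          simpa using this
        rcases hp.dvd_or_dvd h3 with h | h
        · exact h
        · exact absurd (hBA h) hb'
      have e := congrFun (congrFun h2 2) 2
      rw [Matrix.mul_apply, Matrix.one_apply_eq] at e
      apply hp.not_unit
      rw [isUnit_iff_dvd_one, ← e]
      exact Finset.dvd_sum fun k _ => (hc k).mul_left _
  | step r x a b _ ha ha' hb hb' ih =>
    obtain ⟨hr, M, hM, hM1, i, hi⟩ := ih
    refine ⟨by omega, ?_⟩
    obtain ⟨N, N', hN, h1, h2, hJ⟩ := ka_mat L a ha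
    obtain ⟨B, hB, hB0, hBA⟩ := kb_mat L b hb
    obtain ⟨m1, m2⟩ := mul_B L.ϖ (M * N) B hB0
    refine ⟨M * N * B, ?_, m1, i, ?_⟩
    · rw [mt_mul, mt_mul, Matrix.map_mul, Matrix.map_mul, ← hN, ← hB, ← hM, pow_succ,
        Matrix.mul_smul, Matrix.smul_mul, Matrix.smul_mul, smul_smul, mul_comm]
    · intro hd
      have h3 : L.ϖ ∣ (M * N) i 2 * B 2 0 := by
        have := dvd_sub hd (m2 i)
        simpa using this
      rcases hp.dvd_or_dvd h3 with h | h
      · rw [Matrix.mul_apply, Fin.sum_univ_three] at h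
        have h4 : L.ϖ ∣ M i 0 * N 0 2 := by
          have h5 := dvd_sub (dvd_sub h ((hM1 i 2 (by decide)).mul_right (N 2 2)))
            ((hM1 i 1 (by decide)).mul_right (N 1 2))
          have e : M i 0 * N 0 2 + M i 1 * N 1 2 + M i 2 * N 2 2 - M i 2 * N 2 2 - M i 1 * N 1 2
            = M i 0 * N 0 2 := by ring
          rwa [e] at h5
        rcases hp.dvd_or_dvd h4 with h | h
        · exact hi h
        · exact ha' (ka_kb L a N N' hN h1 hJ h)
      · exact absurd (hBA h) hb'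

end LW

open Matrix in
theorem LW_proof : St_LW := by
  intro p A E _ _ _ _ _ _ _ _ L
  refine ⟨fun k hk => hk.1, ?_, ?_⟩
  · intro k hk
    obtain ⟨B, hB, -, -⟩ := LW.kb_mat L k hk
    exact ⟨B, by rw [pow_one]; exact hB⟩
  · intro r x k hx hk
    obtain ⟨hr, M, hM, hM1, i, hi⟩ := LW.word_inv L r x hx
    obtain ⟨N, N', hN, h1, h2, hJ⟩ := LW.ka_mat L k hk
    have key : (algebraMap A E L.ϖ) ^ r • mt (x * k) = (M * N).map (algebraMap A E) := by
      rw [mt_mul, Matrix.map_mul, ← hM, ← hN, Matrix.smul_mul]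
    refine ⟨⟨M * N, key⟩, ?_⟩
    intro hxk
    rw [hxk, mt_one] at key
    have e1 : M * N = L.ϖ ^ r • (1 : Matrix (Fin 3) (Fin 3) A) := by
      apply LW.map_inj (E := E)
      rw [← key]
      ext i j
      by_cases hij : i = j
      · subst hij; simp
      · simp [Matrix.one_apply_ne hij]
    have e2 : M = L.ϖ ^ r • N' := by
      calc M = M * N * N' := by rw [Matrix.mul_assoc, h1, Matrix.mul_one]
        _ = _ := by rw [e1, Matrix.smul_mul, Matrix.one_mul]
    apply hi
    rw [e2, Matrix.smul_apply, smul_eq_mul]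
    exact Dvd.dvd.mul_right (dvd_pow_self _ (by omega)) _

end Pool.Agent.H791R3.GI
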