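import Pool.Agent.H791R3.GI.Stubs

/-!
# NPM: norms of the elements of `Γ`
-/

set_option autoImplicit false

namespace Pool.Agent.H791R3.GI

open Matrix Cub

namespace NPM

section
variable {p m : ℕ} {a : ℤ} {A E : Type} [CommRing A] [IsDomain A] [IsDiscreteValuationRing A]
    [StarRing A] [Field E] [StarRing E] [Algebra A E] [IsFractionRing A E]

theorem rhoE_one (G : GD p m a A E) : rhoE G 1 = 1 := by
  simp only [rhoE, map_one]
  exact Matrix.map_one _ (map_zero _) (map_one _)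

theorem rhoE_natCast (G : GD p m a A E) (n : ℕ) : rhoE G (n : Ord m a) = (n : E) • 1 := by
  have := rhoE_natCast_mul G n 1
  rwa [mul_one, rhoE_one] at this

theorem rhoE_inj (h2 : ∀ s : Ord m a, ∀ G : GD p m a A E, rho G s = 0 → s = 0)
    (G : GD p m a A E) {x y : Ord m a} (h : rhoE G x = rhoE G y) : x = y := by
  have h3 : rho G x = rho G y := by
    ext i j
    have h4 := congrFun (congrFun h i) j
    simp only [rhoE, Matrix.map_apply] at h4
    exact IsFractionRing.injective A E h4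
  have h5 : rho G (x - y) = 0 := by rw [map_sub, h3, sub_self]
  exact sub_eq_zero.1 (h2 _ G h5)

theorem rhoE_star_of (G : GD p m a A E) (γ : UJ E) (k : ℕ) (x : Ord m a)
    (hx : (p : E) ^ k • mt γ = rhoE G x) : rhoE G (star x) = (p : E) ^ k • mt γ⁻¹ := by
  rw [rhoE_star, ← hx, conjTranspose_smul, mt_inv]
  have : star ((p : E) ^ k) = (p : E) ^ k := by
    rw [star_pow, star_natCast]
  rw [this, Matrix.mul_smul, Matrix.smul_mul]

omit [IsDiscreteValuationRing A] [StarRing A] in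
theorem assoc_exp {ϖ : A} (hirr : Irreducible ϖ) {i j : ℕ} (h : Associated (ϖ ^ i) (ϖ ^ j)) :
    i = j := by
  apply le_antisymm
  · exact (pow_dvd_pow_iff hirr.ne_zero hirr.not_isUnit).1 h.dvd
  · exact (pow_dvd_pow_iff hirr.ne_zero hirr.not_isUnit).1 h.symm.dvd

end

end NPM

open NPM in
theorem NPM_proof (h1 : St_ADJ) (h2 : St_SAT) (h3 : St_SATZ) : St_NPM := by
  intro p m a A E _ _ _ _ _ _ _ _ G hP γ k x hx
  have hinj : ∀ s : Ord m a, ∀ G : GD p m a A E, rho G s = 0 → s = 0 :=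
    fun s G => (h2 p m a A E G hP).2.1 s
  have hs := rhoE_star_of G γ k x hx
  have hcast : (((p ^ (2 * k) : ℕ) : E)) = (p : E) ^ k * (p : E) ^ k := by
    push_cast; ring
  have e1 : x * star x = ((p ^ (2 * k) : ℕ) : Ord m a) := by
    apply rhoE_inj hinj G
    rw [rhoE_mul, hs, ← hx, rhoE_natCast, smul_mul_smul_comm, mt_mul_inv, hcast]
  have e2 : star x * x = ((p ^ (2 * k) : ℕ) : Ord m a) := by
    apply rhoE_inj hinj G
    rw [rhoE_mul, hs, ← hx, rhoE_natCast, smul_mul_smul_comm, mt_inv_mul, hcast]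
  refine ⟨e1, e2, ?_⟩
  obtain ⟨-, -, -, -, hmul, hstar, hnat⟩ := h1 (Zm m) a (yy m)
  have hnu : Cyc.nrd x * star (Cyc.nrd x) = (p : Zm m) ^ (6 * k) := by
    rw [← hstar, ← hmul, e1, hnat]
    push_cast
    ring
  have hp0 : (p : A) ≠ 0 := by
    intro h0
    have := G.assoc_p
    rw [h0] at this
    have h5 : G.ϖ ^ 2 = 0 := this.eq_zero_iff.1 rfl
    exact G.irr.ne_zero (pow_eq_zero_iff (two_ne_zero) |>.1 h5)
  have hA : G.ι (Cyc.nrd x) * star (G.ι (Cyc.nrd x)) = (p : A) ^ (6 * k) := by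
    rw [← G.ι_star, ← map_mul, hnu, map_pow, map_natCast]
  have hne : G.ι (Cyc.nrd x) ≠ 0 := by
    intro h0
    rw [h0, zero_mul] at hA
    exact pow_ne_zero _ hp0 hA.symm
  obtain ⟨e, he⟩ := IsDiscreteValuationRing.associated_pow_irreducible hne G.irr
  have hse : Associated (star (G.ι (Cyc.nrd x))) (G.ϖ ^ e) := by
    have h4 := he.map (starRingEnd A)
    have h5 : starRingEnd A (G.ϖ ^ e) = (-1) ^ e * G.ϖ ^ e := by
      rw [starRingEnd_apply, star_pow, G.star_ϖ, neg_pow]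
    rw [h5, starRingEnd_apply] at h4
    refine h4.trans ?_
    have hu : IsUnit ((-1 : A) ^ e) := (isUnit_one.neg).pow e
    have := (associated_one_iff_isUnit.2 hu).mul_right (G.ϖ ^ e)
    rwa [one_mul] at this
  have h6 : Associated (G.ϖ ^ (e + e)) (G.ϖ ^ (2 * (6 * k))) := by
    rw [pow_add, pow_mul]
    have h7 := (he.symm).mul_mul hse.symm
    rw [hA] at h7
    exact h7.trans (G.assoc_p.pow_pow)
  have h8 := assoc_exp G.irr h6
  have h9 : e = 6 * k := by omega
  have h10 : (p : Zm m) ^ (3 * k) ∣ Cyc.nrd x := by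
    have := h3 p m a A E G hP (Cyc.nrd x) (6 * k) (by rw [← h9]; exact he.symm.dvd)
    have h11 : 6 * k / 2 = 3 * k := by omega
    rwa [h11] at this
  obtain ⟨ν, hν⟩ := h10
  have hpp : 0 < p := hP.prime.pos
  have hnorm : Zsqrtd.norm ν = 1 := by
    have h12 : Zsqrtd.norm (Cyc.nrd x) = (p : ℤ) ^ (6 * k) := by
      have h13 := Zsqrtd.norm_eq_mul_conj (Cyc.nrd x)
      rw [hnu] at h13
      have h14 : ((Zsqrtd.norm (Cyc.nrd x) : ℤ) : Zm m) = (((p : ℤ) ^ (6 * k) : ℤ) : Zm m) := by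
        rw [h13]; push_cast; rfl
      have h14' := congrArg Zsqrtd.re h14
      rwa [Zsqrtd.re_intCast, Zsqrtd.re_intCast] at h14'
    have h15 : Zsqrtd.norm ((p : Zm m) ^ (3 * k)) = (p : ℤ) ^ (6 * k) := by
      have h16 : ((p : Zm m) ^ (3 * k)) = (((p : ℤ) ^ (3 * k) : ℤ) : Zm m) := by push_cast; rfl
      rw [h16, Zsqrtd.norm_intCast]
      ring
    rw [hν, Zsqrtd.norm_mul, h15] at h12
    have h17 : (p : ℤ) ^ (6 * k) ≠ 0 := pow_ne_zero _ (by exact_mod_cast hpp.ne')
    exact mul_left_cancel₀ h17 (by rw [h12, mul_one])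
  have hm7 : 7 ≤ m := by have := hP.mod; omega
  rw [Zsqrtd.norm_def] at hnorm
  have him : ν.im = 0 := by
    by_contra h0
    have h18 : 1 ≤ ν.im * ν.im := by
      have := mul_self_pos.2 h0
      omega
    have h19 : (7 : ℤ) ≤ m := by exact_mod_cast hm7
    have h20 : 0 ≤ ν.re * ν.re := mul_self_nonneg _
    nlinarith
  rw [him] at hnorm
  have hre : ν.re * ν.re = 1 := by linarith
  have hre' : ν.re = 1 ∨ ν.re = -1 := by
    exact mul_self_eq_one_iff.1 hre
  rcases hre' with h21 | h21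
  · left
    have : ν = 1 := by
      ext
      · simp [h21]
      · simp [him]
    rw [hν, this, mul_one]
  · right
    have : ν = -1 := by
      ext
      · simp [h21]
      · simp [him]
    rw [hν, this]
    ring

end Pool.Agent.H791R3.GI
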