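import Pool.Agent.H791R3.GI.Stubs

/-! Task PAR (helper152): existence of the parameters. -/

set_option autoImplicit false

namespace Pool.Agent.H791R3.GI

namespace PAR

theorem exists_c (p : ℕ) (hp : p % 2 = 1) : ∃ c, 1 ≤ c ∧ c < 16 ∧ (p * c) % 16 = 7 := by
  have h : p % 16 = 1 ∨ p % 16 = 3 ∨ p % 16 = 5 ∨ p % 16 = 7 ∨ p % 16 = 9 ∨ p % 16 = 11 ∨
      p % 16 = 13 ∨ p % 16 = 15 := by omega
  rcases h with h | h | h | h | h | h | h | h
  · exact ⟨7, by norm_num, by norm_num, by omega⟩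
  · exact ⟨13, by norm_num, by norm_num, by omega⟩
  · exact ⟨11, by norm_num, by norm_num, by omega⟩
  · exact ⟨1, by norm_num, by norm_num, by omega⟩
  · exact ⟨15, by norm_num, by norm_num, by omega⟩
  · exact ⟨5, by norm_num, by norm_num, by omega⟩
  · exact ⟨3, by norm_num, by norm_num, by omega⟩
  · exact ⟨9, by norm_num, by norm_num, by omega⟩

theorem not_dvd (p c : ℕ) (hp : 5 ≤ p) (h1 : 1 ≤ c) (h2 : c < 16) (h3 : (p * c) % 16 = 7) :
    ¬ p ∣ c := by
  rintro ⟨d, rfl⟩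
  have hd : 1 ≤ d := by
    rcases Nat.eq_zero_or_pos d with h | h
    · rw [h, mul_zero] at h1
      omega
    · exact h
  have hd3 : d ≤ 3 := by nlinarith
  have hp15 : p ≤ 15 := by nlinarith
  interval_cases d <;> interval_cases p <;> omega

end PAR

theorem PAR_proof : St_PAR := by
  intro p hp h5
  have hodd : p % 2 = 1 := by
    rcases hp.eq_two_or_odd with h | h
    · omega
    · exact h
  obtain ⟨c, hc1, hc2, hc3⟩ := PAR.exists_c p hodd
  refine ⟨p * c, ((p : ℤ) - 3) / 2, ⟨hp, h5, by omega, dvd_mul_right p c, ?_, hc3, ?_⟩⟩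
  · intro h
    rw [pow_two] at h
    exact PAR.not_dvd p c h5 hc1 hc2 hc3 (Nat.dvd_of_mul_dvd_mul_left (by omega) h)
  · nlinarith

end Pool.Agent.H791R3.GI
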