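import Pool.Agent.H791R3.GI.Stubs

/-!
# PIG: the pigeonhole principle
-/

set_option autoImplicit false
set_option linter.unusedSectionVars false

namespace Pool.Agent.H791R3.GI.PIG

open Matrix

section loc

variable {p : ℕ} {A E : Type} [CommRing A] [IsDomain A] [IsDiscreteValuationRing A]
    [StarRing A] [Field E] [StarRing E] [Algebra A E] [IsFractionRing A E]

theorem inj : Function.Injective (algebraMap A E) := IsFractionRing.injective A E

/-- elements of norm one are units -/
theorem unit_of_norm_one (L : LD p A E) {δ : E} (h : δ * star δ = 1) :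
    ∃ u : A, IsUnit u ∧ algebraMap A E u = δ := by
  obtain ⟨a, b, hb, rfl⟩ := IsFractionRing.div_surjective (A := A) δ
  have hb0 : b ≠ 0 := nonZeroDivisors.ne_zero hb
  have ha0 : a ≠ 0 := by
    rintro rfl
    simp at h
  obtain ⟨m, hm⟩ := IsDiscreteValuationRing.associated_pow_irreducible ha0 L.irr
  obtain ⟨n, hn⟩ := IsDiscreteValuationRing.associated_pow_irreducible hb0 L.irr
  have hb' : algebraMap A E b ≠ 0 := by
    rw [Ne, IsFractionRing.to_map_eq_zero_iff]; exact hb0
  have hb'' : star (algebraMap A E b) ≠ 0 := by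
    rw [Ne, star_eq_zero]; exact hb'
  have h1 : a * star a = b * star b := by
    apply inj (E := E)
    rw [map_mul, map_mul, L.star_map, L.star_map]
    rw [star_div₀] at h
    field_simp at h
    linear_combination h
  have hstar : ∀ {x : A} {k : ℕ}, Associated x (L.ϖ ^ k) → Associated (x * star x) (L.ϖ ^ (2 * k)) := by
    intro x k hx
    obtain ⟨u, hu⟩ := hx
    have h2 : star x * star (u : A) = (-L.ϖ) ^ k := by
      have := congrArg star hu
      rw [star_mul', star_pow, L.star_ϖ] at this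
      exact this
    have hx' : Associated (star x) (L.ϖ ^ k) := by
      have h3 : Associated (star x) ((-L.ϖ) ^ k) := by
        refine ⟨(u.isUnit.star).unit, ?_⟩
        rw [IsUnit.unit_spec]
        exact h2
      have h4 : Associated ((-L.ϖ) ^ k) (L.ϖ ^ k) := by
        apply Associated.pow_pow
        exact ⟨-1, by simp⟩
      exact h3.trans h4
    have : L.ϖ ^ (2 * k) = L.ϖ ^ k * L.ϖ ^ k := by rw [two_mul, pow_add]
    rw [this]
    exact Associated.mul_mul ⟨u, hu⟩ hx'
  have h5 : Associated (L.ϖ ^ (2 * m)) (L.ϖ ^ (2 * n)) :=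
    (hstar hm).symm.trans ((by rw [h1] : Associated (a * star a) (b * star b)).trans (hstar hn))
  have hmn : m = n := by
    have hd1 := (pow_dvd_pow_iff L.irr.ne_zero L.irr.not_isUnit).1 h5.dvd
    have hd2 := (pow_dvd_pow_iff L.irr.ne_zero L.irr.not_isUnit).1 h5.symm.dvd
    omega
  subst hmn
  obtain ⟨u, hu⟩ := hn.trans hm.symm
  refine ⟨u, u.isUnit, ?_⟩
  rw [← hu, map_mul]
  field_simp

/-- every element of `E` is integral after multiplication by a large power of `p` -/
theorem exists_pow (L : LD p A E) (x : E) :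
    ∃ K : ℕ, ∀ j, K ≤ j → ∃ y : A, (p : E) ^ j * x = algebraMap A E y := by
  obtain ⟨a, b, hb, rfl⟩ := IsFractionRing.div_surjective (A := A) x
  have hb0 : b ≠ 0 := nonZeroDivisors.ne_zero hb
  obtain ⟨n, hn⟩ := IsDiscreteValuationRing.associated_pow_irreducible hb0 L.irr
  refine ⟨n, fun j hj => ?_⟩
  have h1 : b ∣ (p : A) ^ j := by
    have h2 : Associated ((p : A) ^ j) (L.ϖ ^ (2 * j)) := by
      rw [pow_mul]
      exact L.assoc_p.pow_pow
    refine hn.dvd.trans ((pow_dvd_pow _ ?_).trans h2.symm.dvd)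
    omega
  obtain ⟨c, hc⟩ := h1
  refine ⟨c * a, ?_⟩
  have hb' : algebraMap A E b ≠ 0 := by
    rw [Ne, IsFractionRing.to_map_eq_zero_iff]; exact hb0
  have h3 : (p : E) ^ j = algebraMap A E b * algebraMap A E c := by
    rw [← map_mul, ← hc]; simp
  rw [h3, map_mul]
  field_simp

theorem exists_pow_mat (L : LD p A E) (M : Matrix (Fin 3) (Fin 3) E) (t : ℕ) (ht : 0 < t) :
    ∃ j : ℕ, t ∣ j ∧ ∃ h : Matrix (Fin 3) (Fin 3) A,
      (p : E) ^ j • M = h.map (algebraMap A E) := by
  choose K hK using fun i k => exists_pow L (M i k)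
  refine ⟨t * ∑ i, ∑ k, K i k, dvd_mul_right _ _, ?_⟩
  have hle : ∀ i k, K i k ≤ t * ∑ i, ∑ k, K i k := by
    intro i k
    have h1 : K i k ≤ ∑ k, K i k := Finset.single_le_sum (fun _ _ => Nat.zero_le _) (Finset.mem_univ k)
    have h2 : ∑ k, K i k ≤ ∑ i, ∑ k, K i k :=
      Finset.single_le_sum (f := fun i => ∑ k, K i k) (fun _ _ => Nat.zero_le _) (Finset.mem_univ i)
    have h3 : ∑ i, ∑ k, K i k ≤ t * ∑ i, ∑ k, K i k := Nat.le_mul_of_pos_left _ ht
    omega
  choose y hy using fun i k => hK i k _ (hle i k)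
  exact ⟨Matrix.of y, by ext i k; simp [hy]⟩

end loc

end Pool.Agent.H791R3.GI.PIG

namespace Pool.Agent.H791R3.GI

open Matrix PIG

theorem PIG_proof (h1 : St_IDX) (h2 : St_CO) : St_PIG := by
  intro p m a A E _ _ _ _ _ _ _ _ G hP g t ht
  obtain ⟨co1, co2, co3, co4, co5⟩ := h2 m a
  -- the determinant
  obtain ⟨u, hu, hud⟩ := unit_of_norm_one G.toLD (δ := (mt g).det) (by
    have := congrArg Matrix.det (mt_J g)
    rw [Matrix.det_mul, Matrix.det_mul, Matrix.det_conjTranspose] at this
    have hJ : (J E).det ≠ 0 := by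
      intro h0
      have h3 := congrArg Matrix.det (J_mul_J E)
      rw [Matrix.det_mul, h0, Matrix.det_one] at h3
      simp at h3
    have h4 : (J E).det * ((mt g).det * star (mt g).det) = (J E).det * 1 := by
      linear_combination this
    exact mul_left_cancel₀ hJ h4)
  obtain ⟨j, hj, h, hh⟩ := exists_pow_mat G.toLD (mt g⁻¹) t ht
  refine ⟨j, hj, ?_⟩
  have hdet : Associated h.det (G.ϖ ^ (6 * j)) := by
    have h3 : algebraMap A E h.det = (p : E) ^ (3 * j) * (mt g⁻¹).det := by
      rw [RingHom.map_det, RingHom.mapMatrix_apply, ← hh, Matrix.det_smul]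
      simp [pow_mul, mul_comm]
    have h4 : (mt g⁻¹).det * (mt g).det = 1 := by
      rw [← Matrix.det_mul, mt_inv_mul, Matrix.det_one]
    have h5 : h.det * u = (p : A) ^ (3 * j) := by
      apply PIG.inj (E := E)
      rw [map_mul, h3, hud, mul_assoc, h4]
      simp
    have h6 : Associated h.det ((p : A) ^ (3 * j)) := ⟨hu.unit, by rw [IsUnit.unit_spec, h5]⟩
    refine h6.trans ?_
    rw [show 6 * j = 2 * (3 * j) by ring, pow_mul G.ϖ 2 (3 * j)]
    exact G.assoc_p.pow_pow
  have hidx := h1 p A E G.toLD h (6 * j) hdet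
  set R := (AddMonoidHom.mulRight h :
    Matrix (Fin 3) (Fin 3) A →+ Matrix (Fin 3) (Fin 3) A).range with hR
  have hpp : 0 < p := G.prime.pos
  -- the map
  let F : (Fin 3 → Fin 3 → Fin 2 → Fin (p ^ j + 1)) → Matrix (Fin 3) (Fin 3) A ⧸ R :=
    fun c => QuotientAddGroup.mk (rho G (ofco m a fun i k l => ((c i k l : ℕ) : ℤ)))
  have hfin : Finite (Matrix (Fin 3) (Fin 3) A ⧸ R) := by
    apply Nat.finite_of_card_ne_zero
    change R.index ≠ 0
    rw [hidx]
    positivity
  have hnot : ¬ Function.Injective F := by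
    intro hF
    have h3 := Nat.card_le_card_of_injective F hF
    have h4 : Nat.card (Matrix (Fin 3) (Fin 3) A ⧸ R) = p ^ (3 * (6 * j)) := hidx
    rw [h4] at h3
    simp only [Nat.card_eq_fintype_card, Fintype.card_pi, Fintype.card_fin, Finset.prod_const,
      Finset.card_univ] at h3
    rw [← pow_mul, ← pow_mul, show 3 * (6 * j) = j * 18 by ring, pow_mul p j 18] at h3
    have h5 : (p ^ j) ^ 18 < (p ^ j + 1) ^ 18 := Nat.pow_lt_pow_left (Nat.lt_succ_self _) (by norm_num)
    have h6 : 2 * 3 * 3 = 18 := by norm_num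
    rw [h6] at h3
    omega
  rw [Function.Injective] at hnot
  push Not at hnot
  obtain ⟨c, c', hcc, hne⟩ := hnot
  set s := ofco m a fun i k l => ((c i k l : ℕ) : ℤ) with hs
  set s' := ofco m a fun i k l => ((c' i k l : ℕ) : ℤ) with hs'
  have hmem : -rho G s' + rho G s ∈ R := QuotientAddGroup.eq.1 hcc.symm
  obtain ⟨w, hw⟩ := hmem
  have hw' : w * h = rho G s - rho G s' := by
    have : w * h = -rho G s' + rho G s := hw
    rw [this]; abel
  have hco : ∀ i k l, co (s - s') i k l = ((c i k l : ℕ) : ℤ) - ((c' i k l : ℕ) : ℤ) := by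
    intro i k l
    rw [co4, hs, hs', co2, co2]
    rfl
  refine ⟨s - s', ?_, ?_, w, ?_⟩
  · intro h0
    apply hne
    funext i k l
    have h3 := hco i k l
    have h4 : co (0 : Ord m a) i k l = 0 := by
      have h5 := congrFun (congrFun (congrFun (co3 0 0) i) k) l
      rw [add_zero] at h5
      have h6 : co (0 : Ord m a) i k l = co (0 : Ord m a) i k l + co (0 : Ord m a) i k l := h5
      linarith
    rw [h0, h4] at h3
    apply Fin.ext
    have : ((c i k l : ℕ) : ℤ) = ((c' i k l : ℕ) : ℤ) := by linarith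
    exact_mod_cast this
  · intro i k l
    rw [hco]
    have h3 : (c i k l : ℕ) < p ^ j + 1 := (c i k l).2
    have h4 : (c' i k l : ℕ) < p ^ j + 1 := (c' i k l).2
    rw [abs_le]
    constructor
    · have : ((c' i k l : ℕ) : ℤ) ≤ ((p ^ j : ℕ) : ℤ) := by exact_mod_cast Nat.lt_succ_iff.1 h4
      have h5 : (0 : ℤ) ≤ ((c i k l : ℕ) : ℤ) := Int.natCast_nonneg _
      linarith
    · have : ((c i k l : ℕ) : ℤ) ≤ ((p ^ j : ℕ) : ℤ) := by exact_mod_cast Nat.lt_succ_iff.1 h3
      have h5 : (0 : ℤ) ≤ ((c' i k l : ℕ) : ℤ) := Int.natCast_nonneg _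
      linarith
  · have h3 : rhoE G (s - s') = (w * h).map (algebraMap A E) := by
      rw [rhoE, map_sub, hw']
    rw [h3, Matrix.map_mul, ← hh, Matrix.mul_assoc, Matrix.smul_mul, mt_inv_mul,
      Matrix.mul_smul, Matrix.mul_one]

end Pool.Agent.H791R3.GI
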