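import Mathlib
import Pool.Agent.H791R3.GI.Stubs

/-!
# SAT: `p`-saturation of `rho` (helper455)
-/

set_option autoImplicit false
set_option linter.unusedSectionVars false
set_option linter.unusedSimpArgs false

namespace Pool.Agent.H791R3.GI

open Matrix Cub

namespace SAT

variable {p m : ℕ} {a : ℤ} {A E : Type} [CommRing A] [IsDomain A] [IsDiscreteValuationRing A]
    [StarRing A] [Field E] [StarRing E] [Algebra A E] [IsFractionRing A E]

theorem unit_of_not_dvd (G : GD p m a A E) (x : A) (h : ¬ G.ϖ ∣ x) : IsUnit x := by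
  by_contra hx
  have h1 : x ∈ IsLocalRing.maximalIdeal A := (IsLocalRing.mem_maximalIdeal x).2 hx
  rw [G.irr.maximalIdeal_eq, Ideal.mem_span_singleton] at h1
  exact h h1

theorem dvd_p (G : GD p m a A E) : G.ϖ ∣ (p : A) := by
  obtain ⟨u, hu⟩ := G.assoc_p.symm
  rw [← hu, pow_two, mul_assoc]
  exact dvd_mul_right _ _

theorem dvd_int (G : GD p m a A E) (P : Par p m a) (r : ℤ) (h : G.ϖ ∣ (r : A)) : (p : ℤ) ∣ r := by
  by_contra hr
  have hpr : Prime (p : ℤ) := Nat.prime_iff_prime_int.1 P.prime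
  have hcop : IsCoprime (p : ℤ) r := (hpr.irreducible.coprime_iff_not_dvd).2 hr
  obtain ⟨α, β, hab⟩ := hcop
  have h1 : (α : A) * (p : A) + β * (r : A) = 1 := by
    have := congrArg (Int.cast : ℤ → A) hab
    push_cast at this
    exact this
  have h2 : G.ϖ ∣ 1 := by
    rw [← h1]
    exact dvd_add ((dvd_p G).mul_left _) (h.mul_left _)
  exact G.irr.not_isUnit (isUnit_of_dvd_one h2)

theorem not_three (G : GD p m a A E) (P : Par p m a) : ¬ G.ϖ ∣ (3 : A) := by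
  intro h
  have h1 := dvd_int G P 3 (by simpa using h)
  have h2 := Int.le_of_dvd (by norm_num) h1
  have := P.five
  omega

theorem two_a (P : Par p m a) : 2 * (a : A) + 3 = (p : A) := by
  have := congrArg (Int.cast : ℤ → A) P.ha
  push_cast at this
  exact this

theorem t1_dvd (G : GD p m a A E) (P : Par p m a) : G.ϖ ∣ 2 * sg a G.t + 1 := by
  have h : 2 * sg a G.t + 1 = (2 * G.t + 3) * (G.t - 1) - p * G.t := by
    rw [← two_a P]
    unfold sg
    ring
  rw [h]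
  exact dvd_sub (G.t_one.mul_left _) ((dvd_p G).mul_right _)

theorem t2_dvd (G : GD p m a A E) (P : Par p m a) : G.ϖ ∣ sg a (sg a G.t) + 2 := by
  have h : 4 * (sg a (sg a G.t) + 2) = 2 * sg a G.t * (2 * sg a G.t + 1) - p * (2 * sg a G.t) := by
    rw [← two_a P]
    generalize sg a G.t = t1
    unfold sg
    ring
  have h1 : G.ϖ ∣ 4 * (sg a (sg a G.t) + 2) := by
    rw [h]
    exact dvd_sub ((t1_dvd G P).mul_left _) ((dvd_p G).mul_right _)
  have h4 : IsUnit (4 : A) := by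
    have : (4 : A) = 2 * 2 := by norm_num
    rw [this]
    exact G.two.mul G.two
  exact (h4.dvd_mul_left).1 h1

theorem d01 (G : GD p m a A E) (P : Par p m a) : IsUnit (G.t - sg a G.t) := by
  apply unit_of_not_dvd G
  intro h
  apply not_three G P
  have e : (3 : A) = 2 * (G.t - sg a G.t) - 2 * (G.t - 1) + (2 * sg a G.t + 1) := by ring
  rw [e]
  exact dvd_add (dvd_sub (h.mul_left _) (G.t_one.mul_left _)) (t1_dvd G P)

theorem d02 (G : GD p m a A E) (P : Par p m a) : IsUnit (G.t - sg a (sg a G.t)) := by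
  apply unit_of_not_dvd G
  intro h
  apply not_three G P
  have e : (3 : A) = (G.t - sg a (sg a G.t)) - (G.t - 1) + (sg a (sg a G.t) + 2) := by ring
  rw [e]
  exact dvd_add (dvd_sub h G.t_one) (t2_dvd G P)

theorem d12 (G : GD p m a A E) (P : Par p m a) : IsUnit (sg a G.t - sg a (sg a G.t)) := by
  apply unit_of_not_dvd G
  intro h
  apply not_three G P
  have e : (3 : A) = 2 * (sg a G.t - sg a (sg a G.t)) - (2 * sg a G.t + 1) +
      2 * (sg a (sg a G.t) + 2) := by ring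
  rw [e]
  exact dvd_add (dvd_sub (h.mul_left _) (t1_dvd G P)) ((t2_dvd G P).mul_left _)

theorem mem_of_unit (I : Ideal A) {u x : A} (hu : IsUnit u) (h : u * x ∈ I) : x ∈ I :=
  (Ideal.unit_mul_mem_iff_mem I hu).1 h

/-- the Vandermonde argument -/
theorem core (G : GD p m a A E) (P : Par p m a) (I : Ideal A) (x : Cub (Zm m) a)
    (h0 : ev G.ι G.t G.ht x ∈ I) (h1 : ev G.ι G.t G.ht (sig x) ∈ I)
    (h2 : ev G.ι G.t G.ht (sig (sig x)) ∈ I) :
    G.ι x.x ∈ I ∧ G.ι x.y ∈ I ∧ G.ι x.z ∈ I := by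
  rw [ev_sig] at h1
  rw [ev_sig, ev_sig] at h2
  rw [ev_apply] at h0 h1 h2
  have e01 := d01 G P
  have e02 := d02 G P
  have e12 := d12 G P
  generalize sg a (sg a G.t) = t2 at h2 e02 e12
  generalize sg a G.t = t1 at h1 e01 e12
  generalize G.ι x.x = X at *
  generalize G.ι x.y = Y at *
  generalize G.ι x.z = Z at *
  have k1 : Y + Z * (G.t + t1) ∈ I := by
    apply mem_of_unit I e01
    have := I.sub_mem h0 h1
    convert this using 1
    ring
  have k2 : Y + Z * (G.t + t2) ∈ I := by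
    apply mem_of_unit I e02
    have := I.sub_mem h0 h2
    convert this using 1
    ring
  have k3 : Z ∈ I := by
    apply mem_of_unit I e12
    have := I.sub_mem k1 k2
    convert this using 1
    ring
  have k4 : Y ∈ I := by
    have := I.sub_mem k1 (I.mul_mem_right (G.t + t1) k3)
    convert this using 1
    ring
  refine ⟨?_, k4, k3⟩
  have := I.sub_mem (I.sub_mem h0 (I.mul_mem_right G.t k4)) (I.mul_mem_right (G.t ^ 2) k3)
  convert this using 1
  ring

theorem ι_apply (G : GD p m a A E) (r : Zm m) : G.ι r = (r.re : A) + (r.im : A) * G.ϖ := by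
  have h : r = (r.re : Zm m) + (r.im : Zm m) * ⟨0, 1⟩ := by
    apply Zsqrtd.ext <;> simp
  conv_lhs => rw [h]
  rw [map_add, map_mul, map_intCast, map_intCast, G.ι_omega]

theorem sq_dvd_p (G : GD p m a A E) : G.ϖ ^ 2 ∣ (p : A) := G.assoc_p.symm.dvd

/-- `p ∣ ι r` implies `p ∣ r` -/
theorem p_dvd (G : GD p m a A E) (P : Par p m a) (r : Zm m) (h : (p : A) ∣ G.ι r) :
    ∃ r' : Zm m, r = (p : Zm m) * r' := by
  have h1 : G.ϖ ^ 2 ∣ (r.re : A) + (r.im : A) * G.ϖ := by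
    rw [← ι_apply]
    exact (sq_dvd_p G).trans h
  have h2 : G.ϖ ∣ (r.re : A) := by
    have : G.ϖ ∣ (r.re : A) + (r.im : A) * G.ϖ := (dvd_pow_self _ two_ne_zero).trans h1
    exact (dvd_add_left (dvd_mul_left _ _)).1 this
  have h3 := dvd_int G P r.re h2
  obtain ⟨r1, hr1⟩ := h3
  have h4 : G.ϖ ^ 2 ∣ (r.re : A) := by
    rw [hr1]
    push_cast
    exact (sq_dvd_p G).mul_right _
  have h5 : G.ϖ ^ 2 ∣ (r.im : A) * G.ϖ := (dvd_add_right h4).1 h1
  have h6 : G.ϖ ∣ (r.im : A) := by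
    rw [pow_two] at h5
    exact (mul_dvd_mul_iff_right G.irr.ne_zero).1 h5
  obtain ⟨r2, hr2⟩ := dvd_int G P r.im h6
  refine ⟨⟨r1, r2⟩, ?_⟩
  apply Zsqrtd.ext
  · simp [hr1]
  · simp [hr2]

theorem cast_ne (G : GD p m a A E) (P : Par p m a) (n : ℕ) (hn : n ≠ 0) : (n : A) ≠ 0 := by
  obtain ⟨e, n', hn', rfl⟩ := Nat.exists_eq_pow_mul_and_not_dvd hn p P.prime.ne_one
  intro h0
  push_cast at h0
  have hp0 : (p : A) ≠ 0 := by
    intro h
    have h1 := G.assoc_p
    rw [h] at h1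
    exact pow_ne_zero 2 G.irr.ne_zero (h1.symm.eq_zero_iff.2 rfl)
  rcases mul_eq_zero.1 h0 with h | h
  · exact pow_ne_zero e hp0 h
  · apply hn'
    have h1 := dvd_int G P (n' : ℤ) (by
      push_cast
      rw [h]
      exact dvd_zero _)
    exact_mod_cast h1

/-- `ι` is injective -/
theorem ι_zero (G : GD p m a A E) (P : Par p m a) (r : Zm m) (h : G.ι r = 0) : r = 0 := by
  have h1 : G.ι (r * star r) = 0 := by rw [map_mul, h, zero_mul]
  have h2 : r * star r = ((r.re ^ 2 + m * r.im ^ 2 : ℤ) : Zm m) := by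
    apply Zsqrtd.ext
    · rw [Zsqrtd.re_intCast]
      simp [Zsqrtd.re_mul]
      ring
    · rw [Zsqrtd.im_intCast]
      simp [Zsqrtd.im_mul]
      ring
  rw [h2, map_intCast] at h1
  have hm : (0 : ℤ) < m := by
    have := P.mod
    omega
  have hnn : 0 ≤ r.re ^ 2 + m * r.im ^ 2 := by positivity
  obtain ⟨N, hN⟩ := Int.eq_ofNat_of_zero_le hnn
  have h3 : r.re ^ 2 + m * r.im ^ 2 = 0 := by
    by_contra h4
    rw [hN] at h1 h4
    rw [Int.cast_natCast] at h1
    exact cast_ne G P N (by intro h; apply h4; rw [h]; rfl) h1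
  have h5 : r.re ^ 2 = 0 := by nlinarith [sq_nonneg r.re, sq_nonneg r.im]
  have h8 : r.im ^ 2 = 0 := by nlinarith [sq_nonneg r.re, sq_nonneg r.im]
  have h6 : r.re = 0 := pow_eq_zero_iff (two_ne_zero) |>.1 h5
  have h7 : r.im = 0 := pow_eq_zero_iff (two_ne_zero) |>.1 h8
  apply Zsqrtd.ext
  · simpa using h6
  · simpa using h7

theorem y_unit (G : GD p m a A E) : IsUnit (G.ι (yy m)) := by
  apply unit_of_not_dvd G
  rw [ι_apply]
  intro h
  have : G.ϖ ∣ (1 : A) := by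
    have e : ((yy m).re : A) + ((yy m).im : A) * G.ϖ = 1 + G.ϖ := by simp [yy]
    rw [e] at h
    exact (dvd_add_left (dvd_refl _)).1 h
  exact G.irr.not_isUnit (isUnit_of_dvd_one this)

theorem y_unit' (G : GD p m a A E) : IsUnit (G.ι (star (yy m))) := by
  apply unit_of_not_dvd G
  rw [ι_apply]
  intro h
  have : G.ϖ ∣ (1 : A) := by
    have e : ((star (yy m)).re : A) + ((star (yy m)).im : A) * G.ϖ = 1 - G.ϖ := by
      simp [yy, sub_eq_add_neg]
    rw [e] at h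
    exact (dvd_sub_left (dvd_refl _)).1 h
  exact G.irr.not_isUnit (isUnit_of_dvd_one this)

/-- the matrix `X` -/
theorem X_eq (G : GD p m a A E) (s : Ord m a) :
    (Cyc.Phi s).map (ev G.ι G.t G.ht) = G.Cmᵀ * J A * rho G s * G.Cm := by
  simp only [rho, RingHom.coe_mk, MonoidHom.coe_mk, OneHom.coe_mk]
  have h := Cm_inv G
  calc (Cyc.Phi s).map (ev G.ι G.t G.ht)
      = (G.Cmᵀ * J A * G.Cm) * (Cyc.Phi s).map (ev G.ι G.t G.ht) * (G.Cmᵀ * J A * G.Cm) := by
        rw [h, Matrix.one_mul, Matrix.mul_one]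
    _ = _ := by simp only [Matrix.mul_assoc]

theorem entries (I : Ideal A) (M N K : Matrix (Fin 3) (Fin 3) A) (h : ∀ i j, N i j ∈ I) :
    ∀ i j, (M * N * K) i j ∈ I := by
  intro i j
  rw [Matrix.mul_apply]
  refine I.sum_mem fun k _ => I.mul_mem_right _ ?_
  rw [Matrix.mul_apply]
  exact I.sum_mem fun l _ => I.mul_mem_left _ (h _ _)

/-- all coordinates are in the ideal -/
theorem coords (G : GD p m a A E) (P : Par p m a) (I : Ideal A) (s : Ord m a)
    (h : ∀ i j, rho G s i j ∈ I) :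
    (G.ι s.u.x ∈ I ∧ G.ι s.u.y ∈ I ∧ G.ι s.u.z ∈ I) ∧
    (G.ι s.v.x ∈ I ∧ G.ι s.v.y ∈ I ∧ G.ι s.v.z ∈ I) ∧
    (G.ι s.w.x ∈ I ∧ G.ι s.w.y ∈ I ∧ G.ι s.w.z ∈ I) := by
  have hX : ∀ i j, (Cyc.Phi s).map (ev G.ι G.t G.ht) i j ∈ I := by
    rw [X_eq]
    exact entries I _ _ _ h
  have h00 := hX 0 0
  have h01 := hX 0 1
  have h02 := hX 0 2
  have h10 := hX 1 0
  have h11 := hX 1 1
  have h12 := hX 1 2
  have h20 := hX 2 0
  have h21 := hX 2 1
  have h22 := hX 2 2
  simp only [Matrix.map_apply, Cyc.Phi_apply, Matrix.of_apply, Matrix.cons_val', Matrix.cons_val_zero,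
        Matrix.cons_val_one, Matrix.cons_val_two, Matrix.empty_val', Matrix.cons_val_fin_one,
        Matrix.cons_val, Matrix.tail_cons, Matrix.head_cons, Matrix.head_fin_const, Fin.isValue,
        map_mul, ev_C] at h00 h01 h02 h10 h11 h12 h20 h21 h22
  have hy := y_unit G
  have hy' := y_unit' G
  have mu : ∀ {x u : A}, IsUnit u → x * u ∈ I → x ∈ I := fun hu hx =>
    (Ideal.mul_unit_mem_iff_mem I hu).1 hx
  refine ⟨core G P I s.u h00 h11 h22, core G P I s.v (mu hy' h01) (mu hy' h12) (mu hy h20),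
    core G P I s.w (mu hy' h02) (mu hy h10) (mu hy h21)⟩

end SAT

open SAT in
/-- SAT -/
theorem SAT_proof : St_SAT := by
  intro p m a A E _ _ _ _ _ _ _ _ G P
  refine ⟨?_, ?_, ?_⟩
  · intro s hs
    obtain ⟨⟨u0, u1, u2⟩, ⟨v0, v1, v2⟩, ⟨w0, w1, w2⟩⟩ := coords G P (Ideal.span {(p : A)}) s
      (fun i j => Ideal.mem_span_singleton.2 (hs i j))
    rw [Ideal.mem_span_singleton] at u0 u1 u2 v0 v1 v2 w0 w1 w2
    obtain ⟨a0, ha0⟩ := p_dvd G P _ u0
    obtain ⟨a1, ha1⟩ := p_dvd G P _ u1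
    obtain ⟨a2, ha2⟩ := p_dvd G P _ u2
    obtain ⟨b0, hb0⟩ := p_dvd G P _ v0
    obtain ⟨b1, hb1⟩ := p_dvd G P _ v1
    obtain ⟨b2, hb2⟩ := p_dvd G P _ v2
    obtain ⟨c0, hc0⟩ := p_dvd G P _ w0
    obtain ⟨c1, hc1⟩ := p_dvd G P _ w1
    obtain ⟨c2, hc2⟩ := p_dvd G P _ w2
    refine ⟨⟨⟨a0, a1, a2⟩, ⟨b0, b1, b2⟩, ⟨c0, c1, c2⟩⟩, ?_⟩
    rw [← nsmul_eq_mul]
    apply Cyc.ext <;> apply Cub.ext <;>
      simp only [Cyc.nsmul_u, Cyc.nsmul_v, Cyc.nsmul_w, Cub.nsmul_x, Cub.nsmul_y, Cub.nsmul_z] <;>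
      rw [nsmul_eq_mul] <;> assumption
  · intro s hs
    obtain ⟨⟨u0, u1, u2⟩, ⟨v0, v1, v2⟩, ⟨w0, w1, w2⟩⟩ := coords G P ⊥ s
      (fun i j => by rw [hs]; exact Submodule.zero_mem _)
    rw [Ideal.mem_bot] at u0 u1 u2 v0 v1 v2 w0 w1 w2
    apply Cyc.ext <;> apply Cub.ext
    · exact ι_zero G P _ u0
    · exact ι_zero G P _ u1
    · exact ι_zero G P _ u2
    · exact ι_zero G P _ v0
    · exact ι_zero G P _ v1
    · exact ι_zero G P _ v2
    · exact ι_zero G P _ w0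
    · exact ι_zero G P _ w1
    · exact ι_zero G P _ w2
  · intro s
    have h1 : (rho G s).det = G.Cm.det * ((Cyc.Phi s).map (ev G.ι G.t G.ht)).det *
        (G.Cmᵀ.det * (J A).det) := by
      simp only [rho, RingHom.coe_mk, MonoidHom.coe_mk, OneHom.coe_mk, Matrix.det_mul]
    have h2 : G.Cm.det * G.Cmᵀ.det = (J A).det := by rw [← Matrix.det_mul, G.hC]
    have h3 : (J A).det * (J A).det = 1 := by rw [← Matrix.det_mul, J_mul_J, Matrix.det_one]
    have h4 : ((Cyc.Phi s).map (ev G.ι G.t G.ht)).det = G.ι (Cyc.nrd s) := by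
      have h5 := (RingHom.map_det (ev G.ι G.t G.ht) (Cyc.Phi s)).symm
      rw [RingHom.mapMatrix_apply] at h5
      rw [h5, Cyc.det_Phi, ev_C]
    calc (rho G s).det = (G.Cm.det * G.Cmᵀ.det) * (J A).det *
          ((Cyc.Phi s).map (ev G.ι G.t G.ht)).det := by rw [h1]; ring
      _ = _ := by rw [h2, h3, one_mul, h4]

end Pool.Agent.H791R3.GI
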