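import Pool.Agent.H791R3.GI.Stubs

/-! # SATZ: divisibility by `p` in `ℤ[√-m]` -/

namespace Pool.Agent.H791R3.GI.SATZ

variable {p m : ℕ} {a : ℤ} {A E : Type} [CommRing A] [IsDomain A] [IsDiscreteValuationRing A]
    [StarRing A] [Field E] [StarRing E] [Algebra A E] [IsFractionRing A E]

theorem dvd_int (G : GD p m a A E) (hp : p.Prime) (u : ℤ) (h : G.ϖ ∣ (u : A)) : (p : ℤ) ∣ u := by
  by_contra hu
  have hc : IsCoprime (p : ℤ) u :=
    (Prime.coprime_iff_not_dvd (Nat.prime_iff_prime_int.1 hp)).2 hu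
  obtain ⟨s, t, hst⟩ := hc
  have h1 : G.ϖ ∣ (p : A) :=
    (dvd_pow_self G.ϖ two_ne_zero).trans G.assoc_p.symm.dvd
  have h2 : (s : A) * (p : A) + (t : A) * (u : A) = 1 := by exact_mod_cast congrArg (Int.cast (R := A)) hst
  have h3 : G.ϖ ∣ 1 := by
    rw [← h2]
    exact dvd_add (h1.mul_left _) (h.mul_left _)
  exact G.irr.not_isUnit (isUnit_of_dvd_one h3)

theorem iota_eq (G : GD p m a A E) (x : Zm m) : G.ι x = (x.re : A) + (x.im : A) * G.ϖ := by
  have h : x = (x.re : Zm m) + (x.im : Zm m) * ⟨0, 1⟩ := by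
    ext <;> simp
  conv_lhs => rw [h]
  rw [map_add, map_mul, G.ι_omega, map_intCast, map_intCast]

theorem main (G : GD p m a A E) (hp : p.Prime) : ∀ (e : ℕ) (x : Zm m),
    G.ϖ ^ e ∣ G.ι x → ((p : Zm m) ^ (e / 2)) ∣ x
  | 0, x, _ => by simp
  | 1, x, _ => by simp
  | e + 2, x, h => by
      have hϖ := G.irr.ne_zero
      have h1 : G.ϖ ^ 2 ∣ G.ι x := (pow_dvd_pow _ (by omega)).trans h
      rw [iota_eq] at h1
      have h2 : G.ϖ ∣ (x.re : A) := by
        have h3 : G.ϖ ∣ (x.re : A) + (x.im : A) * G.ϖ :=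
          (dvd_pow_self G.ϖ two_ne_zero).trans h1
        exact (dvd_add_left (Dvd.intro_left _ rfl)).1 h3
      obtain ⟨u, hu⟩ := dvd_int G hp x.re h2
      have h4 : G.ϖ ^ 2 ∣ (x.re : A) := by
        rw [hu]
        push_cast
        exact G.assoc_p.symm.dvd.mul_right _
      have h5 : G.ϖ ^ 2 ∣ (x.im : A) * G.ϖ := (dvd_add_right h4).1 h1
      have h6 : G.ϖ ∣ (x.im : A) := by
        rw [pow_two] at h5
        exact (mul_dvd_mul_iff_right hϖ).1 h5
      obtain ⟨v, hv⟩ := dvd_int G hp x.im h6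
      have hx : x = (p : Zm m) * ⟨u, v⟩ := by
        ext
        · simp [hu]
        · simp [hv]
      have h7 : G.ϖ ^ e ∣ G.ι ⟨u, v⟩ := by
        rw [hx, map_mul, map_natCast, pow_add, mul_comm (G.ϖ ^ e)] at h
        obtain ⟨w, hw⟩ := G.assoc_p
        have h8 : G.ϖ ^ 2 * G.ϖ ^ e ∣ G.ϖ ^ 2 * G.ι ⟨u, v⟩ := by
          rw [← hw]
          have h9 := h.mul_right (w : A)
          rw [← hw] at h9
          convert h9 using 1
          ring
        exact (mul_dvd_mul_iff_left (pow_ne_zero 2 hϖ)).1 h8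
      have h8 := main G hp e ⟨u, v⟩ h7
      rw [show (e + 2) / 2 = e / 2 + 1 by omega, pow_succ, mul_comm, hx]
      exact mul_dvd_mul_left _ h8

end Pool.Agent.H791R3.GI.SATZ

namespace Pool.Agent.H791R3.GI

theorem SATZ_proof : St_SATZ := by
  intro p m a A E _ _ _ _ _ _ _ _ G hP x e h
  exact SATZ.main G hP.prime e x h

end Pool.Agent.H791R3.GI
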