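import Pool.Agent.H791R3.GI.Stubs

/-! # SQ2: a 2-adic square root of `-m` -/

namespace Pool.Agent.H791R3.GI

theorem SQ2_proof : St_SQ2 := by
  intro m hm
  obtain ⟨k, hk⟩ : ∃ k : ℕ, m + 1 = 8 * k := ⟨(m + 1) / 8, by omega⟩
  have h2 : ‖(2 : ℤ_[2])‖ = 2⁻¹ := by
    have := PadicInt.norm_p (p := 2)
    simpa using this
  have hF : ‖Polynomial.aeval (1 : ℤ_[2]) (Polynomial.X ^ 2 + Polynomial.C (m : ℤ_[2]))‖ <
      ‖Polynomial.aeval (1 : ℤ_[2])
        (Polynomial.derivative (Polynomial.X ^ 2 + Polynomial.C (m : ℤ_[2])))‖ ^ 2 := by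
    have e1 : Polynomial.aeval (1 : ℤ_[2]) (Polynomial.X ^ 2 + Polynomial.C (m : ℤ_[2])) =
        (2 : ℤ_[2]) ^ 3 * (k : ℤ_[2]) := by
      have : (m : ℤ_[2]) + 1 = 8 * (k : ℤ_[2]) := by exact_mod_cast congrArg (Nat.cast (R := ℤ_[2])) hk
      simp only [map_add, map_pow, Polynomial.aeval_X, Polynomial.aeval_C, Algebra.algebraMap_self,
        RingHom.id_apply, one_pow]
      linear_combination this
    have e2 : Polynomial.aeval (1 : ℤ_[2])
        (Polynomial.derivative (Polynomial.X ^ 2 + Polynomial.C (m : ℤ_[2]))) = 2 := by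
      simp
      norm_num
    rw [e1, e2, norm_mul, norm_pow, h2]
    have h3 : ‖(k : ℤ_[2])‖ ≤ 1 := PadicInt.norm_le_one _
    nlinarith [norm_nonneg (k : ℤ_[2])]
  obtain ⟨z, hz, _⟩ := hensels_lemma hF
  refine ⟨z, ?_⟩
  simp only [map_add, map_pow, Polynomial.aeval_X, Polynomial.aeval_C, Algebra.algebraMap_self,
        RingHom.id_apply] at hz
  linear_combination hz

end Pool.Agent.H791R3.GI
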